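import Pool.Agent.Helper51.SY.PDefs

/-!
# Varieties with trivial canonical bundle: definitions

Products and their polyvector fields, strict Calabi-Yau varieties, and the decomposition of a
variety with trivial canonical bundle.
-/

set_option autoImplicit false

namespace Pool.Agent.Hodge81

open Complex Module

universe u

/-- The canonical bundle is trivial: for a generator `v` of `H^{n,0}`, contraction with `v`
identifies `H^a(Λ^b T)` with `H^{n-b,a}`. -/
def PolyvectorAction.TrivialCanonical {n : ℕ} {A : Type*} [Ring A] [Algebra ℂ A]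
    {X : HodgeRing n A} (P : PolyvectorAction X) : Prop :=
  ∃ v ∈ X.H n 0, ∀ a b, b ≤ n → (∀ f ∈ P.T a b, f v = 0 → f = 0) ∧
    ∀ w ∈ X.H (n - b) a, ∃ f ∈ P.T a b, f v = w

/-- `F` is the operator `f ⊠ g`, for `g` of degree `m` -/
def Product.IsBox {n a b : ℕ} {A C D : Type*} [Ring A] [Algebra ℂ A] [Ring C] [Algebra ℂ C]
    [Ring D] [Algebra ℂ D] {X : HodgeRing n A} {W : HodgeRing a C} {Z : HodgeRing b D}
    (U : Product X W Z) (m : ℕ) (f : Module.End ℂ C) (g : Module.End ℂ D)
    (F : Module.End ℂ A) : Prop :=
  ∀ p q w z, w ∈ W.H p q →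
    F (U.fst w * U.snd z) = (-1 : ℂ) ^ (m * (p + q)) • (U.fst (f w) * U.snd (g z))

/-- Kuenneth formula for polyvector fields: the polyvector fields on the product are the sums of
products of polyvector fields on the factors. -/
structure Product.Kuenneth {n a b : ℕ} {A C D : Type*} [Ring A] [Algebra ℂ A] [Ring C]
    [Algebra ℂ C] [Ring D] [Algebra ℂ D] {X : HodgeRing n A} {W : HodgeRing a C}
    {Z : HodgeRing b D} (U : Product X W Z) (P : PolyvectorAction X) (PW : PolyvectorAction W)
    (PZ : PolyvectorAction Z) : Prop where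
  span : ∀ k l, P.T k l = Submodule.span ℂ {F | ∃ i j i' j' f g, i + i' = k ∧ j + j' = l ∧
    f ∈ PW.T i j ∧ g ∈ PZ.T i' j' ∧ U.IsBox (i' + j') f g F}

/-- the pullbacks commute with complex conjugation -/
structure Product.Real {n a b : ℕ} {A C D : Type*} [Ring A] [Algebra ℂ A] [Ring C] [Algebra ℂ C]
    [Ring D] [Algebra ℂ D] {X : HodgeRing n A} {W : HodgeRing a C} {Z : HodgeRing b D}
    (U : Product X W Z) : Prop where
  fst_conj : ∀ w, U.fst (W.conj w) = X.conj (U.fst w)
  snd_conj : ∀ z, U.snd (Z.conj z) = X.conj (U.snd z)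

/-- Further properties of a product `X = W × Z`: the pullbacks commute with complex conjugation,
the formula of Fubini, the formula for the first Chern class, and the Kuenneth formula for the
polyvector fields. -/
structure Product.Full {n a b : ℕ} {A C D : Type*} [Ring A] [Algebra ℂ A] [Ring C]
    [Algebra ℂ C] [Ring D] [Algebra ℂ D] {X : HodgeRing n A} {W : HodgeRing a C}
    {Z : HodgeRing b D} (U : Product X W Z) (P : PolyvectorAction X) (PW : PolyvectorAction W)
    (PZ : PolyvectorAction Z) : Prop where
  real : U.Real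
  fubini : ∀ w z, X.int (U.fst w * U.snd z) = W.int w * Z.int z
  chern : X.c1 = U.fst W.c1 + U.snd Z.c1
  polyvector : U.Kuenneth P PW PZ

/-- the polyvector part of a symplectic variety: the inverse bivectors are polyvector fields -/
structure SymplecticP {r : ℕ} {C : Type*} [Ring C] [Algebra ℂ C] {S : HodgeRing (2 * r) C}
    (PS : PolyvectorAction S) : Prop where
  exists_form : ∃ s ∈ S.H 2 0, s ^ r ≠ 0
  inverse : ∀ s ∈ S.H 2 0, s ^ r ≠ 0 → ∃ t ∈ PS.T 0 2, S.IsInverse s t

/-- A strict Calabi-Yau variety of dimension `m`: `m` is at least three, the canonical bundle is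
trivial and there are no holomorphic forms of the degrees `0 < k < m`; the Chern number
`c_1 c_(m-1)` is zero since `c_1` is zero. -/
structure IsStrictCY {m : ℕ} {A : Type*} [Ring A] [Algebra ℂ A] {Z : HodgeRing m A}
    (P : PolyvectorAction Z) : Prop where
  three : 3 ≤ m
  canonical : P.TrivialCanonical
  forms : ∀ k, 0 < k → k < m → Z.h 0 k = 0
  chern : Z.chernNumber = 0

/-- The dimension and the Hodge numbers of a variety. -/
abbrev Diamond := ℕ × (ℕ → ℕ → ℕ)

/-- What the derived category sees of a factor: the dimension and for every `c` the sum and the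
alternating sum of the `h^{p,q}` with `p - q = c`. -/
def Diamond.Matches (d d' : Diamond) : Prop :=
  d.1 = d'.1 ∧ ∀ s : ℤ, s = 1 ∨ s = -1 → ∀ c : ℕ,
    ∑ j ∈ Finset.range (d.1 + 1), s ^ j * (d.2 (c + j) j : ℤ) =
      ∑ j ∈ Finset.range (d'.1 + 1), s ^ j * (d'.2 (c + j) j : ℤ)

/-- A product of strict Calabi-Yau varieties (possibly of no one), with the list of the dimensions
and Hodge numbers of the factors. -/
inductive IsCYProduct : ∀ {n : ℕ} {A : Type u} [Ring A] [Algebra ℂ A]
    {X : HodgeRing n A}, PolyvectorAction X → Multiset Diamond → Prop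
  | point {A : Type u} [Ring A] [Algebra ℂ A] [FiniteDimensional ℂ A] {Z : HodgeRing 0 A}
      (P : PolyvectorAction Z) : IsCYProduct P 0
  | single {m : ℕ} {A : Type u} [Ring A] [Algebra ℂ A] [FiniteDimensional ℂ A]
      {Z : HodgeRing m A} (P : PolyvectorAction Z) (h : IsStrictCY P) :
      IsCYProduct P {(m, Z.h)}
  | prod {n a b : ℕ} {A C D : Type u} [Ring A] [Algebra ℂ A] [FiniteDimensional ℂ A] [Ring C]
      [Algebra ℂ C] [FiniteDimensional ℂ C] [Ring D] [Algebra ℂ D] [FiniteDimensional ℂ D]
      {X : HodgeRing n A} {W : HodgeRing a C} {Z : HodgeRing b D} (U : Product X W Z)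
      (hU : U.Real) (P : PolyvectorAction X) (PW : PolyvectorAction W) (PZ : PolyvectorAction Z)
      (K : U.Kuenneth P PW PZ) (L M : Multiset Diamond) (hW : IsCYProduct PW L)
      (hZ : IsCYProduct PZ M) : IsCYProduct P (L + M)

/-- A decomposition `X = S × Z` of a variety with trivial canonical bundle: `S` is a holomorphic
symplectic variety of dimension `2 r`, and `Z` is a product of strict Calabi-Yau varieties with
the list `L` of the dimensions and Hodge numbers of the factors. -/
structure Decomposition {n r b : ℕ} {A C D : Type u} [Ring A] [Algebra ℂ A] [Ring C] [Algebra ℂ C]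
    [Ring D] [Algebra ℂ D] {X : HodgeRing n A} {S : HodgeRing (2 * r) C} {Z : HodgeRing b D}
    (P : PolyvectorAction X) (PS : PolyvectorAction S) (PZ : PolyvectorAction Z)
    (L : Multiset Diamond) extends Product X S Z where
  real : toProduct.Real
  polyvector : toProduct.Kuenneth P PS PZ
  symplectic : SymplecticP PS
  canonical : PS.TrivialCanonical
  factors : IsCYProduct PZ L

end Pool.Agent.Hodge81
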