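import Pool.Agent.KT.Ops

/-!
# The splitting given by a product decomposition
-/

set_option autoImplicit false

namespace Pool.Agent.Hodge81

open Complex Module
open Pool.Agent.KT

namespace PolyvectorAction

variable {n : ℕ} {A : Type*} [Ring A] [Algebra ℂ A] {X : HodgeRing n A} (P : PolyvectorAction X)

theorem total_mul {i j : ℕ} {f g : Module.End ℂ A} (hf : f ∈ P.total i) (hg : g ∈ P.total j) :
    f * g ∈ P.total (i + j) := by
  refine P.total_induct (Q := fun f => f * g ∈ P.total (i + j)) (fun a b hab f hf => ?_)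
    (by rw [zero_mul]; exact Submodule.zero_mem _)
    (fun x y hx hy => by rw [add_mul]; exact Submodule.add_mem _ hx hy) hf
  refine P.total_induct (Q := fun g => f * g ∈ P.total (i + j)) (fun c d hcd g hg => ?_)
    (by rw [mul_zero]; exact Submodule.zero_mem _)
    (fun x y hx hy => by rw [mul_add]; exact Submodule.add_mem _ hx hy) hg
  exact P.mem_total (by omega) (P.mul_mem a b c d f g hf hg)

theorem total_comm {i j : ℕ} {f g : Module.End ℂ A} (hf : f ∈ P.total i) (hg : g ∈ P.total j) :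
    f * g = (-1 : ℂ) ^ (i * j) • (g * f) := by
  refine P.total_induct (Q := fun f => f * g = (-1 : ℂ) ^ (i * j) • (g * f))
    (fun a b hab f hf => ?_) (by rw [zero_mul, mul_zero, smul_zero])
    (fun x y hx hy => by rw [add_mul, mul_add, hx, hy, smul_add]) hf
  refine P.total_induct (Q := fun g => f * g = (-1 : ℂ) ^ (i * j) • (g * f))
    (fun c d hcd g hg => ?_) (by rw [zero_mul, mul_zero, smul_zero])
    (fun x y hx hy => by rw [add_mul, mul_add, hx, hy, smul_add]) hg
  rw [P.comm a b c d f g hf hg, hab, hcd]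

theorem one_total : (1 : Module.End ℂ A) ∈ P.total 0 :=
  P.mem_total (a := 0) (b := 0) rfl P.one_mem_T

theorem total_zero_scalar {f : Module.End ℂ A} (hf : f ∈ P.total 0) : ∃ c : ℂ, f = c • 1 := by
  refine P.total_induct (Q := fun f => ∃ c : ℂ, f = c • 1) (fun i j hij f hf => ?_)
    ⟨0, by rw [zero_smul]⟩ ?_ hf
  · obtain ⟨rfl, rfl⟩ : i = 0 ∧ j = 0 := by omega
    exact P.T_zero_zero hf
  · rintro _ _ ⟨c, rfl⟩ ⟨d, rfl⟩
    exact ⟨c + d, by rw [add_smul]⟩

/-- the polyvector fields form a graded algebra -/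
theorem grad : Grad P.total X.cop where
  one := P.one_total
  zero _ hf := P.total_zero_scalar hf
  mul _ _ _ hf _ hg := P.total_mul hf hg
  comm _ _ _ hf _ hg := P.total_comm hf hg
  deg _ _ hf := X.ad_cop P hf

end PolyvectorAction

namespace Product

variable {n a b : ℕ} {A C D : Type*} [Ring A] [Algebra ℂ A] [Ring C] [Algebra ℂ C]
  [Ring D] [Algebra ℂ D] {X : HodgeRing n A} {W : HodgeRing a C} {Z : HodgeRing b D}

section ops

variable (U : Product X W Z)

/-- the column operator of the first factor -/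
noncomputable def cl : Module.End ℂ A := U.bx 0 W.cop 1

/-- the column operator of the second factor -/
noncomputable def cr : Module.End ℂ A := U.bx 0 1 Z.cop

theorem cl_apply (w : C) (z : D) : U.cl (U.fst w * U.snd z) = U.fst (W.cop w) * U.snd z := by
  rw [cl, bx_apply, pow_zero, Module.End.one_apply, Module.End.one_apply]

theorem cr_apply (w : C) (z : D) : U.cr (U.fst w * U.snd z) = U.fst w * U.snd (Z.cop z) := by
  rw [cr, bx_apply, pow_zero, Module.End.one_apply, Module.End.one_apply]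

theorem cop_fst (w : C) : X.cop (U.fst w) = U.fst (W.cop w) := by
  refine W.induct (P := fun w => X.cop (U.fst w) = U.fst (W.cop w)) (fun p q w hw => ?_)
    (by simp) (fun a b ha hb => by rw [map_add, map_add, map_add, map_add, ha, hb]) w
  rw [X.cop_of_mem (U.fst_mem _ _ _ hw), W.cop_of_mem hw, map_smul]

theorem cop_snd (z : D) : X.cop (U.snd z) = U.snd (Z.cop z) := by
  refine Z.induct (P := fun z => X.cop (U.snd z) = U.snd (Z.cop z)) (fun p q w hw => ?_)
    (by simp) (fun a b ha hb => by rw [map_add, map_add, map_add, map_add, ha, hb]) z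
  rw [X.cop_of_mem (U.snd_mem _ _ _ hw), Z.cop_of_mem hw, map_smul]

theorem cl_add_cr : U.cl + U.cr = X.cop := by
  refine U.ext_ku fun w z => ?_
  rw [LinearMap.add_apply, cl_apply, cr_apply, X.cop_mul, cop_fst, cop_snd]

theorem cl_mul_cr : U.cl * U.cr = U.cr * U.cl := by
  refine U.ext_ku fun w z => ?_
  rw [Module.End.mul_apply, Module.End.mul_apply, cr_apply, cl_apply, cl_apply, cr_apply]

theorem bar_cl (hU : U.Real) : X.bar U.cl = -U.cl := by
  refine U.ext_ku fun w z => ?_
  have h1 : W.bar W.cop w = -W.cop w := by rw [W.bar_cop, LinearMap.neg_apply]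
  rw [HodgeRing.bar_apply] at h1
  rw [HodgeRing.bar_apply, map_mul, ← hU.fst_conj, ← hU.snd_conj, cl_apply, map_mul,
    ← hU.fst_conj, ← hU.snd_conj, Z.conj_conj, h1, LinearMap.neg_apply, cl_apply, map_neg,
    neg_mul]

theorem bar_cr (hU : U.Real) : X.bar U.cr = -U.cr := by
  have h1 := congrArg X.bar U.cl_add_cr
  rw [X.bar_add, U.bar_cl hU, X.bar_cop, ← U.cl_add_cr, neg_add] at h1
  exact add_left_cancel h1

theorem cl_comm_cop : U.cl * X.cop = X.cop * U.cl := by
  rw [← U.cl_add_cr, mul_add, add_mul, U.cl_mul_cr]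

end ops

variable {U : Product X W Z} {P : PolyvectorAction X} {PW : PolyvectorAction W}
  {PZ : PolyvectorAction Z}

theorem par_cop : W.Par 0 W.cop := W.par_diag _

theorem par_one : W.Par 0 (1 : Module.End ℂ C) := by
  rw [HodgeRing.Par, mul_one, one_mul, pow_zero, one_smul]

theorem ad_cl_bx {i : ℕ} (j : ℕ) {f : Module.End ℂ C} (hf : f ∈ PW.total i)
    (g : Module.End ℂ D) : ad U.cl (U.bx j f g) = (-(i : ℂ)) • U.bx j f g := by
  have h1 := W.ad_cop PW hf
  rw [ad_apply] at h1
  rw [ad_apply, cl, U.bx_mul (W.par_total PW hf), U.bx_mul par_cop, zero_mul, mul_zero,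
    pow_zero, one_smul, one_smul, one_mul, mul_one, zero_add, add_zero, ← bx_smul_left, ← h1,
    bx_sub_left]

theorem ad_cr_bx {j : ℕ} {f : Module.End ℂ C} (i : ℕ) (hf : f ∈ PW.total i)
    {g : Module.End ℂ D} (hg : g ∈ PZ.total j) :
    ad U.cr (U.bx j f g) = (-(j : ℂ)) • U.bx j f g := by
  have h1 := Z.ad_cop PZ hg
  rw [ad_apply] at h1
  rw [ad_apply, cr, U.bx_mul (W.par_total PW hf), U.bx_mul par_one, zero_mul, mul_zero,
    pow_zero, one_smul, one_smul, one_mul, mul_one, zero_add, add_zero, ← bx_smul_right, ← h1,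
    bx_sub_right]

theorem bx_mul_one (j : ℕ) (f : Module.End ℂ C) (g : Module.End ℂ D) :
    U.bx 0 f 1 * U.bx j 1 g = U.bx j f g := by
  rw [U.bx_mul par_one, zero_mul, pow_zero, one_smul, zero_add, mul_one, one_mul]

theorem bx_eq_zero {j : ℕ} {f : Module.End ℂ C} {g : Module.End ℂ D} (h : U.bx j f g = 0) :
    f = 0 ∨ g = 0 := by
  by_contra h0
  push Not at h0
  obtain ⟨w, hw⟩ : ∃ w, f w ≠ 0 := by
    by_contra h1
    push Not at h1
    exact h0.1 (LinearMap.ext h1)
  obtain ⟨z, hz⟩ : ∃ z, g z ≠ 0 := by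
    by_contra h1
    push Not at h1
    exact h0.2 (LinearMap.ext h1)
  obtain ⟨w', rfl⟩ : ∃ w', (W.sgn ^ j) w' = w := by
    refine ⟨(W.sgn ^ j) w, ?_⟩
    rw [← Module.End.mul_apply, ← (Commute.refl W.sgn).mul_pow, W.sgn_mul_sgn, one_pow,
      Module.End.one_apply]
  have h1 := U.bx_apply j f g w' z
  rw [h, LinearMap.zero_apply] at h1
  obtain ⟨ξ, hξ⟩ := exists_functional hw
  have h2 := U.sl_apply ξ (f ((W.sgn ^ j) w')) (g z)
  rw [← h1, map_zero, hξ, one_smul] at h2
  exact hz h2.symm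

namespace Kuenneth

theorem bx_mem (K : U.Kuenneth P PW PZ) {i j : ℕ} {f : Module.End ℂ C} (hf : f ∈ PW.total i)
    {g : Module.End ℂ D} (hg : g ∈ PZ.total j) : U.bx j f g ∈ P.total (i + j) := by
  refine PW.total_induct (Q := fun f => U.bx j f g ∈ P.total (i + j)) (fun c d hcd f hf => ?_)
    (by rw [bx_zero_left]; exact Submodule.zero_mem _)
    (fun x y hx hy => by rw [bx_add_left]; exact Submodule.add_mem _ hx hy) hf
  refine PZ.total_induct (Q := fun g => U.bx j f g ∈ P.total (i + j)) (fun c' d' hcd' g hg => ?_)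
    (by rw [bx_zero_right]; exact Submodule.zero_mem _)
    (fun x y hx hy => by rw [bx_add_right]; exact Submodule.add_mem _ hx hy) hg
  refine P.mem_total (a := c + c') (b := d + d') (by omega) ?_
  rw [K.span]
  refine Submodule.subset_span ⟨c, d, c', d', f, g, rfl, rfl, hf, hg, ?_⟩
  rw [hcd']
  exact U.isBox_bx j f g

/-- decomposition by the degree in the second factor -/
theorem total_le (K : U.Kuenneth P PW PZ) (k : ℕ) : P.total k ≤ ⨆ i : Fin (k + 1),
    Submodule.span ℂ {F | ∃ f ∈ PW.total i, ∃ g ∈ PZ.total (k - i), F = U.bx (k - i) f g} := by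
  intro F hF
  refine K.total_induct (Q := fun F => F ∈ ⨆ i : Fin (k + 1),
    Submodule.span ℂ {F | ∃ f ∈ PW.total i, ∃ g ∈ PZ.total (k - i), F = U.bx (k - i) f g})
    (fun i j f g F hij hf hg hb => ?_) (Submodule.zero_mem _)
    (fun x y hx hy => Submodule.add_mem _ hx hy) (fun c x hx => Submodule.smul_mem _ _ hx) hF
  refine Submodule.mem_iSup_of_mem (⟨i, by omega⟩ : Fin (k + 1)) (Submodule.subset_span ?_)
  obtain rfl : j = k - i := by omega
  exact ⟨f, hf, g, hg, (U.isBox_iff _ f g F).1 hb⟩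

theorem mem_pt_cr (K : U.Kuenneth P PW PZ) {k : ℕ} {F : Module.End ℂ A} :
    F ∈ pt P.total U.cr k ↔ ∃ f ∈ PW.total k, F = U.bx 0 f 1 := by
  constructor
  · rintro ⟨h1, h2⟩
    replace h2 : ad U.cr F = 0 := h2
    have h3 := mem_of_eigen (ad U.cr) (fun i : Fin (k + 1) => Submodule.span ℂ
      {F | ∃ f ∈ PW.total i, ∃ g ∈ PZ.total (k - i), F = U.bx (k - i) f g})
      (fun i => -((k - i : ℕ) : ℂ)) (fun i => ?_) (K.total_le k h1) (l := 0)
      (by rw [h2, zero_smul])
    · have h4 : (⨆ (i : Fin (k + 1)) (_ : -((k - i : ℕ) : ℂ) = 0), Submodule.span ℂ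
          {F | ∃ f ∈ PW.total i, ∃ g ∈ PZ.total (k - i), F = U.bx (k - i) f g}) ≤
          (PW.total k).map (U.inlL) := by
        refine iSup₂_le fun i hi => ?_
        rw [neg_eq_zero, Nat.cast_eq_zero] at hi
        have hi2 := i.2
        obtain ⟨i, hik⟩ := i
        obtain rfl : i = k := by
          simp only at hi hi2
          omega
        rw [Submodule.span_le]
        rintro _ ⟨f, hf, g, hg, rfl⟩
        simp only [Nat.sub_self] at hg ⊢
        obtain ⟨c, rfl⟩ := PZ.total_zero_scalar hg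
        refine ⟨c • f, Submodule.smul_mem _ _ hf, ?_⟩
        rw [inlL_apply, ← bx_zero_one, bx_smul_left, bx_smul_right]
      obtain ⟨f, hf, e⟩ := h4 h3
      exact ⟨f, hf, by rw [← e, inlL_apply, bx_zero_one]⟩
    · rw [Submodule.span_le]
      rintro _ ⟨f, hf, g, hg, rfl⟩
      exact Module.End.mem_eigenspace_iff.2 (ad_cr_bx i hf hg)
  · rintro ⟨f, hf, rfl⟩
    refine ⟨?_, ?_⟩
    · have := K.bx_mem (i := k) (j := 0) hf PZ.one_total
      rwa [add_zero] at this
    · change ad U.cr (U.bx 0 f 1) = 0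
      rw [ad_cr_bx k hf PZ.one_total]
      simp

theorem mem_pt_cl (K : U.Kuenneth P PW PZ) {k : ℕ} {F : Module.End ℂ A} :
    F ∈ pt P.total U.cl k ↔ ∃ g ∈ PZ.total k, F = U.bx k 1 g := by
  constructor
  · rintro ⟨h1, h2⟩
    replace h2 : ad U.cl F = 0 := h2
    have h3 := mem_of_eigen (ad U.cl) (fun i : Fin (k + 1) => Submodule.span ℂ
      {F | ∃ f ∈ PW.total i, ∃ g ∈ PZ.total (k - i), F = U.bx (k - i) f g})
      (fun i => -((i : ℕ) : ℂ)) (fun i => ?_) (K.total_le k h1) (l := 0)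
      (by rw [h2, zero_smul])
    · have h4 : (⨆ (i : Fin (k + 1)) (_ : -((i : ℕ) : ℂ) = 0), Submodule.span ℂ
          {F | ∃ f ∈ PW.total i, ∃ g ∈ PZ.total (k - i), F = U.bx (k - i) f g}) ≤
          Submodule.span ℂ {F | ∃ g ∈ PZ.total k, F = U.bx k 1 g} := by
        refine iSup₂_le fun i hi => ?_
        rw [neg_eq_zero, Nat.cast_eq_zero] at hi
        obtain ⟨i, hik⟩ := i
        simp only at hi
        subst hi
        rw [Submodule.span_le]
        rintro _ ⟨f, hf, g, hg, rfl⟩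
        simp only [Nat.sub_zero] at hg ⊢
        obtain ⟨c, rfl⟩ := PW.total_zero_scalar hf
        rw [bx_smul_left]
        exact Submodule.smul_mem _ _ (Submodule.subset_span ⟨g, hg, rfl⟩)
      refine Submodule.span_induction (p := fun F _ => ∃ g ∈ PZ.total k, F = U.bx k 1 g)
        (fun F hF => hF) ⟨0, Submodule.zero_mem _, by rw [bx_zero_right]⟩ ?_ ?_ (h4 h3)
      · rintro _ _ _ _ ⟨g, hg, rfl⟩ ⟨g', hg', rfl⟩
        exact ⟨g + g', Submodule.add_mem _ hg hg', by rw [bx_add_right]⟩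
      · rintro c _ _ ⟨g, hg, rfl⟩
        exact ⟨c • g, Submodule.smul_mem _ _ hg, by rw [bx_smul_right]⟩
    · rw [Submodule.span_le]
      rintro _ ⟨f, hf, g, hg, rfl⟩
      exact Module.End.mem_eigenspace_iff.2 (ad_cl_bx _ hf g)
  · rintro ⟨g, hg, rfl⟩
    refine ⟨?_, ?_⟩
    · have := K.bx_mem (i := 0) (j := k) PW.one_total hg
      rwa [zero_add] at this
    · change ad U.cl (U.bx k 1 g) = 0
      rw [ad_cl_bx k PW.one_total g]
      simp

/-- a product decomposition gives a splitting -/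
theorem split (K : U.Kuenneth P PW PZ) : Split P.total X.cop U.cl U.cr where
  add := U.cl_add_cr
  comm := U.cl_mul_cr
  span k := by
    refine (K.total_le k).trans (iSup_mono fun i => Submodule.span_mono ?_)
    rintro _ ⟨f, hf, g, hg, rfl⟩
    exact ⟨U.bx 0 f 1, K.mem_pt_cr.2 ⟨f, hf, rfl⟩, U.bx (k - i) 1 g, K.mem_pt_cl.2 ⟨g, hg, rfl⟩,
      (bx_mul_one _ f g).symm⟩
  cross i j F hF G hG h := by
    obtain ⟨f, hf, rfl⟩ := K.mem_pt_cr.1 hF
    obtain ⟨g, hg, rfl⟩ := K.mem_pt_cl.1 hG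
    rw [bx_mul_one _ f g] at h
    rcases bx_eq_zero h with rfl | rfl
    · left
      rw [bx_zero_left]
    · right
      rw [bx_zero_right]

end Kuenneth

end Product

end Pool.Agent.Hodge81
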