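import Mathlib

/-!
# Splittings of a graded algebra of operators
-/

set_option autoImplicit false

namespace Pool.Agent.KT

open Module

section la

variable {V : Type*} [AddCommGroup V] [Module ℂ V]

/-- components of an eigenvector -/
theorem mem_of_eigen {ι : Type*} (T : Module.End ℂ V) (S : ι → Submodule ℂ V) (μ : ι → ℂ)
    (hS : ∀ i, S i ≤ T.eigenspace (μ i)) {F : V} (hF : F ∈ ⨆ i, S i) {l : ℂ}
    (hl : T F = l • F) : F ∈ ⨆ (i : ι) (_ : μ i = l), S i := by
  have h1 : (⨆ i, S i) ≤ (⨆ (i : ι) (_ : μ i = l), S i) ⊔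
      ⨆ (ν : ℂ) (_ : ν ≠ l), T.eigenspace ν := by
    refine iSup_le fun i => ?_
    by_cases hi : μ i = l
    · exact (le_iSup₂ (f := fun (i : ι) (_ : μ i = l) => S i) i hi).trans le_sup_left
    · exact (hS i).trans ((le_iSup₂ (f := fun (ν : ℂ) (_ : ν ≠ l) => T.eigenspace ν)
        (μ i) hi).trans le_sup_right)
  obtain ⟨a, ha, b, hb, e⟩ := Submodule.mem_sup.1 (h1 hF)
  have ha' : a ∈ T.eigenspace l := by
    refine (iSup₂_le fun i hi => ?_ : (⨆ (i : ι) (_ : μ i = l), S i) ≤ T.eigenspace l) ha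
    rw [← hi]
    exact hS i
  have hF' : F ∈ T.eigenspace l := Module.End.mem_eigenspace_iff.2 hl
  have hb' : b ∈ T.eigenspace l := by
    have : b = F - a := by rw [← e]; abel
    rw [this]
    exact Submodule.sub_mem _ hF' ha'
  have h2 := T.eigenspaces_iSupIndep l
  have h3 := Submodule.disjoint_def.1 h2 b hb' hb
  rw [h3, add_zero] at e
  rw [← e]
  exact ha

/-- an eigenvector with a missing eigenvalue is zero -/
theorem eq_zero_of_eigen {ι : Type*} (T : Module.End ℂ V) (S : ι → Submodule ℂ V) (μ : ι → ℂ)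
    (hS : ∀ i, S i ≤ T.eigenspace (μ i)) {F : V} (hF : F ∈ ⨆ i, S i) {l : ℂ}
    (hl : T F = l • F) (h : ∀ i, μ i ≠ l) : F = 0 := by
  have h1 := mem_of_eigen T S μ hS hF hl
  have h2 : (⨆ (i : ι) (_ : μ i = l), S i) = ⊥ := by
    rw [iSup_eq_bot]
    intro i
    rw [iSup_eq_bot]
    intro hi
    exact absurd hi (h i)
  rw [h2, Submodule.mem_bot] at h1
  exact h1

end la

variable {E : Type*} [Ring E] [Algebra ℂ E]

/-- the commutator with `e` -/
def ad (e : E) : Module.End ℂ E := LinearMap.mulLeft ℂ e - LinearMap.mulRight ℂ e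

theorem ad_apply (e f : E) : ad e f = e * f - f * e := rfl

theorem ad_mul (e f g : E) : ad e (f * g) = ad e f * g + f * ad e g := by
  rw [ad_apply, ad_apply, ad_apply]
  noncomm_ring

theorem ad_add_left (e e' f : E) : ad (e + e') f = ad e f + ad e' f := by
  rw [ad_apply, ad_apply, ad_apply]
  noncomm_ring

theorem ad_ad {e e' : E} (h : e * e' = e' * e) (f : E) : ad e (ad e' f) = ad e' (ad e f) := by
  simp only [ad_apply]
  have h1 : e * (e' * f) = e' * (e * f) := by rw [← mul_assoc, h, mul_assoc]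
  have h2 : f * e' * e = f * e * e' := by rw [mul_assoc, mul_assoc, h]
  calc e * (e' * f - f * e') - (e' * f - f * e') * e
      = e * (e' * f) - e * f * e' - e' * f * e + f * e' * e := by noncomm_ring
    _ = e' * (e * f) - e * f * e' - e' * f * e + f * e * e' := by rw [h1, h2]
    _ = _ := by noncomm_ring

/-- A graded commutative algebra of operators `R k`; the operator `c` measures the degree. -/
structure Grad (R : ℕ → Submodule ℂ E) (c : E) : Prop where
  one : (1 : E) ∈ R 0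
  zero : ∀ f ∈ R 0, ∃ z : ℂ, f = z • 1
  mul : ∀ i j, ∀ f ∈ R i, ∀ g ∈ R j, f * g ∈ R (i + j)
  comm : ∀ i j, ∀ f ∈ R i, ∀ g ∈ R j, f * g = (-1 : ℂ) ^ (i * j) • (g * f)
  deg : ∀ k, ∀ f ∈ R k, ad c f = (-(k : ℂ)) • f

/-- the elements of `R k` which commute with `e` -/
def pt (R : ℕ → Submodule ℂ E) (e : E) (k : ℕ) : Submodule ℂ E := R k ⊓ LinearMap.ker (ad e)

theorem mem_pt {R : ℕ → Submodule ℂ E} {e : E} {k : ℕ} {f : E} :
    f ∈ pt R e k ↔ f ∈ R k ∧ ad e f = 0 := Iff.rfl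

/-- A splitting of `R` as a tensor product: `e` measures the degree in the first factor (the
elements of `R` commuting with `e'`), `e'` the degree in the second factor. -/
structure Split (R : ℕ → Submodule ℂ E) (c e e' : E) : Prop where
  add : e + e' = c
  comm : e * e' = e' * e
  span : ∀ k, R k ≤ ⨆ i : Fin (k + 1),
    Submodule.span ℂ {f | ∃ a ∈ pt R e' i, ∃ b ∈ pt R e (k - i), f = a * b}
  cross : ∀ i j, ∀ a ∈ pt R e' i, ∀ b ∈ pt R e j, a * b = 0 → a = 0 ∨ b = 0

/-- The first factor of the splitting is a strict Calabi-Yau variety of dimension `m`: `w` spans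
the top degree. -/
structure CYData (R : ℕ → Submodule ℂ E) (e' : E) (m : ℕ) (w : E) : Prop where
  three : 3 ≤ m
  ne : w ≠ 0
  mem : w ∈ pt R e' (2 * m)
  pair : ∃ u ∈ pt R e' m, ∃ u' ∈ pt R e' m, u * u' = w ∧
    ∀ k, 0 < k → k < m → ∀ f ∈ pt R e' k, u * f = 0 ∧ u' * f = 0
  top : ∀ f ∈ pt R e' (2 * m), ∃ z : ℂ, f = z • w
  pd : ∀ k, ∀ f ∈ pt R e' k, f ≠ 0 → k ≤ 2 * m ∧ ∃ f' ∈ pt R e' (2 * m - k), f * f' = w
  dim : 3 ≤ finrank ℂ (pt R e' m)

end Pool.Agent.KT
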