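import Pool.Agent.KT.Dich

/-!
# The matching of the strict Calabi-Yau factors (helper28)
-/

set_option autoImplicit false

namespace Pool.Agent.KT

open Module

variable {E : Type*} [Ring E] [Algebra ℂ E]

/-- Counting the splittings whose first factor contains an eigenvector. -/
theorem unique_case {J : Type*} [Fintype J] {g g' : J → E} {gS c w : E} {μ : ℂ} (hμ : μ ≠ 0)
    (hw : w ≠ 0) (hadd : ∀ i, g i + g' i = c) (hsum : ∑ i, g i + gS = c) (hc : ad c w = μ • w)
    (hS : ad gS w = 0) (hcase : ∀ i, ad (g' i) w = 0 ∨ ad (g i) w = 0) :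
    ∃! i, ad (g' i) w = 0 := by
  classical
  have h1 : ∀ i, ad (g i) w = (if ad (g' i) w = 0 then (1 : ℂ) else 0) • (μ • w) := by
    intro i
    by_cases h : ad (g' i) w = 0
    · rw [if_pos h, one_smul, ← hc, ← hadd i, ad_add_left, h, add_zero]
    · rw [if_neg h, zero_smul]
      exact (hcase i).resolve_left h
  have h2 : ad (∑ i, g i) w = ∑ i, ad (g i) w := by
    simp only [ad_apply, Finset.sum_mul, Finset.mul_sum, Finset.sum_sub_distrib]
  have h3 : (∑ i, (if ad (g' i) w = 0 then (1 : ℂ) else 0)) • (μ • w) = μ • w := by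
    rw [Finset.sum_smul]
    calc ∑ i, (if ad (g' i) w = 0 then (1 : ℂ) else 0) • (μ • w) = ∑ i, ad (g i) w :=
          Finset.sum_congr rfl fun i _ => (h1 i).symm
      _ = ad (∑ i, g i) w + ad gS w := by rw [h2, hS, add_zero]
      _ = μ • w := by rw [← ad_add_left, hsum, hc]
  have hv : μ • w ≠ 0 := smul_ne_zero hμ hw
  have h4 : (∑ i, (if ad (g' i) w = 0 then (1 : ℂ) else 0)) = 1 := by
    have h5 : ((∑ i, (if ad (g' i) w = 0 then (1 : ℂ) else 0)) - 1) • (μ • w) = 0 := by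
      rw [sub_smul, h3, one_smul, sub_self]
    rcases smul_eq_zero.1 h5 with h6 | h6
    · exact sub_eq_zero.1 h6
    · exact absurd h6 hv
  rw [← Finset.sum_filter, Finset.sum_const, nsmul_eq_mul, mul_one] at h4
  have h5 : (Finset.univ.filter fun i => ad (g' i) w = 0).card = 1 := by exact_mod_cast h4
  obtain ⟨i, hi⟩ := Finset.card_eq_one.1 h5
  refine ⟨i, ?_, fun i' hi' => ?_⟩
  · have : i ∈ Finset.univ.filter fun i => ad (g' i) w = 0 := by
      rw [hi]
      exact Finset.mem_singleton_self i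
    exact (Finset.mem_filter.1 this).2
  · have : i' ∈ Finset.univ.filter fun i => ad (g' i) w = 0 :=
      Finset.mem_filter.2 ⟨Finset.mem_univ _, hi'⟩
    rw [hi] at this
    exact Finset.mem_singleton.1 this

/-- One half of the matching: every strict Calabi-Yau factor lies in exactly one factor. -/
theorem matching_half [FiniteDimensional ℂ E] {R : ℕ → Submodule ℂ E} {c : E} (hG : Grad R c)
    {J : Type*} [Fintype J] {g g' : J → E} {gS : E} {e e' w : E} {m : ℕ}
    (h : Split R c e e') (hC : CYData R e' m w) (hY : ∀ i, Split R c (g i) (g' i))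
    (sY : ∑ i, g i + gS = c) (hXY : ∀ i, g i * e = e * g i)
    (nX : ∀ k, ∀ f ∈ pt R e' k, ad gS f = 0) :
    (∃ i, ∀ k, ∀ f ∈ pt R e' k, ad (g' i) f = 0) ∧
      ∀ i i', ad (g' i) w = 0 → ad (g' i') w = 0 → i = i' := by
  have hc : ad c w = (-((2 * m : ℕ) : ℂ)) • w := hG.deg _ w hC.mem.1
  have hμ : (-((2 * m : ℕ) : ℂ)) ≠ 0 := by
    have := hC.three
    rw [neg_ne_zero, Nat.cast_ne_zero]
    omega
  have hd := fun i => dichotomy' hG h hC (hY i) (hXY i)
  have hu := unique_case hμ hC.ne (fun i => (hY i).add) sY hc (nX _ w hC.mem) (fun i => by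
    rcases hd i with h1 | h1
    · exact Or.inl (h1 _ w hC.mem)
    · exact Or.inr (h1 _ w hC.mem))
  refine ⟨?_, fun i i' h1 h2 => hu.unique h1 h2⟩
  obtain ⟨i, hi, -⟩ := hu
  refine ⟨i, ?_⟩
  rcases hd i with h1 | h1
  · exact h1
  · exfalso
    have h2 := h1 _ w hC.mem
    have h3 : ad c w = 0 := by
      rw [← (hY i).add, ad_add_left, h2, hi, add_zero]
    rw [h3] at hc
    exact smul_ne_zero hμ hC.ne hc.symm

/-- ROW K7a. The matching of the strict Calabi-Yau factors. -/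
theorem matching [FiniteDimensional ℂ E] {R : ℕ → Submodule ℂ E} {c : E} (hG : Grad R c)
    {J J' : Type*} [Fintype J] [Fintype J'] {e e' : J → E} {g g' : J' → E} {eS gS : E}
    {m : J → ℕ} {m' : J' → ℕ} {w : J → E} {w' : J' → E}
    (hX : ∀ j, Split R c (e j) (e' j)) (hY : ∀ i, Split R c (g i) (g' i))
    (sX : ∑ j, e j + eS = c) (sY : ∑ i, g i + gS = c)
    (cX : ∀ j, CYData R (e' j) (m j) (w j)) (cY : ∀ i, CYData R (g' i) (m' i) (w' i))
    (hXX : ∀ i j, e i * e j = e j * e i) (hYY : ∀ i j, g i * g j = g j * g i)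
    (hXY : ∀ i j, e j * g i = g i * e j)
    (nX : ∀ j k, ∀ f ∈ pt R (e' j) k, ad gS f = 0) (nY : ∀ i k, ∀ f ∈ pt R (g' i) k, ad eS f = 0) :
    ∃ π : J ≃ J', ∀ j k, pt R (e' j) k = pt R (g' (π j)) k := by
  choose π hπ using fun j => (matching_half hG (hX j) (cX j) hY sY (fun i => (hXY i j).symm) (nX j)).1
  choose ρ hρ using fun i => (matching_half hG (hY i) (cY i) hX sX (fun j => hXY i j) (nY i)).1
  have hAB : ∀ j k, pt R (e' j) k ≤ pt R (g' (π j)) k := fun j k f hf =>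
    mem_pt.2 ⟨hf.1, hπ j k f hf⟩
  have hBA : ∀ i k, pt R (g' i) k ≤ pt R (e' (ρ i)) k := fun i k f hf =>
    mem_pt.2 ⟨hf.1, hρ i k f hf⟩
  have h1 : ∀ j, ρ (π j) = j := fun j =>
    (matching_half hG (hX j) (cX j) hX sX (fun j' => hXX j' j)
      (fun k f hf => nY (π j) k f (hAB j k hf))).2 _ _
      (hBA _ _ (hAB _ _ (cX j).mem)).2 (cX j).mem.2
  have h2 : ∀ i, π (ρ i) = i := fun i =>
    (matching_half hG (hY i) (cY i) hY sY (fun i' => hYY i' i)
      (fun k f hf => nX (ρ i) k f (hBA i k hf))).2 _ _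
      (hAB _ _ (hBA _ _ (cY i).mem)).2 (cY i).mem.2
  refine ⟨⟨π, ρ, h1, h2⟩, fun j k => le_antisymm (hAB j k) ?_⟩
  have h3 := hBA (π j) k
  rw [h1 j] at h3
  exact h3

end Pool.Agent.KT
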