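import Pool.Agent.KT.Dec

/-!
# Matched factors have the same column operators
-/

set_option autoImplicit false

namespace Pool.Agent.KT

open Module

section swap

variable {E : Type*} [Ring E] [Algebra ℂ E] {R : ℕ → Submodule ℂ E} {c e e' g g' : E}

/-- exchanging the factors of a splitting -/
theorem Split.swap (hG : Grad R c) (h : Split R c e e') : Split R c e' e where
  add := by rw [add_comm, h.add]
  comm := h.comm.symm
  span k := by
    refine (h.span k).trans (iSup_le fun i => Submodule.span_le.2 ?_)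
    rintro _ ⟨a, ha, b, hb, rfl⟩
    have hi := i.2
    refine Submodule.mem_iSup_of_mem (⟨k - i, by omega⟩ : Fin (k + 1)) ?_
    rw [hG.comm _ _ a ha.1 b hb.1]
    refine Submodule.smul_mem _ _ (Submodule.subset_span ⟨b, hb, a, ?_, rfl⟩)
    change a ∈ pt R e' (k - (k - i))
    rw [show k - (k - (i : ℕ)) = i by omega]
    exact ha
  cross i j a ha b hb h0 := by
    have h1 : b * a = 0 := by rw [hG.comm _ _ b hb.1 a ha.1, h0, smul_zero]
    exact (h.cross j i b hb a ha h1).symm

/-- the complements of matched factors agree -/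
theorem second_le [FiniteDimensional ℂ E] (hG : Grad R c) (h : Split R c e e')
    (h' : Split R c g g') (H : Comm2 e e' g g') (hAB : ∀ k, pt R e' k = pt R g' k) (k : ℕ) :
    pt R e k ≤ pt R g k := by
  have h1 : pt R e k ≤ LinearMap.ker (ad g) := by
    refine h'.inv_le hG (k := k) inf_le_left (fun f hf => h'.pt_stable hG H.eg.symm hf)
      fun a ha f hf hfa => ?_
    rw [LinearMap.mem_ker]
    rcases Nat.eq_zero_or_pos a with rfl | h0
    · rw [mem_wt.1 hfa]
      simp
    · have h2 := refine_first hG (h.swap hG) h' H.swap ha hf hfa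
      have h3 : pt R e a ⊓ pt R g' a = ⊥ := by
        rw [eq_bot_iff]
        rintro x ⟨hx1, hx2⟩
        rw [SetLike.mem_coe, ← hAB a] at hx2
        have h4 := hG.deg a x hx1.1
        rw [← h.add, ad_add_left, (mem_pt.1 hx1).2, (mem_pt.1 hx2).2, add_zero] at h4
        rw [Submodule.mem_bot]
        rcases smul_eq_zero.1 h4.symm with h5 | h5
        · rw [neg_eq_zero, Nat.cast_eq_zero] at h5
          omega
        · exact h5
      rw [h3, Submodule.bot_mul, Submodule.mem_bot] at h2
      rw [h2, map_zero]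
  exact fun f hf => mem_pt.2 ⟨hf.1, h1 hf⟩

/-- the degrees for matched factors agree -/
theorem ad_eq [FiniteDimensional ℂ E] (hG : Grad R c) (h : Split R c e e')
    (h' : Split R c g g') (H : Comm2 e e' g g') (hAB : ∀ k, pt R e' k = pt R g' k) {k : ℕ} {f : E}
    (hf : f ∈ R k) : ad e f = ad g f := by
  have h1 : R k ≤ LinearMap.ker (ad e - ad g) := by
    refine (h.span k).trans (iSup_le fun i => Submodule.span_le.2 ?_)
    rintro _ ⟨a, ha, b, hb, rfl⟩
    change (ad e - ad g) (a * b) = 0
    rw [LinearMap.sub_apply, ad_mul, ad_mul, (mem_pt.1 hb).2,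
      (mem_pt.1 (second_le hG h h' H hAB _ hb)).2, h.ad_first hG ha,
      h'.ad_first hG (by rw [← hAB]; exact ha), sub_self]
  have h2 := h1 hf
  rwa [LinearMap.mem_ker, LinearMap.sub_apply, sub_eq_zero] at h2

/-- matched strict Calabi-Yau factors have the same dimension -/
theorem dim_eq {w w' : E} {m m' : ℕ} (hC : CYData R e' m w) (hC' : CYData R g' m' w')
    (hAB : ∀ k, pt R e' k = pt R g' k) : m = m' := by
  have h1 := (hC.pd _ w' (by rw [hAB]; exact hC'.mem) hC'.ne).1
  have h2 := (hC'.pd _ w (by rw [← hAB]; exact hC.mem) hC.ne).1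
  omega

end swap

/-- The column operators of matched factors agree. -/
theorem oper_eq {V : Type*} [AddCommGroup V] [Module ℂ V] [FiniteDimensional ℂ V]
    {R : ℕ → Submodule ℂ (Module.End ℂ V)} {c e e' g g' : Module.End ℂ V} (hG : Grad R c)
    (h : Split R c e e') (h' : Split R c g g') (H : Comm2 e e' g g')
    (hAB : ∀ k, pt R e' k = pt R g' k) {s : V} (hs : e s = g s)
    (hV : ∀ v : V, v ∈ ⨆ k, (R k).map (LinearMap.applyₗ s)) : e = g := by
  have h1 : (⨆ k, (R k).map (LinearMap.applyₗ s)) ≤ LinearMap.ker (e - g) := by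
    refine iSup_le fun k => ?_
    rintro _ ⟨f, hf, rfl⟩
    rw [LinearMap.mem_ker, LinearMap.sub_apply, sub_eq_zero]
    have h2 := LinearMap.congr_fun (ad_eq hG h h' H hAB hf) s
    rw [ad_apply, ad_apply, LinearMap.sub_apply, LinearMap.sub_apply, Module.End.mul_apply,
      Module.End.mul_apply, Module.End.mul_apply, Module.End.mul_apply, hs] at h2
    exact sub_left_injective h2
  ext v
  have h2 := h1 (hV v)
  rwa [LinearMap.mem_ker, LinearMap.sub_apply, sub_eq_zero] at h2

end Pool.Agent.KT
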