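import Pool.Agent.KT.Trans
import Pool.Agent.KT.Match
import Pool.Agent.KT.Oper

/-!
# Derived equivalences respect the strict Calabi-Yau factors
-/

set_option autoImplicit false

namespace Pool.Agent.Hodge81

open Complex Module
open Pool.Agent.KT
open IsHochschildIso

universe u

theorem opEquiv_symm_apply {A B : Type*} [Ring A] [Algebra ℂ A] [Ring B] [Algebra ℂ B]
    (phi : A ≃ₗ[ℂ] B) (f : Module.End ℂ B) :
    opEquiv phi (opEquiv phi.symm f) = f := by
  ext b
  rw [opEquiv_apply, opEquiv_apply, LinearEquiv.symm_symm, LinearEquiv.apply_symm_apply,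
    LinearEquiv.apply_symm_apply]

theorem opEquiv_symm_apply' {A B : Type*} [Ring A] [Algebra ℂ A] [Ring B] [Algebra ℂ B]
    (phi : A ≃ₗ[ℂ] B) (f : Module.End ℂ A) :
    opEquiv phi.symm (opEquiv phi f) = f := by
  ext b
  rw [opEquiv_apply, opEquiv_apply, LinearEquiv.symm_symm, LinearEquiv.symm_apply_apply,
    LinearEquiv.symm_apply_apply]

/-- the cohomology is generated by a generator of `H^{n,0}` over the polyvector fields -/
theorem PolyvectorAction.TrivialCanonical.gen_all {n : ℕ} {A : Type*} [Ring A] [Algebra ℂ A]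
    {X : HodgeRing n A} {P : PolyvectorAction X} (hP : P.TrivialCanonical) :
    ∃ s ∈ X.H n 0, ∀ v : A, v ∈ ⨆ k, (P.total k).map (LinearMap.applyₗ s) := by
  obtain ⟨s, hs, -, h⟩ := hP.exists_gen
  exact ⟨s, hs, fun v => (iSup₂_le fun k _ => le_iSup (fun k => (P.total k).map
    (LinearMap.applyₗ s)) k : (⨆ k ∈ Finset.range (2 * n + 1), (P.total k).map
    (LinearMap.applyₗ s)) ≤ _) (h v)⟩

/-- Let `X = S × Z`, `Y = S' × Z'` with `S`, `S'` symplectic and column operators `e j`, `g i` of
strict Calabi-Yau factors of `Z`, `Z'`, which add up to the column operators of `Z`, `Z'`. Then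
`phi` matches the factors, with their dimensions and column operators. -/
theorem factors_match {n r r' b b' : ℕ} {A B C D C' D' : Type u}
    [Ring A] [Algebra ℂ A] [FiniteDimensional ℂ A] [Ring B] [Algebra ℂ B] [FiniteDimensional ℂ B]
    [Ring C] [Algebra ℂ C] [FiniteDimensional ℂ C] [Ring D] [Algebra ℂ D]
    [Ring C'] [Algebra ℂ C'] [FiniteDimensional ℂ C'] [Ring D'] [Algebra ℂ D']
    {X : HodgeRing n A} {Y : HodgeRing n B} {P : PolyvectorAction X} {Q : PolyvectorAction Y}
    {phi : A ≃ₗ[ℂ] B} (h : IsHochschildIso P Q phi) (hM : IsMukaiIsometry X Y phi)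
    (hP : P.TrivialCanonical)
    {S : HodgeRing (2 * r) C} {Z : HodgeRing b D} {S' : HodgeRing (2 * r') C'}
    {Z' : HodgeRing b' D'} (U : Product X S Z) (U' : Product Y S' Z')
    {PS : PolyvectorAction S} {PZ : PolyvectorAction Z} {PS' : PolyvectorAction S'}
    {PZ' : PolyvectorAction Z'} (K : U.Kuenneth P PS PZ) (K' : U'.Kuenneth Q PS' PZ')
    (hU : U.Real) (hU' : U'.Real) (hS : SymplecticP PS) (hS' : SymplecticP PS')
    {J J' : Type*} [Fintype J] [Fintype J'] {e : J → Module.End ℂ A} {m : J → ℕ}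
    (F : ∀ j, FacX P (e j) (m j)) (sum : ∑ j, e j = U.cr)
    {g : J' → Module.End ℂ B} {m' : J' → ℕ} (G : ∀ i, FacX Q (g i) (m' i))
    (sum' : ∑ i, g i = U'.cr) :
    ∃ π : J ≃ J', ∀ j, m j = m' (π j) ∧ opEquiv phi (e j) = g (π j) := by
  have hMs := hM.symm
  have hcop : opEquiv phi.symm Y.cop = X.cop := opEquiv_cop hMs
  -- the factors of `Y` as factors of `X`
  have G' : ∀ i, Fac P (opEquiv phi.symm (g i)) (m' i) := fun i => (G i).toFac.map h.symm hMs
  choose w hw using fun j => (F j).data
  choose w' hw' using fun i => (G' i).data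
  have hR := opEquiv_mem h.symm
  obtain ⟨π, hπ⟩ := matching (R := P.total) (c := X.cop) P.grad
    (e := e) (e' := fun j => X.cop - e j) (g := fun i => opEquiv phi.symm (g i))
    (g' := fun i => X.cop - opEquiv phi.symm (g i)) (eS := U.cl)
    (gS := opEquiv phi.symm U'.cl) (m := m) (m' := m') (w := w) (w' := w')
    (fun j => (F j).split) (fun i => (G' i).split)
    (by rw [sum, add_comm, U.cl_add_cr])
    (by rw [← map_sum, sum', ← map_add, add_comm, U'.cl_add_cr, hcop])
    hw hw'
    (fun i j => (F i).no_mixing hP (F j).normal_self)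
    (fun i j => (G' i).no_mixing hP (G' j).normal_self)
    (fun i j => (F j).no_mixing hP (G' i).normal_self)
    (fun j k f hf => (F j).symp h U' K' hU' hS' hf)
    (fun i k f hf => by
      -- the symplectic factor of `X`, seen from `Y`
      have h1 : opEquiv phi f ∈ pt Q.total (Y.cop - g i) k := by
        have h2 : X.cop - opEquiv phi.symm (g i) = opEquiv phi.symm (Y.cop - g i) := by
          rw [map_sub, hcop]
        rw [h2] at hf
        rw [pt_map (opEquiv phi.symm) hR, opEquiv_symm_apply']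
        exact hf
      have h2 := (G i).symp h.symm U K hU hS h1
      have h3 := congrArg (opEquiv phi.symm) h2
      rw [map_ad, map_zero, opEquiv_symm_apply'] at h3
      have h4 : opEquiv phi.symm (opEquiv phi.symm.symm U.cl) = U.cl :=
        opEquiv_symm_apply' phi U.cl
      rwa [h4] at h3)
  refine ⟨π, fun j => ?_⟩
  have hd : m j = m' (π j) := dim_eq (hw j) (hw' (π j)) (hπ j)
  refine ⟨hd, ?_⟩
  obtain ⟨s, hs, hV⟩ := hP.gen_all
  have H : Comm2 (e j) (X.cop - e j) (opEquiv phi.symm (g (π j)))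
      (X.cop - opEquiv phi.symm (g (π j))) :=
    comm2_of (F j).split.add (F j).split.comm (G' (π j)).split.add (G' (π j)).split.comm
      ((F j).no_mixing hP (G' (π j)).normal_self).symm
  have h1 : e j = opEquiv phi.symm (g (π j)) := by
    refine oper_eq P.grad (F j).split (G' (π j)).split H (hπ j) (s := s) ?_ hV
    rw [(F j).gen s hs, (G' (π j)).gen s hs, hd]
  rw [h1, opEquiv_symm_apply]

end Pool.Agent.Hodge81
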