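import Pool.Agent.KT.Fac
import Pool.Agent.Helper94.CY.Main

/-!
# A strict Calabi-Yau variety is a factor of itself
-/

set_option autoImplicit false

namespace Pool.Agent.Hodge81

open Complex Module
open Pool.Agent.KT

section general

variable {n : ℕ} {A : Type*} [Ring A] [Algebra ℂ A] {X : HodgeRing n A} {P : PolyvectorAction X}

theorem ad_zero_left {E : Type*} [Ring E] [Algebra ℂ E] (f : E) : ad (0 : E) f = 0 := by
  rw [ad_apply, zero_mul, mul_zero, sub_zero]

theorem pt_zero (k : ℕ) : pt P.total (0 : Module.End ℂ A) k = P.total k := by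
  ext f
  rw [mem_pt, ad_zero_left]
  simp

theorem pt_cop_pos {k : ℕ} (hk : 0 < k) {f : Module.End ℂ A} (hf : f ∈ pt P.total X.cop k) :
    f = 0 := by
  have h1 := X.ad_cop P hf.1
  rw [(mem_pt.1 hf).2] at h1
  rcases smul_eq_zero.1 h1.symm with h2 | h2
  · rw [neg_eq_zero, Nat.cast_eq_zero] at h2
    omega
  · exact h2

/-- the trivial splitting -/
theorem self_split : Split P.total X.cop X.cop 0 where
  add := add_zero _
  comm := by rw [mul_zero, zero_mul]
  span k := by
    intro f hf
    refine Submodule.mem_iSup_of_mem (⟨k, Nat.lt_succ_self k⟩ : Fin (k + 1))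
      (Submodule.subset_span ⟨f, by rw [pt_zero]; exact hf, 1, ?_, (mul_one f).symm⟩)
    change (1 : Module.End ℂ A) ∈ pt P.total X.cop (k - k)
    rw [Nat.sub_self]
    exact mem_pt.2 ⟨P.one_total, by rw [ad_apply, mul_one, one_mul, sub_self]⟩
  cross i j a _ b hb h0 := by
    rcases Nat.eq_zero_or_pos j with rfl | hj
    · obtain ⟨z, rfl⟩ := P.total_zero_scalar hb.1
      rw [mul_smul_comm, mul_one, smul_eq_zero] at h0
      rcases h0 with h0 | h0
      · right
        rw [h0, zero_smul]
      · exact Or.inl h0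
    · exact Or.inr (pt_cop_pos hj hb)

/-- powers of the ample class do not vanish -/
theorem omega_pow_ne (X : HodgeRing n A) {j : ℕ} (hj : j ≤ n) : X.omega ^ j ≠ 0 := by
  intro h0
  have h1 : (1 : A) = 0 := by
    refine X.lefschetz (p := 0) (q := 0) X.one_mem (Nat.zero_le n) ?_
    rw [mul_one, show n - (0 + 0) = (n - j) + j by omega, pow_add, h0, mul_zero]
  have := X.nontrivial
  exact one_ne_zero h1

end general

section self

variable {m : ℕ} {A : Type*} [Ring A] [Algebra ℂ A] [FiniteDimensional ℂ A] {X : HodgeRing m A}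
  {P : PolyvectorAction X}

/-- the data of a strict Calabi-Yau variety -/
theorem self_data (h3 : 3 ≤ m) (hc : P.TrivialCanonical)
    (hforms : ∀ k, 0 < k → k < m → X.h 0 k = 0) : ∃ w, CYData P.total (0 : Module.End ℂ A) m w := by
  have hT : ∀ k, 0 < k → k < m → P.T 0 k = ⊥ := fun k h1 h2 => hc.T_zero_eq (hforms k h1 h2)
  obtain ⟨s, hs, hsat⟩ := id hc
  have hinj : ∀ k, ∀ f ∈ P.total k, f s = 0 → f = 0 := fun k f hf h0 =>
    PolyvectorAction.total_eq_zero hs (fun a b hb => (hsat a b hb).1) hf h0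
  have hs0 : s ≠ 0 := by
    intro h0
    have h1 := hinj 0 1 P.one_total (by rw [h0, map_zero])
    have := X.nontrivial
    have h2 := LinearMap.congr_fun h1 1
    rw [Module.End.one_apply, LinearMap.zero_apply] at h2
    exact one_ne_zero h2
  have hcs0 : X.conj s ≠ 0 := fun h0 => hs0 (by rw [← X.conj_conj s, h0, map_zero])
  have hcs : X.conj s ∈ X.H 0 m := X.conj_mem _ _ _ hs
  -- `H^{m,0}` and `H^{0,m}` are lines
  have hline : ∀ x ∈ X.H m 0, ∃ z : ℂ, x = z • s := by
    intro x hx
    obtain ⟨f, hf, rfl⟩ := (hsat 0 0 (Nat.zero_le m)).2 x hx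
    obtain ⟨z, rfl⟩ := P.T_zero_zero hf
    exact ⟨z, rfl⟩
  have hline' : ∀ x ∈ X.H 0 m, ∃ z : ℂ, x = z • X.conj s := by
    intro x hx
    obtain ⟨z, hz⟩ := hline _ (X.conj_mem _ _ _ hx)
    refine ⟨(starRingEnd ℂ) z, ?_⟩
    rw [← X.conj_conj x, hz, X.conj_smul]
  have hcol : ∀ x ∈ X.column (-(m : ℤ)), x ∈ X.H 0 m := by
    intro x hx
    refine X.column_induct (P := fun v => v ∈ X.H 0 m) (fun p q hpq v hv => ?_)
      (Submodule.zero_mem _) (fun a b ha hb => Submodule.add_mem _ ha hb) hx
    by_cases hq : m < q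
    · rw [X.bounded p q (Or.inr hq), Submodule.mem_bot] at hv
      rw [hv]
      exact Submodule.zero_mem _
    · obtain ⟨rfl, rfl⟩ : p = 0 ∧ q = m := by omega
      exact hv
  -- the pair
  obtain ⟨u, hu, hus⟩ := (hsat 0 m le_rfl).2 1 (by rw [Nat.sub_self]; exact X.one_mem)
  have hut : u ∈ P.total m := P.mem_total (by omega) hu
  set u' : Module.End ℂ A := LinearMap.mulLeft ℂ (X.conj s) with hu'
  have hu'T : u' ∈ P.T m 0 := (P.functions m _).2 ⟨_, hcs, rfl⟩
  have hu't : u' ∈ P.total m := P.mem_total (by omega) hu'T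
  have hws : (u' * u) s = X.conj s := by
    rw [Module.End.mul_apply, hus, hu', LinearMap.mulLeft_apply, mul_one]
  have hw0 : u' * u ≠ 0 := fun h0 => hcs0 (by rw [← hws, h0, LinearMap.zero_apply])
  have hwt : u' * u ∈ P.total (2 * m) := by
    rw [two_mul]
    exact P.total_mul hu't hut
  have htop : ∀ f ∈ P.total (2 * m), ∃ z : ℂ, f = z • (u' * u) := by
    intro f hf
    have h1 := P.total_column hf (X.mem_column (i := (m : ℤ)) (by simp) hs)
    have h2 : (m : ℤ) - ((2 * m : ℕ) : ℤ) = -(m : ℤ) := by push_cast; ring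
    rw [h2] at h1
    obtain ⟨z, hz⟩ := hline' _ (hcol _ h1)
    refine ⟨z, ?_⟩
    rw [← sub_eq_zero]
    refine hinj (2 * m) _ (Submodule.sub_mem _ hf (Submodule.smul_mem _ _ hwt)) ?_
    rw [LinearMap.sub_apply, LinearMap.smul_apply, hws, hz, sub_self]
  -- elements of intermediate degree vanish on `1` and contain no pure bivectors
  have hone : ∀ k, 0 < k → k < m → ∀ f ∈ P.total k, f 1 = 0 := by
    intro k h1 h2 f hf
    refine P.total_induct (Q := fun f => f 1 = 0) (fun a b hab f' hf' => ?_)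
      (by rw [LinearMap.zero_apply]) (fun x y hx hy => by rw [LinearMap.add_apply, hx, hy,
        add_zero]) hf
    rcases Nat.eq_zero_or_pos b with rfl | hb
    · obtain ⟨x, hx, rfl⟩ := (P.functions a f').1 hf'
      rw [Submodule.finrank_eq_zero.1 (hforms a (by omega) (by omega)), Submodule.mem_bot] at hx
      rw [hx, LinearMap.mulLeft_apply, zero_mul]
    · exact P.vanish a b 0 0 f' 1 hf' hb X.one_mem
  have hkill1 : ∀ k, 0 < k → k < m → ∀ f ∈ P.total k, u * f = 0 := by
    intro k h1 h2 f hf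
    refine hinj (m + k) _ (P.total_mul hut hf) ?_
    rw [P.total_comm hut hf, LinearMap.smul_apply, Module.End.mul_apply, hus,
      hone k h1 h2 f hf, smul_zero]
  have hkill2 : ∀ k, 0 < k → k < m → ∀ f ∈ P.total k, u' * f = 0 := by
    intro k h1 h2 f hf
    refine P.total_induct (Q := fun f => u' * f = 0) (fun a b hab f' hf' => ?_)
      (mul_zero _) (fun x y hx hy => by rw [mul_add, hx, hy, add_zero]) hf
    rcases Nat.eq_zero_or_pos a with rfl | ha
    · rw [hT b (by omega) (by omega), Submodule.mem_bot] at hf'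
      rw [hf', mul_zero]
    · refine hinj (m + k) _ (P.total_mul hu't (P.mem_total hab hf')) ?_
      have h3 := P.degree a b (m - b) 0 f' s hf' (by rw [Nat.sub_add_cancel (by omega)]; exact hs)
      have h4 := X.mul_mem _ _ _ _ _ _ hcs h3
      rw [X.bounded _ _ (Or.inr (by omega)), Submodule.mem_bot] at h4
      exact h4
  -- duality
  have hpd : ∀ k, ∀ f ∈ P.total k, f ≠ 0 → k ≤ 2 * m ∧
      ∃ f' ∈ P.total (2 * m - k), f * f' = u' * u := by
    intro k f hf hf0
    have hfs : f s ≠ 0 := fun h0 => hf0 (hinj k f hf h0)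
    have hk : k ≤ 2 * m := by
      by_contra hcon
      apply hfs
      have h1 := P.total_column hf (X.mem_column (i := (m : ℤ)) (by simp) hs)
      rw [X.column_far (by omega), Submodule.mem_bot] at h1
      exact h1
    refine ⟨hk, ?_⟩
    obtain ⟨g, hg, hfg⟩ := P.exists_sum hf
    obtain ⟨b, hb, hb0⟩ : ∃ b ∈ Finset.range (k + 1), g b ≠ 0 := by
      by_contra h
      push Not at h
      exact hf0 (by rw [hfg]; exact Finset.sum_eq_zero h)
    have hbk : b ≤ k := by rw [Finset.mem_range] at hb; omega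
    have hbm : b ≤ m := by
      by_contra hcon
      exact hb0 (P.T_eq_zero (by omega) (hg b hb))
    have hbs : g b s ≠ 0 := fun h => hb0 (hinj k _ (P.mem_total (by omega) (hg b hb)) h)
    have hbH : g b s ∈ X.H (m - b) (k - b) := by
      have h3 := P.degree (k - b) b (m - b) 0 (g b) s (hg b hb)
        (by rw [Nat.sub_add_cancel hbm]; exact hs)
      rwa [zero_add] at h3
    have hkb : k - b ≤ m := by
      by_contra hcon
      rw [X.bounded _ _ (Or.inr (by omega)), Submodule.mem_bot] at hbH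
      exact hbs hbH
    obtain ⟨y, hy, hy0⟩ := X.exists_int_ne (Nat.sub_le m b) hkb hbH hbs
    rw [Nat.sub_sub_self hbm] at hy
    -- write `y` as a value
    obtain ⟨q, hq, rfl⟩ := (hsat (m - (k - b)) (m - b) (Nat.sub_le _ _)).2 y
      (by rw [Nat.sub_sub_self hbm]; exact hy)
    have hqt : q ∈ P.total (2 * m - k) := P.mem_total (by omega) hq
    have hval : (f * q) s = g b (q s) := by
      rw [Module.End.mul_apply, hfg, LinearMap.sum_apply]
      refine Finset.sum_eq_single b (fun i hi hib => ?_) (fun h => absurd hb h)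
      rcases Nat.lt_or_ge b i with h | h
      · exact P.vanish _ _ _ _ (g i) _ (hg i hi) h hy
      · have h4 := P.degree (k - i) i (b - i) _ (g i) _ (hg i hi)
          (by rw [Nat.sub_add_cancel h]; exact hy)
        rw [Finset.mem_range] at hi
        rw [X.bounded _ _ (Or.inr (by omega)), Submodule.mem_bot] at h4
        exact h4
    have hne : f * q ≠ 0 := by
      intro h0
      rw [h0, LinearMap.zero_apply] at hval
      apply hy0
      have h4 := P.adjoint (k - b) b m 0 (g b) s (q s) (hg b hb) hs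
      rw [← hval, mul_zero, map_zero, mul_zero] at h4
      exact h4
    obtain ⟨z, hz⟩ := htop (f * q) (by
      have := P.total_mul hf hqt
      rwa [show k + (2 * m - k) = 2 * m by omega] at this)
    have hz0 : z ≠ 0 := fun h0 => hne (by rw [hz, h0, zero_smul])
    refine ⟨z⁻¹ • q, Submodule.smul_mem _ _ hqt, ?_⟩
    rw [mul_smul_comm, hz, smul_smul, inv_mul_cancel₀ hz0, one_smul]
  -- the dimension
  have hdim : 3 ≤ finrank ℂ (P.total m) := by
    have h1 : X.column 0 ≤ (P.total m).map (LinearMap.applyₗ s) := by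
      intro x hx
      obtain ⟨f, hf, e⟩ := PolyvectorAction.total_surj (P := P)
        (fun a b hb => (hsat a b hb).2) (k := m) (w := x) (by rw [sub_self]; exact hx)
      exact ⟨f, hf, e⟩
    have h2 : LinearIndependent ℂ (fun j : Fin 3 => X.omega ^ (j : ℕ)) := by
      have hind := X.internal.submodule_iSupIndep
      have h5 := hind.comp (f := fun j : Fin 3 => ((j : ℕ), (j : ℕ))) (fun i j hij => by
        simp only [Prod.mk.injEq] at hij
        exact Fin.ext hij.1)
      refine h5.linearIndependent _ (fun j => ?_) fun j => omega_pow_ne X (by have := j.2; omega)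
      have h6 := X.pow_mem X.omega_mem X.one_mem (j : ℕ)
      simpa using h6
    have h3 : Submodule.span ℂ (Set.range (fun j : Fin 3 => X.omega ^ (j : ℕ))) ≤
        X.column 0 := by
      rw [Submodule.span_le]
      rintro _ ⟨j, rfl⟩
      have h6 := X.pow_mem X.omega_mem X.one_mem (j : ℕ)
      rw [mul_one, zero_add] at h6
      exact X.mem_column (by simp) h6
    have h4 := finrank_span_eq_card h2
    rw [Fintype.card_fin] at h4
    have h5 := Submodule.finrank_mono h3
    have h6 := Submodule.finrank_mono h1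
    have h7 : finrank ℂ ((P.total m).map (LinearMap.applyₗ s)) ≤ finrank ℂ (P.total m) :=
      Submodule.finrank_map_le _ _
    omega
  refine ⟨u' * u, ⟨h3, hw0, ?_, ⟨u', ?_, u, ?_, rfl, fun k h1 h2 f hf => ?_⟩, fun f hf => ?_,
    fun k f hf h0 => ?_, ?_⟩⟩
  · rw [pt_zero]; exact hwt
  · rw [pt_zero]; exact hu't
  · rw [pt_zero]; exact hut
  · rw [pt_zero] at hf
    exact ⟨hkill2 k h1 h2 f hf, hkill1 k h1 h2 f hf⟩
  · rw [pt_zero] at hf
    exact htop f hf
  · rw [pt_zero] at hf
    obtain ⟨h1, f', hf', h2⟩ := hpd k f hf h0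
    exact ⟨h1, f', by rw [pt_zero]; exact hf', h2⟩
  · rw [pt_zero]; exact hdim

/-- a strict Calabi-Yau variety is a factor of itself -/
theorem self_facX (h3 : 3 ≤ m) (hc : P.TrivialCanonical)
    (hforms : ∀ k, 0 < k → k < m → X.h 0 k = 0) : FacX P X.cop m := by
  have e0 : X.cop - X.cop = 0 := sub_self _
  refine ⟨⟨?_, X.bar_cop, fun s hs => ?_, ?_, ?_, fun i g hg k a ha => ?_⟩, fun f hf => ?_⟩
  · rw [e0]
    exact self_split
  · rw [X.cop_of_mem hs]
    simp
  · rw [e0]
    exact self_data h3 hc hforms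
  · rw [e0, pt_zero]
    exact hc.total_one (hforms 1 (by omega) (by omega))
  · rcases Nat.eq_zero_or_pos i with rfl | hi
    · obtain ⟨z, rfl⟩ := P.total_zero_scalar hg.1
      rw [X.bar_smul, X.bar_one, zero_mul, pow_zero, one_smul, smul_mul_assoc, one_mul,
        mul_smul_comm, mul_one]
    · rw [pt_cop_pos hi hg, X.bar_zero, zero_mul, mul_zero, smul_zero]
  · rw [e0, pt_zero] at hf
    have h2 : X.h 0 2 = 0 := hforms 2 (by omega) (by omega)
    have hT02 : P.T 0 2 = ⊥ := hc.T_zero_eq h2
    have hT20 : ∀ f ∈ P.T 2 0, f = 0 := fun f hf => by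
      obtain ⟨x, hx, rfl⟩ := (P.functions 2 f).1 hf
      rw [Submodule.finrank_eq_zero.1 h2, Submodule.mem_bot] at hx
      rw [hx]
      ext v
      simp
    refine P.total_induct (Q := fun f => f 1 = 0 ∧ ∀ z ∈ X.H 1 1, ∀ v, f (z * v) = z * f v)
      (fun a b hab f hf => ?_) ⟨by rw [LinearMap.zero_apply], fun z _ v => by
        rw [LinearMap.zero_apply, LinearMap.zero_apply, mul_zero]⟩
      (fun x y hx hy => ⟨by rw [LinearMap.add_apply, hx.1, hy.1, add_zero], fun z hz v => by
        rw [LinearMap.add_apply, hx.2 z hz, hy.2 z hz, LinearMap.add_apply, mul_add]⟩) hf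
    obtain ⟨rfl, rfl⟩ | ⟨rfl, rfl⟩ | ⟨rfl, rfl⟩ :
        (a = 0 ∧ b = 2) ∨ (a = 1 ∧ b = 1) ∨ (a = 2 ∧ b = 0) := by omega
    · rw [hT02, Submodule.mem_bot] at hf
      rw [hf]
      exact ⟨by rw [LinearMap.zero_apply], fun z _ v => by
        rw [LinearMap.zero_apply, LinearMap.zero_apply, mul_zero]⟩
    · refine ⟨P.vanish 1 1 0 0 f 1 hf (by norm_num) X.one_mem, fun z hz v => ?_⟩
      have h4 := hT20 _ (P.contract 1 0 f z hf hz)
      have h5 := LinearMap.congr_fun h4 v
      rw [LinearMap.sub_apply, Module.End.mul_apply, Module.End.mul_apply,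
        LinearMap.mulLeft_apply, LinearMap.mulLeft_apply, LinearMap.zero_apply, sub_eq_zero] at h5
      exact h5
    · rw [hT20 f hf]
      exact ⟨by rw [LinearMap.zero_apply], fun z _ v => by
        rw [LinearMap.zero_apply, LinearMap.zero_apply, mul_zero]⟩

end self

end Pool.Agent.Hodge81
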