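import Pool.Agent.KT.Geo

/-!
# A product of varieties with trivial canonical bundle has trivial canonical bundle
-/

set_option autoImplicit false

namespace Pool.Agent.Hodge81

open Complex Module
open Pool.Agent.KT

namespace Product

variable {n a b : ℕ} {A C D : Type*} [Ring A] [Algebra ℂ A] [Ring C] [Algebra ℂ C]
  [Ring D] [Algebra ℂ D] {X : HodgeRing n A} {W : HodgeRing a C} {Z : HodgeRing b D}

/-- induction over the products of homogeneous classes -/
theorem induct_mul (U : Product X W Z) {Q : A → Prop}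
    (h : ∀ p q w p' q' z, w ∈ W.H p q → z ∈ Z.H p' q' → Q (U.fst w * U.snd z))
    (h0 : Q 0) (hadd : ∀ u v, Q u → Q v → Q (u + v)) (u : A) : Q u := by
  obtain ⟨t, rfl⟩ := U.ku.surjective u
  induction t using TensorProduct.induction_on with
  | zero => rw [map_zero]; exact h0
  | add x y hx hy => rw [map_add]; exact hadd _ _ hx hy
  | tmul w z =>
    rw [ku_tmul]
    refine W.induct (P := fun w => Q (U.fst w * U.snd z)) (fun p q w hw => ?_)
      (by rw [map_zero, zero_mul]; exact h0)
      (fun x y hx hy => by rw [map_add, add_mul]; exact hadd _ _ hx hy) w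
    refine Z.induct (P := fun z => Q (U.fst w * U.snd z)) (fun p' q' z hz => h _ _ _ _ _ _ hw hz)
      (by rw [map_zero, mul_zero]; exact h0)
      (fun x y hx hy => by rw [map_add, mul_add]; exact hadd _ _ hx hy) z

/-- The Kuenneth product of two varieties with trivial canonical bundles has a trivial canonical
bundle. -/
theorem Kuenneth.trivialCanonical {U : Product X W Z} {P : PolyvectorAction X}
    {PW : PolyvectorAction W} {PZ : PolyvectorAction Z} (K : U.Kuenneth P PW PZ)
    (hW : PW.TrivialCanonical) (hZ : PZ.TrivialCanonical) : P.TrivialCanonical := by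
  obtain ⟨vW, hvW, hW⟩ := hW
  obtain ⟨vZ, hvZ, hZ⟩ := hZ
  have hdim := U.dim
  have hv : U.fst vW * U.snd vZ ∈ X.H n 0 := by
    have := X.mul_mem _ _ _ _ _ _ (U.fst_mem _ _ _ hvW) (U.snd_mem _ _ _ hvZ)
    rwa [hdim] at this
  -- surjectivity
  have hsurj : ∀ p q, p ≤ n → ∀ u ∈ X.H p q, ∃ f ∈ P.T q (n - p), f (U.fst vW * U.snd vZ) = u := by
    intro p q hp u hu
    have key : ∀ u, X.proj p q u ∈
        (P.T q (n - p)).map (LinearMap.applyₗ (U.fst vW * U.snd vZ)) := by
      intro u
      refine U.induct_mul (Q := fun u => X.proj p q u ∈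
        (P.T q (n - p)).map (LinearMap.applyₗ (U.fst vW * U.snd vZ)))
        (fun p1 q1 w p2 q2 z hw hz => ?_) (by rw [map_zero]; exact Submodule.zero_mem _)
        (fun x y hx hy => by rw [map_add]; exact Submodule.add_mem _ hx hy) u
      rw [X.proj_of_mem p q (X.mul_mem _ _ _ _ _ _ (U.fst_mem _ _ _ hw) (U.snd_mem _ _ _ hz))]
      split_ifs with hpq
      swap
      · exact Submodule.zero_mem _
      simp only [Prod.mk.injEq] at hpq
      rcases Nat.lt_or_ge a p1 with h1 | h1
      · rw [W.bounded _ _ (Or.inl h1), Submodule.mem_bot] at hw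
        rw [hw, map_zero, zero_mul]
        exact Submodule.zero_mem _
      rcases Nat.lt_or_ge b p2 with h2 | h2
      · rw [Z.bounded _ _ (Or.inl h2), Submodule.mem_bot] at hz
        rw [hz, map_zero, mul_zero]
        exact Submodule.zero_mem _
      obtain ⟨f, hf, hfw⟩ := (hW q1 (a - p1) (Nat.sub_le _ _)).2 w (by
        rw [Nat.sub_sub_self h1]
        exact hw)
      obtain ⟨g, hg, hgz⟩ := (hZ q2 (b - p2) (Nat.sub_le _ _)).2 z (by
        rw [Nat.sub_sub_self h2]
        exact hz)
      have hmem : U.bx (q2 + (b - p2)) f g ∈ P.T q (n - p) := by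
        rw [K.span]
        exact Submodule.subset_span ⟨q1, a - p1, q2, b - p2, f, g, by omega, by omega, hf, hg,
          U.isBox_bx _ f g⟩
      refine ⟨((-1 : ℂ) ^ ((q2 + (b - p2)) * (a + 0))) • U.bx (q2 + (b - p2)) f g,
        Submodule.smul_mem _ _ hmem, ?_⟩
      change (((-1 : ℂ) ^ ((q2 + (b - p2)) * (a + 0))) • U.bx (q2 + (b - p2)) f g)
        (U.fst vW * U.snd vZ) = _
      rw [LinearMap.smul_apply, U.isBox_bx (q2 + (b - p2)) f g _ _ vW vZ hvW, hfw, hgz, smul_smul,
        ← pow_add, ← two_mul, pow_mul]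
      norm_num
    have h1 := key u
    rw [X.proj_of_mem p q hu, if_pos rfl] at h1
    obtain ⟨f, hf, hfu⟩ := h1
    exact ⟨f, hf, hfu⟩
  refine ⟨U.fst vW * U.snd vZ, hv, fun i j hj => ⟨fun f hf h0 => ?_, fun w hw => ?_⟩⟩
  · refine PolyvectorAction.ext_H X fun p q u hu => ?_
    rw [LinearMap.zero_apply]
    rcases Nat.lt_or_ge n p with h1 | h1
    · rw [X.bounded _ _ (Or.inl h1), Submodule.mem_bot] at hu
      rw [hu, map_zero]
    · obtain ⟨g, hg, rfl⟩ := hsurj p q h1 u hu
      rw [← Module.End.mul_apply, P.comm _ _ _ _ f g hf hg, LinearMap.smul_apply,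
        Module.End.mul_apply, h0, map_zero, smul_zero]
  · obtain ⟨f, hf, hfw⟩ := hsurj (n - j) i (Nat.sub_le _ _) w hw
    rw [Nat.sub_sub_self hj] at hf
    exact ⟨f, hf, hfw⟩

end Product

end Pool.Agent.Hodge81
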