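import Pool.Agent.KT.Abs

/-!
# Joint decompositions for commuting splittings
-/

set_option autoImplicit false

namespace Pool.Agent.KT

open Module

variable {E : Type*} [Ring E] [Algebra ℂ E] {R : ℕ → Submodule ℂ E} {c e e' g g' : E}

/-- the elements of weight `-a` -/
def wt (e : E) (a : ℕ) : Submodule ℂ E := (ad e).eigenspace (-(a : ℂ))

theorem mem_wt {e : E} {a : ℕ} {f : E} : f ∈ wt e a ↔ ad e f = (-(a : ℂ)) • f :=
  Module.End.mem_eigenspace_iff

theorem wt_mul {a b : ℕ} {f h : E} (hf : f ∈ wt e a) (hh : h ∈ wt e b) : f * h ∈ wt e (a + b) := by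
  rw [mem_wt] at *
  rw [ad_mul, hf, hh, smul_mul_assoc, mul_smul_comm, ← add_smul]
  congr 1
  push_cast
  ring

theorem neg_inj {a b : ℕ} (h : (-(a : ℂ)) = -(b : ℂ)) : a = b := by
  exact_mod_cast neg_injective h

namespace Split

variable (hG : Grad R c) (h : Split R c e e')

include hG h

theorem ad_first {k : ℕ} {f : E} (hf : f ∈ pt R e' k) : ad e f = (-(k : ℂ)) • f := by
  have h1 := hG.deg k f hf.1
  rw [← h.add, ad_add_left, (mem_pt.1 hf).2, add_zero] at h1
  exact h1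

theorem le_wt : ∀ k, pt R e' k ≤ wt e k := fun _ _ hf => mem_wt.2 (ad_first hG h hf)

/-- products of homogeneous elements have the weight of the first one -/
theorem piece_le (k i : ℕ) :
    Submodule.span ℂ {f | ∃ a ∈ pt R e' i, ∃ b ∈ pt R e (k - i), f = a * b} ≤ wt e i := by
  refine Submodule.span_le.2 ?_
  rintro _ ⟨a, ha, b, hb, rfl⟩
  have h1 := wt_mul (le_wt hG h i ha) (b := 0) (h := b) (by
    rw [mem_wt, (mem_pt.1 hb).2]
    simp)
  exact h1

/-- an invariant subspace of `R k` is the sum of its parts of weights `0, .., k` -/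
theorem inv_le [FiniteDimensional ℂ E] {k : ℕ} {N : Submodule ℂ E} (hN : N ≤ R k)
    (hinv : ∀ f ∈ N, ad e f ∈ N) {Q : Submodule ℂ E}
    (hQ : ∀ a ≤ k, ∀ f ∈ N, f ∈ wt e a → f ∈ Q) : N ≤ Q := by
  have h1 := Submodule.inf_iSup_genEigenspace (p := N) (f := ad e) hinv 1
  have h2 : N ≤ ⨆ μ, (ad e).genEigenspace μ 1 := by
    refine (hN.trans (h.span k)).trans (iSup_le fun i => ?_)
    exact (piece_le hG h k i).trans (le_iSup (fun μ => (ad e).genEigenspace μ 1) (-((i : ℕ) : ℂ)))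
  rw [inf_eq_left.2 h2] at h1
  rw [h1]
  refine iSup_le fun μ f hf => ?_
  have hf2 : ad e f = μ • f := Module.End.mem_eigenspace_iff.1 hf.2
  by_cases hμ : ∃ a ≤ k, μ = -(a : ℂ)
  · obtain ⟨a, ha, rfl⟩ := hμ
    exact hQ a ha f hf.1 (mem_wt.2 hf2)
  · have h3 : f = 0 := by
      refine eq_zero_of_eigen (ad e) (fun i : Fin (k + 1) => Submodule.span ℂ
        {f | ∃ a ∈ pt R e' i, ∃ b ∈ pt R e (k - i), f = a * b}) (fun i => -((i : ℕ) : ℂ))
        (fun i => piece_le hG h k i) (h.span k (hN hf.1)) hf2 fun i hi => hμ ⟨i, ?_, hi.symm⟩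
      have := i.2
      omega
    rw [h3]
    exact Q.zero_mem

/-- no other weights -/
theorem weight_le {k : ℕ} {f : E} (hf : f ∈ R k) {μ : ℂ} (hμ : ad e f = μ • f) (h0 : f ≠ 0) :
    ∃ a ≤ k, μ = -(a : ℂ) := by
  by_contra hcon
  refine h0 (eq_zero_of_eigen (ad e) (fun i : Fin (k + 1) => Submodule.span ℂ
    {f | ∃ a ∈ pt R e' i, ∃ b ∈ pt R e (k - i), f = a * b}) (fun i => -((i : ℕ) : ℂ))
    (fun i => piece_le hG h k i) (h.span k hf) hμ fun i hi => hcon ⟨i, ?_, hi.symm⟩)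
  have := i.2
  omega

/-- the part of weight `a` -/
theorem mem_piece {k a : ℕ} {f : E} (hf : f ∈ R k) (ha : f ∈ wt e a) :
    f ∈ Submodule.span ℂ {f | ∃ x ∈ pt R e' a, ∃ y ∈ pt R e (k - a), f = x * y} := by
  have h1 := mem_of_eigen (ad e) (fun i : Fin (k + 1) => Submodule.span ℂ
    {f | ∃ x ∈ pt R e' i, ∃ y ∈ pt R e (k - i), f = x * y}) (fun i => -((i : ℕ) : ℂ))
    (fun i => piece_le hG h k i) (h.span k hf) (mem_wt.1 ha)
  refine (iSup₂_le fun i hi => ?_ : (⨆ (i : Fin (k + 1)) (_ : -((i : ℕ) : ℂ) = -(a : ℂ)),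
    Submodule.span ℂ {f | ∃ x ∈ pt R e' i, ∃ y ∈ pt R e (k - i), f = x * y}) ≤ _) h1
  rw [neg_inj hi]

/-- an element of `R k` of weight `k` lies in the first factor -/
theorem mem_first {k : ℕ} {f : E} (hf : f ∈ R k) (ha : f ∈ wt e k) : f ∈ pt R e' k := by
  refine mem_pt.2 ⟨hf, ?_⟩
  have h1 := hG.deg k f hf
  rw [← h.add, ad_add_left, mem_wt.1 ha] at h1
  simpa using h1

end Split

theorem span_eq (S T : Submodule ℂ E) :
    Submodule.span ℂ {f | ∃ a ∈ S, ∃ b ∈ T, f = a * b} = S * T := by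
  apply le_antisymm
  · refine Submodule.span_le.2 ?_
    rintro _ ⟨a, ha, b, hb, rfl⟩
    exact Submodule.mul_mem_mul ha hb
  · refine Submodule.mul_le.2 fun a ha b hb => Submodule.subset_span ⟨a, ha, b, hb, rfl⟩

theorem mul_le_mul_of {S S' T T' : Submodule ℂ E} (h1 : S ≤ S') (h2 : T ≤ T') :
    S * T ≤ S' * T' := Submodule.mul_le.2 fun a ha b hb => Submodule.mul_mem_mul (h1 ha) (h2 hb)

/-- two splittings which commute -/
structure Comm2 (e e' g g' : E) : Prop where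
  eg : e * g = g * e
  eg' : e * g' = g' * e
  e'g : e' * g = g * e'
  e'g' : e' * g' = g' * e'

omit [Algebra ℂ E] in
theorem Comm2.symm (h : Comm2 e e' g g') : Comm2 g g' e e' :=
  ⟨h.eg.symm, h.e'g.symm, h.eg'.symm, h.e'g'.symm⟩

omit [Algebra ℂ E] in
/-- the splitting with the factors exchanged -/
theorem Comm2.swap (h : Comm2 e e' g g') : Comm2 e' e g g' := ⟨h.e'g, h.e'g', h.eg, h.eg'⟩

omit [Algebra ℂ E] in
theorem Comm2.swap' (h : Comm2 e e' g g') : Comm2 e e' g' g := ⟨h.eg', h.eg, h.e'g', h.e'g⟩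

namespace Split

section stable

variable (hG : Grad R c) (h : Split R c e e')

include hG h

/-- `R` is stable under `ad e` -/
theorem stable {k : ℕ} {f : E} (hf : f ∈ R k) : ad e f ∈ R k := by
  have h1 : R k ≤ (R k).comap (ad e) := by
    refine (h.span k).trans (iSup_le fun i => Submodule.span_le.2 ?_)
    rintro _ ⟨a, ha, b, hb, rfl⟩
    have hi := i.2
    have h2 : a * b ∈ wt e i := piece_le hG h k i (Submodule.subset_span ⟨a, ha, b, hb, rfl⟩)
    have h3 : a * b ∈ R k := by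
      have := hG.mul _ _ a ha.1 b hb.1
      rwa [show (i : ℕ) + (k - i) = k by omega] at this
    change ad e (a * b) ∈ R k
    rw [mem_wt.1 h2]
    exact Submodule.smul_mem _ _ h3
  exact h1 hf

theorem pt_stable {x : E} (hx : e * x = x * e) {k : ℕ} {f : E} (hf : f ∈ pt R x k) :
    ad e f ∈ pt R x k :=
  mem_pt.2 ⟨stable hG h hf.1, by rw [ad_ad hx.symm, (mem_pt.1 hf).2, map_zero]⟩

/-- decomposition of an invariant subspace -/
theorem dec [FiniteDimensional ℂ E] {k : ℕ} {N : Submodule ℂ E} (hN : N ≤ R k)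
    (hinv : ∀ f ∈ N, ad e f ∈ N) : N ≤ ⨆ i : Fin (k + 1), N ⊓ wt e i :=
  inv_le hG h hN hinv fun a ha _ hf hfa => Submodule.mem_iSup_of_mem
    (⟨a, Nat.lt_succ_of_le ha⟩ : Fin (k + 1)) ⟨hf, hfa⟩

end stable

end Split

/-- Joint decomposition: an element of the first factor of `(e, e')` of weight `a` for `g` is a sum
of products of elements of the intersections with the factors of `(g, g')`. -/
theorem refine_first [FiniteDimensional ℂ E] (hG : Grad R c) (h : Split R c e e')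
    (h' : Split R c g g') (H : Comm2 e e' g g') {k a : ℕ} (hak : a ≤ k) {f : E}
    (hf : f ∈ pt R e' k) (ha : f ∈ wt g a) :
    f ∈ (pt R e' a ⊓ pt R g' a) * (pt R e' (k - a) ⊓ pt R g (k - a)) := by
  have h1 := h'.mem_piece hG hf.1 ha
  rw [span_eq] at h1
  have s1 := h.dec hG (k := a) (N := pt R g' a) inf_le_left
    fun z hz => h.pt_stable hG H.eg' hz
  have s2 := h.dec hG (k := k - a) (N := pt R g (k - a)) inf_le_left
    fun z hz => h.pt_stable hG H.eg hz
  have h2 := mul_le_mul_of s1 s2 h1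
  rw [Submodule.iSup_mul] at h2
  simp only [Submodule.mul_iSup] at h2
  rw [iSup_sigma'] at h2
  have h3 := mem_of_eigen (ad e) _ (fun p : (_ : Fin (a + 1)) × Fin (k - a + 1) =>
    -(((p.1 : ℕ) + (p.2 : ℕ) : ℕ) : ℂ)) (fun p => ?_) h2 (h.ad_first hG hf)
  · refine (iSup₂_le fun p hp => ?_ : (⨆ (p : (_ : Fin (a + 1)) × Fin (k - a + 1))
      (_ : -(((p.1 : ℕ) + (p.2 : ℕ) : ℕ) : ℂ) = -(k : ℂ)),
      (pt R g' a ⊓ wt e p.1) * (pt R g (k - a) ⊓ wt e p.2)) ≤ _) h3
    have e1 := neg_inj hp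
    have e2 := p.1.2
    have e3 := p.2.2
    have e4 : (p.1 : ℕ) = a := by omega
    have e5 : (p.2 : ℕ) = k - a := by omega
    rw [e4, e5]
    refine mul_le_mul_of (fun x hx => ⟨h.mem_first hG hx.1.1 hx.2, hx.1⟩)
      fun y hy => ⟨h.mem_first hG hy.1.1 hy.2, hy.1⟩
  · refine Submodule.mul_le.2 fun x hx y hy => ?_
    exact wt_mul hx.2 hy.2

end Pool.Agent.KT
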