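import Pool.Agent.KT.Oper

/-!
# Derivations which raise the degree in the second factor
-/

set_option autoImplicit false

namespace Pool.Agent.KT

open Module

variable {E : Type*} [Ring E] [Algebra ℂ E] {R : ℕ → Submodule ℂ E} {c e e' w : E} {m : ℕ}

/-- the Jacobi identity -/
theorem ad_jacobi (x y z : E) : ad x (ad y z) = ad (ad x y) z + ad y (ad x z) := by
  simp only [ad_apply]
  noncomm_ring

theorem ad_smul_left (μ : ℂ) (x y : E) : ad (μ • x) y = μ • ad x y := by
  simp only [ad_apply, smul_mul_assoc, mul_smul_comm, smul_sub]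

/-- independent elements of the first factor -/
theorem cross_two (hG : Grad R c) (h : Split R c e e') (hC : CYData R e' m w) {j : ℕ}
    {x y p q : E} (hx : x ∈ pt R e' m) (hy : y ∈ pt R e' m) (hp : p ∈ pt R e j)
    (hq : q ∈ pt R e j) (h0 : y * p + x * q = 0) (hx0 : x ≠ 0) (hxy : ∀ z : ℂ, y ≠ z • x) :
    p = 0 := by
  obtain ⟨_, x', hx', e1⟩ := hC.pd m x hx hx0
  have hmm : 2 * m - m = m := by omega
  rw [hmm] at hx'
  have hsign : ∀ a ∈ pt R e' m, a * x' = (-1 : ℂ) ^ (m * m) • (x' * a) := fun a ha =>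
    hG.comm m m a ha.1 x' hx'.1
  -- `x' * x` is a nonzero multiple of `w`
  have e2 : x' * x = (-1 : ℂ) ^ (m * m) • w := by
    rw [hG.comm m m x' hx'.1 x hx.1, e1]
  obtain ⟨z, hz⟩ := hC.top (x' * y) (by
    have h1 := hG.mul m m x' hx'.1 y hy.1
    refine mem_pt.2 ⟨by rwa [← two_mul] at h1, ?_⟩
    rw [ad_mul, (mem_pt.1 hx').2, (mem_pt.1 hy).2, zero_mul, mul_zero, add_zero])
  have e3 : w * (z • p + (-1 : ℂ) ^ (m * m) • q) = 0 := by
    have h1 : x' * (y * p + x * q) = 0 := by rw [h0, mul_zero]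
    rw [mul_add, ← mul_assoc, ← mul_assoc, hz, e2, smul_mul_assoc, smul_mul_assoc,
      ← mul_smul_comm, ← mul_smul_comm, ← mul_add] at h1
    exact h1
  have hmem : z • p + (-1 : ℂ) ^ (m * m) • q ∈ pt R e j :=
    Submodule.add_mem _ (Submodule.smul_mem _ _ hp) (Submodule.smul_mem _ _ hq)
  rcases h.cross (2 * m) j w hC.mem _ hmem e3 with h1 | h1
  · exact absurd h1 hC.ne
  · have hs : ((-1 : ℂ) ^ (m * m)) * ((-1 : ℂ) ^ (m * m)) = 1 := by
      rw [← mul_pow]
      norm_num
    have e4 : q = (-((-1 : ℂ) ^ (m * m) * z)) • p := by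
      have h2 : (-1 : ℂ) ^ (m * m) • (z • p + (-1 : ℂ) ^ (m * m) • q) = 0 := by
        rw [h1, smul_zero]
      rw [smul_add, smul_smul, smul_smul, hs, one_smul] at h2
      rw [neg_smul]
      exact eq_neg_of_add_eq_zero_right h2
    rw [e4, mul_smul_comm, ← smul_mul_assoc, ← add_mul] at h0
    rcases h.cross m j _ (Submodule.add_mem _ hy (Submodule.smul_mem _ _ hx)) _ hp h0 with h2 | h2
    · exfalso
      refine hxy ((-1 : ℂ) ^ (m * m) * z) ?_
      rw [neg_smul, ← sub_eq_add_neg, sub_eq_zero] at h2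
      exact h2
    · exact h2

/-- an independent element which kills a given one -/
theorem exists_kill [FiniteDimensional ℂ E] (hG : Grad R c) (hC : CYData R e' m w) {x : E}
    (hx : x ∈ pt R e' m) : ∃ y ∈ pt R e' m, x * y = 0 ∧ ∀ z : ℂ, y ≠ z • x := by
  -- the kernel has dimension at least two
  let L : pt R e' m →ₗ[ℂ] E := (LinearMap.mulLeft ℂ x) ∘ₗ (pt R e' m).subtype
  have hr : LinearMap.range L ≤ Submodule.span ℂ {w} := by
    rintro _ ⟨y, rfl⟩
    obtain ⟨z, hz⟩ := hC.top (x * y) (by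
      have h1 := hG.mul m m x hx.1 y y.2.1
      refine mem_pt.2 ⟨by rwa [← two_mul] at h1, ?_⟩
      rw [ad_mul, (mem_pt.1 hx).2, (mem_pt.1 y.2).2, zero_mul, mul_zero, add_zero])
    exact Submodule.mem_span_singleton.2 ⟨z, hz.symm⟩
  have hr1 : finrank ℂ (LinearMap.range L) ≤ 1 :=
    (Submodule.finrank_mono hr).trans (finrank_span_le_card ({w} : Set E) |>.trans (by simp))
  have hk := LinearMap.finrank_range_add_finrank_ker L
  have hd := hC.dim
  have hlt : finrank ℂ ((Submodule.span ℂ {(⟨x, hx⟩ : pt R e' m)} :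
      Submodule ℂ (pt R e' m))) < finrank ℂ (LinearMap.ker L) := by
    have h1 : finrank ℂ ((Submodule.span ℂ {(⟨x, hx⟩ : pt R e' m)} :
      Submodule ℂ (pt R e' m))) ≤ 1 := (finrank_span_le_card
        ({(⟨x, hx⟩ : pt R e' m)} : Set (pt R e' m))).trans (by simp)
    omega
  obtain ⟨y, hy1, hy2⟩ : ∃ y ∈ LinearMap.ker L,
      y ∉ (Submodule.span ℂ {(⟨x, hx⟩ : pt R e' m)} : Submodule ℂ (pt R e' m)) := by
    by_contra hcon
    push Not at hcon
    exact absurd (Submodule.finrank_mono (show LinearMap.ker L ≤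
      Submodule.span ℂ {(⟨x, hx⟩ : pt R e' m)} from hcon)) (by omega)
  refine ⟨y, y.2, hy1, fun z hz => hy2 ?_⟩
  refine Submodule.mem_span_singleton.2 ⟨z, ?_⟩
  ext
  rw [Submodule.coe_smul]
  exact hz.symm

section der

variable (hG : Grad R c) (h : Split R c e e') {D : E}
  (hD : ∀ k, ∀ f ∈ R k, ad D f ∈ R k) {μ : ℂ} (h1 : ad e D = μ • D)
  (hμ : ∀ l : ℕ, μ ≠ -(l : ℂ))

include hG h hD h1 hμ

/-- the derivation raises the degree in the second factor -/
theorem der_part {k : ℕ} {x : E} (hx : x ∈ pt R e' k) : ad D x = 0 ∨ ∃ i < k,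
    μ = ((k - i : ℕ) : ℂ) ∧ ad D x ∈ Submodule.span ℂ
      {f | ∃ a ∈ pt R e' i, ∃ b ∈ pt R e (k - i), f = a * b} := by
  by_cases h0 : ad D x = 0
  · exact Or.inl h0
  right
  have h3 : ad e (ad D x) = (μ - k) • ad D x := by
    rw [ad_jacobi, h1, h.ad_first hG hx, ad_smul_left, map_smul, ← add_smul]
    congr 1
  obtain ⟨i, hi, hi2⟩ := h.weight_le hG (hD k x hx.1) h3 h0
  have h4 : μ = (k : ℂ) - i := by
    rw [sub_eq_iff_eq_add] at hi2
    rw [hi2]
    ring
  have h5 : i < k := by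
    rcases Nat.lt_or_ge i k with h5 | h5
    · exact h5
    · exfalso
      obtain rfl : i = k := by omega
      exact hμ 0 (by rw [h4]; simp)
  refine ⟨i, h5, ?_, ?_⟩
  · rw [h4, Nat.cast_sub hi]
  · refine h.mem_piece hG (hD k x hx.1) ?_
    rw [mem_wt, h3, hi2]

/-- the derivation kills the top degree of a strict Calabi-Yau factor -/
theorem der_zero [FiniteDimensional ℂ E] (hC : CYData R e' m w) : ad D w = 0 := by
  obtain ⟨u, hu, u', hu', e1, hk⟩ := hC.pair
  -- the derivation kills the elements of the middle degree if the shift is `m`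
  have hmid : μ = (m : ℂ) → ∀ x ∈ pt R e' m, ad D x = 0 := by
    intro hm x hx
    by_cases hx0 : x = 0
    · rw [hx0, map_zero]
    have key : ∀ x ∈ pt R e' m, ad D x ∈ pt R e m := by
      intro x hx
      rcases der_part hG h hD h1 hμ hx with h3 | ⟨i, hi, hi2, h3⟩
      · rw [h3]
        exact Submodule.zero_mem _
      · have hi0 : i = 0 := by
          rw [hm, Nat.cast_inj] at hi2
          omega
        subst hi0
        refine (Submodule.span_le.2 ?_ : Submodule.span ℂ
          {f | ∃ a ∈ pt R e' 0, ∃ b ∈ pt R e (m - 0), f = a * b} ≤ pt R e m) h3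
        rintro _ ⟨a, ha, b, hb, rfl⟩
        obtain ⟨z, rfl⟩ := hG.zero a ha.1
        rw [smul_mul_assoc, one_mul]
        exact Submodule.smul_mem _ _ hb
    obtain ⟨y, hy, hxy, hind⟩ := exists_kill hG hC hx
    have h3 : ad D (x * y) = 0 := by rw [hxy, map_zero]
    rw [ad_mul, hG.comm m m _ (key x hx).1 y hy.1, ← mul_smul_comm] at h3
    have h4 := cross_two hG h hC hx hy (Submodule.smul_mem _ ((-1 : ℂ) ^ (m * m)) (key x hx))
      (key y hy) h3 hx0 hind
    rcases smul_eq_zero.1 h4 with h5 | h5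
    · exact absurd h5 (pow_ne_zero _ (by norm_num))
    · exact h5
  -- one of the factors
  have hone : ∀ u ∈ pt R e' m, ∀ u' ∈ pt R e' m,
      (∀ k, 0 < k → k < m → ∀ f ∈ pt R e' k, u' * f = 0) → ad D u * u' = 0 ∧ u' * ad D u = 0 := by
    intro u hu u' hu' hk'
    have hz : u' * ad D u = 0 := by
      rcases der_part hG h hD h1 hμ hu with h3 | ⟨i, hi, hi2, h3⟩
      · rw [h3, mul_zero]
      · rcases Nat.eq_zero_or_pos i with rfl | hi0
        · rw [Nat.sub_zero] at hi2
          rw [hmid hi2 u hu, mul_zero]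
        · refine (Submodule.span_le.2 ?_ : Submodule.span ℂ
            {f | ∃ a ∈ pt R e' i, ∃ b ∈ pt R e (m - i), f = a * b} ≤
              LinearMap.ker (LinearMap.mulLeft ℂ u')) h3
          rintro _ ⟨a, ha, b, hb, rfl⟩
          change u' * (a * b) = 0
          rw [← mul_assoc, hk' i hi0 hi a ha, zero_mul]
    refine ⟨?_, hz⟩
    rw [hG.comm m m _ (hD m u hu.1) u' hu'.1, hz, smul_zero]
  rw [← e1, ad_mul, (hone u hu u' hu' fun k h3 h4 f hf => (hk k h3 h4 f hf).2).1,
    (hone u' hu' u hu fun k h3 h4 f hf => (hk k h3 h4 f hf).1).2, add_zero]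

end der

end Pool.Agent.KT
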