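import Pool.Agent.KT.Dec

/-!
# A strict Calabi-Yau factor lies in one of the factors of a second splitting
-/

set_option autoImplicit false

namespace Pool.Agent.KT

open Module

variable {E : Type*} [Ring E] [Algebra ℂ E] {R : ℕ → Submodule ℂ E} {c e e' g g' w : E} {m : ℕ}

omit [Algebra ℂ E] in
theorem comm2_of {g e e' g' c : E} (h1 : e + e' = c) (h2 : e * e' = e' * e) (h3 : g + g' = c)
    (h4 : g * g' = g' * g) (hc : g * e = e * g) : Comm2 e e' g g' := by
  have hec : e * c = c * e := by rw [← h1, mul_add, add_mul, h2]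
  have hgc : g * c = c * g := by rw [← h3, mul_add, add_mul, h4]
  have he : e' = c - e := by rw [← h1]; abel
  have hg : g' = c - g := by rw [← h3]; abel
  refine ⟨hc.symm, ?_, ?_, ?_⟩
  · rw [hg, mul_sub, sub_mul, hec, hc]
  · rw [he, mul_sub, sub_mul, ← hgc, hc]
  · have e1 : (c - e) * (c - g) = c * c - c * g - e * c + e * g := by noncomm_ring
    have e2 : (c - g) * (c - e) = c * c - c * e - g * c + g * e := by noncomm_ring
    rw [he, hg, e1, e2, hec, hgc, hc]
    abel

/-- duality for homogeneous elements -/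
theorem pd_wt [FiniteDimensional ℂ E] (hG : Grad R c) (hC : CYData R e' m w)
    (h' : Split R c g g') (H : g * e' = e' * g) {a : ℕ} (hw : w ∈ wt g a) {k i : ℕ} {f : E}
    (hf : f ∈ pt R e' k) (hfi : f ∈ wt g i) (h0 : f ≠ 0) :
    i ≤ a ∧ k ≤ 2 * m ∧ ∃ f' ∈ pt R e' (2 * m - k), f' ∈ wt g (a - i) ∧ f * f' = w := by
  obtain ⟨hk, f1, hf1, he⟩ := hC.pd k f hf h0
  have s1 := h'.dec hG (k := 2 * m - k) (N := pt R e' (2 * m - k)) inf_le_left
    (fun z hz => h'.pt_stable hG H hz) hf1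
  have s2 : w ∈ ⨆ j : Fin (2 * m - k + 1),
      (pt R e' (2 * m - k) ⊓ wt g j).map (LinearMap.mulLeft ℂ f) := by
    rw [← Submodule.map_iSup]
    exact ⟨f1, s1, he⟩
  have s3 := mem_of_eigen (ad g) _ (fun j : Fin (2 * m - k + 1) => -((i + (j : ℕ) : ℕ) : ℂ))
    (fun j => ?_) s2 (mem_wt.1 hw)
  · by_cases hex : ∃ j : Fin (2 * m - k + 1), i + (j : ℕ) = a
    · obtain ⟨j, hj⟩ := hex
      have s4 : w ∈ (pt R e' (2 * m - k) ⊓ wt g j).map (LinearMap.mulLeft ℂ f) := by
        refine (iSup₂_le fun l hl => ?_ : (⨆ (l : Fin (2 * m - k + 1))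
          (_ : -((i + (l : ℕ) : ℕ) : ℂ) = -(a : ℂ)),
          (pt R e' (2 * m - k) ⊓ wt g l).map (LinearMap.mulLeft ℂ f)) ≤ _) s3
        have e1 := neg_inj hl
        rw [show (l : ℕ) = j by omega]
      obtain ⟨f', hf', e1⟩ := s4
      refine ⟨by omega, hk, f', hf'.1, ?_, e1⟩
      rw [show a - i = j by omega]
      exact hf'.2
    · exfalso
      have s4 : (⨆ (l : Fin (2 * m - k + 1)) (_ : -((i + (l : ℕ) : ℕ) : ℂ) = -(a : ℂ)),
          (pt R e' (2 * m - k) ⊓ wt g l).map (LinearMap.mulLeft ℂ f)) = ⊥ := by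
        rw [iSup_eq_bot]
        intro l
        rw [iSup_eq_bot]
        intro hl
        exact absurd ⟨l, neg_inj hl⟩ hex
      rw [s4, Submodule.mem_bot] at s3
      exact hC.ne s3
  · rintro _ ⟨z, hz, rfl⟩
    exact wt_mul hfi hz.2

/-- graded commutativity for products equal to zero -/
theorem mul_zero_comm (hG : Grad R c) {i j : ℕ} {x y : E} (hx : x ∈ R i) (hy : y ∈ R j)
    (h : x * y = 0) : y * x = 0 := by
  rw [hG.comm j i y hy x hx, h, smul_zero]

/-- the elements of `pt R e' m` which are killed by all intermediate degrees -/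
def killed (R : ℕ → Submodule ℂ E) (e' : E) (m : ℕ) : Submodule ℂ E where
  carrier := {f | f ∈ pt R e' m ∧ ∀ k, 0 < k → k < m → ∀ x ∈ pt R e' k, f * x = 0}
  add_mem' {a b} ha hb := ⟨Submodule.add_mem _ ha.1 hb.1, fun k h1 h2 x hx => by
    rw [add_mul, ha.2 k h1 h2 x hx, hb.2 k h1 h2 x hx, add_zero]⟩
  zero_mem' := ⟨Submodule.zero_mem _, fun k _ _ x _ => zero_mul x⟩
  smul_mem' z a ha := ⟨Submodule.smul_mem _ _ ha.1, fun k h1 h2 x hx => by
    rw [smul_mul_assoc, ha.2 k h1 h2 x hx, smul_zero]⟩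

theorem mem_killed {f : E} : f ∈ killed R e' m ↔
    f ∈ pt R e' m ∧ ∀ k, 0 < k → k < m → ∀ x ∈ pt R e' k, f * x = 0 := Iff.rfl

/-- a product with a killed element of intermediate weight vanishes -/
theorem killed_mul [FiniteDimensional ℂ E] (hG : Grad R c) (h : Split R c e e')
    (h' : Split R c g g') (H : Comm2 e e' g g') {i : ℕ} (hi0 : 0 < i) (him : i < m) {x y : E}
    (hx : x ∈ killed R e' m) (hxi : x ∈ wt g i) (hy : y ∈ killed R e' m) : x * y = 0 := by
  have h1 := refine_first hG h h' H him.le hx.1 hxi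
  have h2 : (pt R e' i ⊓ pt R g' i) * (pt R e' (m - i) ⊓ pt R g (m - i)) ≤
      LinearMap.ker (LinearMap.mulRight ℂ y) := by
    refine Submodule.mul_le.2 fun p hp q hq => ?_
    rw [LinearMap.mem_ker, LinearMap.mulRight_apply, mul_assoc]
    have h3 := hy.2 (m - i) (by omega) (by omega) q hq.1
    rw [mul_zero_comm hG hy.1.1 hq.1.1 h3, mul_zero]
  exact h2 h1

theorem dichotomy' [FiniteDimensional ℂ E] {R : ℕ → Submodule ℂ E} {c e e' g g' w : E} {m : ℕ}
    (hG : Grad R c) (h : Split R c e e') (hC : CYData R e' m w) (h' : Split R c g g')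
    (hc : g * e = e * g) :
    (∀ k, ∀ f ∈ pt R e' k, ad g' f = 0) ∨ (∀ k, ∀ f ∈ pt R e' k, ad g f = 0) := by
  have H := comm2_of h.add h.comm h'.add h'.comm hc
  have hm := hC.three
  -- the weight of `w`
  obtain ⟨z, hz⟩ := hC.top _ (h'.pt_stable hG H.e'g.symm hC.mem)
  obtain ⟨a, ha, rfl⟩ := h'.weight_le hG hC.mem.1 hz hC.ne
  have hw : w ∈ wt g a := mem_wt.2 hz
  have hinv : ∀ k, ∀ f ∈ pt R e' k, ad g f ∈ pt R e' k := fun k f hf =>
    h'.pt_stable hG H.e'g.symm hf
  -- the extreme cases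
  by_cases ha0 : a = 0
  · right
    intro k f hf
    have h1 : pt R e' k ≤ LinearMap.ker (ad g) := by
      refine h'.inv_le hG (k := k) inf_le_left (hinv k) fun i _ x hx hxi => ?_
      rw [LinearMap.mem_ker]
      by_cases hx0 : x = 0
      · rw [hx0, map_zero]
      · obtain ⟨h2, -, -⟩ := pd_wt hG hC h' H.e'g.symm hw hx hxi hx0
        obtain rfl : i = 0 := by omega
        rw [mem_wt.1 hxi]
        simp
    exact h1 hf
  by_cases ha2 : a = 2 * m
  · left
    intro k f hf
    have h1 : pt R e' k ≤ LinearMap.ker (ad g') := by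
      refine h'.inv_le hG (k := k) inf_le_left (hinv k) fun i hik x hx hxi => ?_
      rw [LinearMap.mem_ker]
      by_cases hx0 : x = 0
      · rw [hx0, map_zero]
      · obtain ⟨h2, hk, f', hf', hfi, hff⟩ := pd_wt hG hC h' H.e'g.symm hw hx hxi hx0
        have hf0 : f' ≠ 0 := fun h3 => hC.ne (by rw [← hff, h3, mul_zero])
        obtain ⟨b, hb, hab⟩ := h'.weight_le hG hf'.1 (mem_wt.1 hfi) hf0
        have e1 := neg_inj hab
        obtain rfl : i = k := by omega
        exact (mem_pt.1 (h'.mem_first hG hx.1 hxi)).2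
    exact h1 hf
  exfalso
  -- the killed elements
  have kinv : ∀ f ∈ killed R e' m, ad g f ∈ killed R e' m := fun f hf => by
    refine mem_killed.2 ⟨hinv m f hf.1, fun k h1 h2 x hx => ?_⟩
    have e1 : ad g f * x = ad g (f * x) - f * ad g x := by rw [ad_mul]; abel
    rw [e1, hf.2 k h1 h2 x hx, map_zero, hf.2 k h1 h2 _ (hinv k x hx), sub_zero]
  have kdec := h'.dec hG (k := m) (N := killed R e' m) (fun z hz => hz.1.1) kinv
  obtain ⟨u, hu, u', hu', huu, hkill⟩ := hC.pair
  have ku : u ∈ killed R e' m := ⟨hu, fun k h1 h2 x hx => (hkill k h1 h2 x hx).1⟩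
  have ku' : u' ∈ killed R e' m := ⟨hu', fun k h1 h2 x hx => (hkill k h1 h2 x hx).2⟩
  have h1 : w ∈ killed R e' m * killed R e' m := by
    rw [← huu]
    exact Submodule.mul_mem_mul ku ku'
  have h2 := mul_le_mul_of kdec kdec h1
  rw [Submodule.iSup_mul] at h2
  simp only [Submodule.mul_iSup] at h2
  rw [iSup_sigma'] at h2
  have h3 := mem_of_eigen (ad g) _ (fun p : (_ : Fin (m + 1)) × Fin (m + 1) =>
    -(((p.1 : ℕ) + (p.2 : ℕ) : ℕ) : ℂ)) (fun p => ?_) h2 (mem_wt.1 hw)
  swap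
  · refine Submodule.mul_le.2 fun x hx y hy => ?_
    exact wt_mul hx.2 hy.2
  obtain ⟨i, j, hij, x, hx, hxi, y, hy, hyj, hxy⟩ : ∃ i j : ℕ, i + j = a ∧
      ∃ x ∈ killed R e' m, x ∈ wt g i ∧ ∃ y ∈ killed R e' m, y ∈ wt g j ∧ x * y ≠ 0 := by
    by_contra hcon
    push Not at hcon
    apply hC.ne
    rw [← Submodule.mem_bot ℂ]
    refine (iSup₂_le fun p hp => ?_ : (⨆ (p : (_ : Fin (m + 1)) × Fin (m + 1))
      (_ : -(((p.1 : ℕ) + (p.2 : ℕ) : ℕ) : ℂ) = -(a : ℂ)),
      (killed R e' m ⊓ wt g p.1) * (killed R e' m ⊓ wt g p.2)) ≤ _) h3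
    refine Submodule.mul_le.2 fun x hx y hy => ?_
    rw [Submodule.mem_bot]
    exact hcon p.1 p.2 (neg_inj hp) x hx.1 hx.2 y hy.1 hy.2
  have hyx : y * x ≠ 0 := fun h4 => hxy (mul_zero_comm hG hy.1.1 hx.1.1 h4)
  have him : i ≤ m := by
    obtain ⟨b, hb, hab⟩ := h'.weight_le hG hx.1.1 (mem_wt.1 hxi)
      (fun h4 => hxy (by rw [h4, zero_mul]))
    have := neg_inj hab
    omega
  have hjm : j ≤ m := by
    obtain ⟨b, hb, hab⟩ := h'.weight_le hG hy.1.1 (mem_wt.1 hyj)
      (fun h4 => hxy (by rw [h4, mul_zero]))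
    have := neg_inj hab
    omega
  have hi : i = 0 ∨ i = m := by
    by_contra hcon
    exact hxy (killed_mul hG h h' H (by omega) (by omega) hx hxi hy)
  have hj : j = 0 ∨ j = m := by
    by_contra hcon
    exact hyx (killed_mul hG h h' H (by omega) (by omega) hy hyj hx)
  -- the case of a pair `(x, y)` of weights `0`, `m`
  have main : ∀ x ∈ killed R e' m, x ∈ wt g 0 → ∀ y ∈ killed R e' m, y ∈ wt g m →
      y * x ≠ 0 → False := by
    intro x hx hx0 y hy hym hyx
    have hxg : x ∈ pt R g m := by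
      refine mem_pt.2 ⟨hx.1.1, ?_⟩
      rw [mem_wt.1 hx0]
      simp
    have hyg : y ∈ pt R g' m := h'.mem_first hG hy.1.1 hym
    have hx00 : x ≠ 0 := fun h4 => hyx (by rw [h4, mul_zero])
    have hy00 : y ≠ 0 := fun h4 => hyx (by rw [h4, zero_mul])
    have hC0 : ∀ k, 0 < k → k < m → pt R e' k ⊓ pt R g' k = ⊥ := by
      intro k k0 km
      rw [eq_bot_iff]
      intro q hq
      have h4 := mul_zero_comm hG hx.1.1 hq.1.1 (hx.2 k k0 km q hq.1)
      exact (h'.cross k m q hq.2 x hxg h4).resolve_right hx00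
    have hD0 : ∀ k, 0 < k → k < m → pt R e' k ⊓ pt R g k = ⊥ := by
      intro k k0 km
      rw [eq_bot_iff]
      intro q hq
      exact (h'.cross m k y hyg q hq.2 (hy.2 k k0 km q hq.1)).resolve_left hy00
    obtain ⟨z0, hz0⟩ := hC.top (y * x) (by
      refine mem_pt.2 ⟨by rw [two_mul]; exact hG.mul m m y hy.1.1 x hx.1.1, ?_⟩
      rw [ad_mul, (mem_pt.1 hy.1).2, (mem_pt.1 hx.1).2, zero_mul, mul_zero, add_zero])
    have hz00 : z0 ≠ 0 := fun h4 => hyx (by rw [hz0, h4, zero_smul])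
    have hCm : ∀ q ∈ pt R e' m ⊓ pt R g' m, q ∈ Submodule.span ℂ {x, y} := by
      intro q hq
      obtain ⟨z1, hz1⟩ := hC.top (q * x) (by
        refine mem_pt.2 ⟨by rw [two_mul]; exact hG.mul m m q hq.1.1 x hx.1.1, ?_⟩
        rw [ad_mul, (mem_pt.1 hq.1).2, (mem_pt.1 hx.1).2, zero_mul, mul_zero, add_zero])
      have h5 : (q - (z1 / z0) • y) * x = 0 := by
        rw [sub_mul, smul_mul_assoc, hz1, hz0, smul_smul, div_mul_cancel₀ z1 hz00, sub_self]
      have h6 := (h'.cross m m _ (Submodule.sub_mem _ hq.2 (Submodule.smul_mem _ _ hyg)) x hxg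
        h5).resolve_right hx00
      rw [sub_eq_zero] at h6
      rw [h6]
      exact Submodule.smul_mem _ _ (Submodule.subset_span (by simp))
    have hDm : ∀ q ∈ pt R e' m ⊓ pt R g m, q ∈ Submodule.span ℂ {x, y} := by
      intro q hq
      obtain ⟨z1, hz1⟩ := hC.top (y * q) (by
        refine mem_pt.2 ⟨by rw [two_mul]; exact hG.mul m m y hy.1.1 q hq.1.1, ?_⟩
        rw [ad_mul, (mem_pt.1 hy.1).2, (mem_pt.1 hq.1).2, zero_mul, mul_zero, add_zero])
      have h5 : y * (q - (z1 / z0) • x) = 0 := by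
        rw [mul_sub, mul_smul_comm, hz1, hz0, smul_smul, div_mul_cancel₀ z1 hz00, sub_self]
      have h6 := (h'.cross m m y hyg _ (Submodule.sub_mem _ hq.2 (Submodule.smul_mem _ _ hxg))
        h5).resolve_left hy00
      rw [sub_eq_zero] at h6
      rw [h6]
      exact Submodule.smul_mem _ _ (Submodule.subset_span (by simp))
    have hall : pt R e' m ≤ Submodule.span ℂ {x, y} := by
      refine h'.inv_le hG (k := m) inf_le_left (hinv m) fun l hl q hq hql => ?_
      have h4 := refine_first hG h h' H hl hq hql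
      rcases Nat.eq_zero_or_pos l with rfl | hl0
      · refine hDm q ⟨hq, mem_pt.2 ⟨hq.1, ?_⟩⟩
        rw [mem_wt.1 hql]
        simp
      · rcases Nat.lt_or_ge l m with hlm | hlm
        · rw [hC0 l hl0 hlm, Submodule.bot_mul, Submodule.mem_bot] at h4
          rw [h4]
          exact Submodule.zero_mem _
        · obtain rfl : l = m := by omega
          exact hCm q ⟨hq, h'.mem_first hG hq.1 hql⟩
    have h7 := Submodule.finrank_mono hall
    have h8 : finrank ℂ (Submodule.span ℂ ({x, y} : Set E)) ≤ 2 := by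
      classical
      have := finrank_span_finset_le_card (R := ℂ) ({x, y} : Finset E)
      rw [Finset.coe_insert, Finset.coe_singleton] at this
      exact this.trans Finset.card_le_two
    have := hC.dim
    omega
  rcases hi with rfl | rfl
  · rcases hj with rfl | rfl
    · omega
    · exact main x hx hxi y hy hyj hyx
  · rcases hj with rfl | rfl
    · exact main y hy hyj x hx hxi hxy
    · omega

end Pool.Agent.KT
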