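import Pool.Agent.KT.Abs

/-!
# A symplectic factor does not see the strict Calabi-Yau factors
-/

set_option autoImplicit false

namespace Pool.Agent.KT

open Module

section pt

variable {E : Type*} [Ring E] [Algebra ℂ E] {R : ℕ → Submodule ℂ E} {c e e' : E}

theorem pt_mul (hG : Grad R c) {i j : ℕ} {f g : E} (hf : f ∈ pt R e i) (hg : g ∈ pt R e j) :
    f * g ∈ pt R e (i + j) := by
  refine mem_pt.2 ⟨hG.mul i j f hf.1 g hg.1, ?_⟩
  rw [ad_mul, (mem_pt.1 hf).2, (mem_pt.1 hg).2, zero_mul, mul_zero, add_zero]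

theorem pt_pow (hG : Grad R c) {i : ℕ} {f : E} (hf : f ∈ pt R e i) (k : ℕ) :
    f ^ k ∈ pt R e (k * i) := by
  induction k with
  | zero =>
    rw [pow_zero, zero_mul]
    refine mem_pt.2 ⟨hG.one, ?_⟩
    rw [ad_apply, mul_one, one_mul, sub_self]
  | succ k ih =>
    rw [pow_succ, Nat.succ_mul]
    exact pt_mul hG ih hf

/-- elements of even degree commute with everything -/
theorem comm_even (hG : Grad R c) {i j : ℕ} {f g : E} (hf : f ∈ R (2 * i)) (hg : g ∈ R j) :
    f * g = g * f := by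
  rw [hG.comm _ _ f hf g hg, mul_assoc, pow_mul]
  norm_num

/-- elements of degree two if the first factor has none of degree one -/
theorem exists_two (hG : Grad R c) (hS : Split R c e e') (h1 : pt R e' 1 = ⊥) {f : E}
    (hf : f ∈ R 2) : ∃ f1 ∈ pt R e' 2, ∃ f2 ∈ pt R e 2, f = f1 + f2 := by
  have key : (⨆ i : Fin (2 + 1),
      Submodule.span ℂ {f | ∃ a ∈ pt R e' i, ∃ b ∈ pt R e (2 - i), f = a * b}) ≤
      pt R e' 2 ⊔ pt R e 2 := by
    refine iSup_le fun i => Submodule.span_le.2 ?_
    rintro _ ⟨a, ha, b, hb, rfl⟩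
    fin_cases i
    · change a ∈ pt R e' 0 at ha
      change b ∈ pt R e 2 at hb
      obtain ⟨z, rfl⟩ := hG.zero a ha.1
      refine Submodule.mem_sup_right ?_
      rw [smul_mul_assoc, one_mul]
      exact Submodule.smul_mem _ _ hb
    · change a ∈ pt R e' 1 at ha
      rw [h1, Submodule.mem_bot] at ha
      rw [ha, zero_mul]
      exact Submodule.zero_mem _
    · change a ∈ pt R e' 2 at ha
      change b ∈ pt R e 0 at hb
      obtain ⟨z, rfl⟩ := hG.zero b hb.1
      refine Submodule.mem_sup_left ?_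
      rw [mul_smul_comm, mul_one]
      exact Submodule.smul_mem _ _ ha
  obtain ⟨a, ha, b, hb, h⟩ := Submodule.mem_sup.1 (key (hS.span 2 hf))
  exact ⟨a, ha, b, hb, h.symm⟩

end pt

section pow

variable {E : Type*} [Ring E]

theorem mul_pow_add {a b : E} (h : a * b = b * a) {k : ℕ} (h0 : a ^ (k + 1) = 0) (j : ℕ) :
    a ^ k * (a + b) ^ j = a ^ k * b ^ j := by
  induction j with
  | zero => rw [pow_zero, pow_zero]
  | succ j ih =>
    have hab : Commute a b := h
    rw [pow_succ', ← mul_assoc, mul_add, ← pow_succ, h0, zero_add, (hab.pow_left k).eq,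
      mul_assoc, ih, ← mul_assoc, ← (hab.pow_left k).eq, mul_assoc, ← pow_succ']

theorem mul_pow_add' [Algebra ℂ E] {a b : E} (h : a * b = b * a) {k : ℕ} (h0 : a ^ (k + 2) = 0) (j : ℕ) :
    a ^ k * (a + b) ^ (j + 1) = a ^ k * b ^ (j + 1) + ((j : ℂ) + 1) • (a ^ (k + 1) * b ^ j) := by
  have hab : Commute a b := h
  induction j with
  | zero =>
    rw [zero_add, pow_one, pow_one, pow_zero, mul_one, Nat.cast_zero, zero_add, one_smul,
      mul_add, ← pow_succ, add_comm]
  | succ j ih =>
    have h1 := mul_pow_add h (k := k + 1) h0 (j + 1)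
    rw [pow_succ' (a + b) (j + 1), ← mul_assoc, mul_add, add_mul, ← pow_succ, h1,
      (hab.pow_left k).eq, mul_assoc, ih, mul_add, ← mul_assoc, ← (hab.pow_left k).eq,
      mul_assoc, ← pow_succ', mul_smul_comm, ← mul_assoc b, ← (hab.pow_left (k + 1)).eq,
      mul_assoc (a ^ (k + 1)), ← pow_succ', ← add_assoc, add_comm (a ^ (k + 1) * b ^ (j + 1)),
      add_assoc]
    congr 1
    push_cast
    rw [add_smul ((j : ℂ) + 1) 1, one_smul, add_comm]

end pow

section main

variable {V : Type*} [AddCommGroup V] [Module ℂ V] {R : ℕ → Submodule ℂ (Module.End ℂ V)}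
  {c e e' w : Module.End ℂ V} {m : ℕ}

/-- an operator of degree two with `f ^ (r + 1) = 0` which acts on `x` through its second
component, `f ^ r x ≠ 0`, has no first component -/
theorem first_zero (hG : Grad R c) (hS : Split R c e e') (hC : CYData R e' m w) {r : ℕ} {x : V}
    {f1 f2 : Module.End ℂ V} (h1 : f1 ∈ pt R e' 2) (h2 : f2 ∈ pt R e 2)
    (hx : f1 x = 0) (h0 : (f1 + f2) ^ (r + 1) = 0) (hr : ((f1 + f2) ^ r) x ≠ 0) : f1 = 0 := by
  classical
  have hc : f1 * f2 = f2 * f1 := comm_even hG (i := 1) (by simpa using h1.1) h2.1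
  have hcc : Commute f1 f2 := hc
  by_contra hne
  have hnil : ∃ k, f1 ^ (k + 1) = 0 := by
    refine ⟨m, ?_⟩
    by_contra hm
    have := (hC.pd _ _ (pt_pow hG h1 (m + 1)) hm).1
    omega
  set k := Nat.find hnil with hk
  have hk1 : f1 ^ (k + 1) = 0 := Nat.find_spec hnil
  have hk0 : k ≠ 0 := by
    intro h
    rw [h, zero_add, pow_one] at hk1
    exact hne hk1
  obtain ⟨l, hl⟩ := Nat.exists_eq_succ_of_ne_zero hk0
  have hkl : f1 ^ (l + 1) ≠ 0 := Nat.find_min hnil (m := l) (by omega)
  rw [hl] at hk1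
  -- the power of the second component
  have e1 := mul_pow_add hc (k := l + 1) hk1 (r + 1)
  rw [h0, mul_zero] at e1
  have e2 : f2 ^ (r + 1) = 0 :=
    (hS.cross _ _ _ (pt_pow hG h1 (l + 1)) _ (pt_pow hG h2 (r + 1)) e1.symm).resolve_left hkl
  have e3 := mul_pow_add' hc (k := l) hk1 r
  rw [h0, mul_zero, e2, mul_zero, zero_add] at e3
  have e4 : f1 ^ (l + 1) * f2 ^ r = 0 := by
    rcases smul_eq_zero.1 e3.symm with h | h
    · exfalso
      have : ((r : ℂ) + 1) ≠ 0 := by exact_mod_cast Nat.succ_ne_zero r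
      exact this h
    · exact h
  have e5 : f2 ^ r = 0 :=
    (hS.cross _ _ _ (pt_pow hG h1 (l + 1)) _ (pt_pow hG h2 r) e4).resolve_left hkl
  -- the value on `x`
  have e6 : ∀ j : ℕ, ((f1 + f2) ^ j) x = (f2 ^ j) x := by
    intro j
    induction j with
    | zero => rfl
    | succ j ih =>
      have e7 : f1 ((f2 ^ j) x) = 0 := by
        have := LinearMap.congr_fun (hcc.pow_right j).eq x
        rw [Module.End.mul_apply, Module.End.mul_apply, hx, map_zero] at this
        exact this
      rw [pow_succ', Module.End.mul_apply, ih, LinearMap.add_apply, e7, zero_add, pow_succ',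
        Module.End.mul_apply]
  apply hr
  rw [e6, e5, LinearMap.zero_apply]

/-- The column operator of a symplectic factor of a second splitting commutes with the polyvector
fields of a strict Calabi-Yau factor: `f` is the multiplication by the conjugate of the
symplectic form, `t` the contraction with the inverse bivector. -/
theorem symp_comm (hG : Grad R c) (hS : Split R c e e') (hC : CYData R e' m w)
    (h1 : pt R e' 1 = ⊥) (bar : Module.End ℂ V →+* Module.End ℂ V) (hbb : ∀ f, bar (bar f) = f)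
    (super : ∀ g ∈ pt R e 2, ∀ k, ∀ a ∈ pt R e' k, bar g * a = a * bar g) {x : V}
    (hx : ∀ f ∈ pt R e' 2, f x = 0) {r : ℕ} {f t : Module.End ℂ V} (hf : f ∈ R 2) (ht : t ∈ R 2)
    (h0 : f ^ (r + 1) = 0) (hr : (f ^ r) x ≠ 0) {k : ℕ} {a : Module.End ℂ V}
    (ha : a ∈ pt R e' k) :
    ad ((t * bar f - bar f * t) - bar (t * bar f - bar f * t)) a = 0 := by
  obtain ⟨f1, hf1, f2, hf2, rfl⟩ := exists_two hG hS h1 hf
  obtain ⟨t1, ht1, t2, ht2, rfl⟩ := exists_two hG hS h1 ht
  obtain rfl : f1 = 0 := first_zero hG hS hC hf1 hf2 (hx f1 hf1) h0 hr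
  rw [zero_add] at *
  have b1 := super f2 hf2 2 t1 ht1
  have e1 : (t1 + t2) * bar f2 - bar f2 * (t1 + t2) = t2 * bar f2 - bar f2 * t2 := by
    rw [add_mul, mul_add, b1]
    abel
  rw [e1]
  set p := t2 * bar f2 - bar f2 * t2 with hp
  -- even elements of the second factor commute with the first factor and its conjugate
  have c1 : ∀ g ∈ pt R e 2, ∀ k, ∀ a ∈ pt R e' k, g * a = a * g := fun g hg k a ha =>
    comm_even hG (i := 1) (by simpa using hg.1) ha.1
  have c2 : ∀ g ∈ pt R e 2, ∀ k, ∀ a ∈ pt R e' k, g * bar a = bar a * g := fun g hg k a ha => by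
    have := congrArg bar (super g hg k a ha)
    rwa [map_mul, map_mul, hbb] at this
  have c3 : ∀ g ∈ pt R e 2, ∀ k, ∀ a ∈ pt R e' k, bar g * bar a = bar a * bar g :=
    fun g hg k a ha => by rw [← map_mul, ← map_mul, c1 g hg k a ha]
  have com : ∀ x y z : Module.End ℂ V, x * z = z * x → y * z = z * y →
      (x * y - y * x) * z = z * (x * y - y * x) := fun x y z hxz hyz => by
    have h1 : x * y * z = z * (x * y) := by rw [mul_assoc, hyz, ← mul_assoc, hxz, mul_assoc]
    have h2 : y * x * z = z * (y * x) := by rw [mul_assoc, hxz, ← mul_assoc, hyz, mul_assoc]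
    rw [sub_mul, mul_sub, h1, h2]
  have p1 : p * a = a * p := com _ _ _ (c1 t2 ht2 k a ha) (super f2 hf2 k a ha)
  have p2 : p * bar a = bar a * p := com _ _ _ (c2 t2 ht2 k a ha) (c3 f2 hf2 k a ha)
  have p3 : bar p * a = a * bar p := by
    have := congrArg bar p2
    rwa [map_mul, map_mul, hbb] at this
  rw [ad_apply, sub_mul, mul_sub, p1, p3]
  abel

end main

end Pool.Agent.KT
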