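import Pool.Agent.KT.Geo
import Pool.Agent.KT.SymP
import Pool.Agent.KT.Dich
import Pool.Agent.Helper51.BB.Tools

/-!
# Strict Calabi-Yau factors of a variety with trivial canonical bundle

A factor `W` of `X` is seen through its column operator `e` on `H^*(X, ℂ)`.
-/

set_option autoImplicit false

namespace Pool.Agent.Hodge81

open Complex Module
open Pool.Agent.KT

variable {n : ℕ} {A : Type*} [Ring A] [Algebra ℂ A] {X : HodgeRing n A}

/-- `e` is the column operator of a strict Calabi-Yau factor of dimension `m` -/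
structure Fac (P : PolyvectorAction X) (e : Module.End ℂ A) (m : ℕ) : Prop where
  split : Split P.total X.cop e (X.cop - e)
  real : X.bar e = -e
  gen : ∀ s ∈ X.H n 0, e s = (m : ℂ) • s
  data : ∃ w, CYData P.total (X.cop - e) m w
  one : pt P.total (X.cop - e) 1 = ⊥
  super : ∀ i, ∀ g ∈ pt P.total e i, ∀ k, ∀ a ∈ pt P.total (X.cop - e) k,
    X.bar g * a = (-1 : ℂ) ^ (i * k) • (a * X.bar g)

/-- a factor of `X` in the geometric sense: moreover the polyvector fields of degree two of the
factor commute with the classes of type `(1, 1)` and kill the unit -/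
structure FacX (P : PolyvectorAction X) (e : Module.End ℂ A) (m : ℕ) : Prop extends Fac P e m where
  kill : ∀ f ∈ pt P.total (X.cop - e) 2, f 1 = 0 ∧ ∀ z ∈ X.H 1 1, ∀ v, f (z * v) = z * f v

/-- operators which preserve the columns and normalise the polyvector fields and their
conjugates -/
def normal (P : PolyvectorAction X) : Submodule ℂ (Module.End ℂ A) where
  carrier := {D | D * X.cop = X.cop * D ∧ ∀ k, ∀ f ∈ P.total k, ad D f ∈ P.total k ∧
    ad (X.bar D) f ∈ P.total k}
  add_mem' {a b} ha hb := by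
    refine ⟨by rw [add_mul, mul_add, ha.1, hb.1], fun k f hf => ⟨?_, ?_⟩⟩
    · rw [ad_add_left]
      exact Submodule.add_mem _ (ha.2 k f hf).1 (hb.2 k f hf).1
    · rw [X.bar_add, ad_add_left]
      exact Submodule.add_mem _ (ha.2 k f hf).2 (hb.2 k f hf).2
  zero_mem' := by
    refine ⟨by rw [zero_mul, mul_zero], fun k f _ => ⟨?_, ?_⟩⟩
    · rw [ad_apply, zero_mul, mul_zero, sub_zero]
      exact Submodule.zero_mem _
    · rw [X.bar_zero, ad_apply, zero_mul, mul_zero, sub_zero]
      exact Submodule.zero_mem _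
  smul_mem' z a ha := by
    have e1 : ∀ (z : ℂ) (a f : Module.End ℂ A), ad (z • a) f = z • ad a f := fun z a f => by
      rw [ad_apply, ad_apply, smul_mul_assoc, mul_smul_comm, smul_sub]
    refine ⟨by rw [smul_mul_assoc, mul_smul_comm, ha.1], fun k f hf => ⟨?_, ?_⟩⟩
    · rw [e1]
      exact Submodule.smul_mem _ _ (ha.2 k f hf).1
    · rw [X.bar_smul, e1]
      exact Submodule.smul_mem _ _ (ha.2 k f hf).2

theorem mem_normal {P : PolyvectorAction X} {D : Module.End ℂ A} :
    D ∈ normal P ↔ D * X.cop = X.cop * D ∧ ∀ k, ∀ f ∈ P.total k, ad D f ∈ P.total k ∧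
      ad (X.bar D) f ∈ P.total k := Iff.rfl

section general

variable {E : Type*} [Ring E] [Algebra ℂ E]

theorem ad_neg_left (D f : E) : ad (-D) f = -ad D f := by
  rw [ad_apply, ad_apply]
  noncomm_ring

theorem ad_smul_left (z : ℂ) (D f : E) : ad (z • D) f = z • ad D f := by
  rw [ad_apply, ad_apply, smul_mul_assoc, mul_smul_comm, smul_sub]

/-- Jacobi identity -/
theorem ad_ad_left (x y f : E) : ad (ad x y) f = ad x (ad y f) - ad y (ad x f) := by
  simp only [ad_apply]
  noncomm_ring

/-- Jacobi identity, second form -/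
theorem ad_ad_right (x y f : E) : ad x (ad y f) = ad (ad x y) f + ad y (ad x f) := by
  rw [ad_ad_left]
  abel

end general

theorem normal_bar {P : PolyvectorAction X} {D : Module.End ℂ A} (hD : D ∈ normal P) :
    X.bar D ∈ normal P := by
  refine ⟨?_, fun k f hf => ⟨(hD.2 k f hf).2, by rw [X.bar_bar]; exact (hD.2 k f hf).1⟩⟩
  have h1 := congrArg X.bar hD.1
  rw [X.bar_mul, X.bar_mul, X.bar_cop] at h1
  have h2 : X.bar D * -X.cop = -(X.bar D * X.cop) := by
    ext v; simp
  have h3 : -X.cop * X.bar D = -(X.cop * X.bar D) := by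
    ext v; simp
  rw [h2, h3] at h1
  exact neg_injective h1

namespace Fac

variable {P : PolyvectorAction X} {e : Module.End ℂ A} {m : ℕ}

theorem mul_cop (F : Fac P e m) : e * X.cop = X.cop * e := by
  have h1 := F.split.comm
  rw [mul_sub, sub_mul] at h1
  exact sub_left_injective h1

theorem stable (F : Fac P e m) {k : ℕ} {f : Module.End ℂ A} (hf : f ∈ P.total k) :
    ad e f ∈ P.total k := F.split.stable P.grad hf

/-- the column operator of a factor is normal -/
theorem normal_self (F : Fac P e m) : e ∈ normal P := by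
  refine ⟨F.mul_cop, fun k f hf => ⟨F.stable hf, ?_⟩⟩
  rw [F.real, ad_neg_left]
  exact Submodule.neg_mem _ (F.stable hf)

theorem normal_ad (F : Fac P e m) {D : Module.End ℂ A} (hD : D ∈ normal P) :
    ad e D ∈ normal P := by
  refine ⟨?_, fun k f hf => ⟨?_, ?_⟩⟩
  · rw [ad_apply, sub_mul, mul_sub, mul_assoc, hD.1, ← mul_assoc, F.mul_cop, mul_assoc,
      mul_assoc D, F.mul_cop, ← mul_assoc D, hD.1, mul_assoc]
  · rw [ad_ad_left]
    exact Submodule.sub_mem _ (F.stable (hD.2 k f hf).1) (hD.2 k _ (F.stable hf)).1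
  · rw [X.bar_ad, F.real, ad_neg_left, ad_neg_left, ad_ad_left]
    exact Submodule.neg_mem _ (Submodule.sub_mem _ (F.stable (hD.2 k f hf).2)
      (hD.2 k _ (F.stable hf)).2)

end Fac

end Pool.Agent.Hodge81
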