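import Pool.Agent.KT.Geo

/-!
# Exchanging the factors of a product
-/

set_option autoImplicit false

namespace Pool.Agent.Hodge81

open Complex Module
open Pool.Agent.KT

namespace Product

open scoped TensorProduct

variable {n a b : ℕ} {A C D : Type*} [Ring A] [Algebra ℂ A] [Ring C] [Algebra ℂ C]
  [Ring D] [Algebra ℂ D] {X : HodgeRing n A} {W : HodgeRing a C} {Z : HodgeRing b D}

/-- pullbacks from the two factors commute up to sign -/
theorem snd_mul_fst (U : Product X W Z) {p q p' q' : ℕ} {w : C} {z : D} (hw : w ∈ W.H p q)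
    (hz : z ∈ Z.H p' q') : U.snd z * U.fst w =
      (-1 : ℂ) ^ ((p + q) * (p' + q')) • (U.fst w * U.snd z) := by
  rw [X.comm p' q' p q _ _ (U.snd_mem _ _ _ hz) (U.fst_mem _ _ _ hw)]
  congr 2
  ring

theorem ext_tmul (W : HodgeRing a C) (Z : HodgeRing b D) {V : Type*} [AddCommGroup V] [Module ℂ V]
    {f g : C ⊗[ℂ] D →ₗ[ℂ] V}
    (h : ∀ p q w p' q' z, w ∈ W.H p q → z ∈ Z.H p' q' → f (w ⊗ₜ z) = g (w ⊗ₜ z)) : f = g := by
  refine TensorProduct.ext' fun w z => ?_
  refine W.induct (P := fun w => f (w ⊗ₜ z) = g (w ⊗ₜ z)) (fun p q w hw => ?_)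
    (by rw [TensorProduct.zero_tmul, map_zero, map_zero])
    (fun x y hx hy => by rw [TensorProduct.add_tmul, map_add, map_add, hx, hy]) w
  refine Z.induct (P := fun z => f (w ⊗ₜ z) = g (w ⊗ₜ z)) (fun p' q' z hz => ?_)
    (by rw [TensorProduct.tmul_zero, map_zero, map_zero])
    (fun x y hx hy => by rw [TensorProduct.tmul_add, map_add, map_add, hx, hy]) z
  exact h p q w p' q' z hw hz

/-- the swapped Kuenneth map -/
theorem swap_kuenneth (U : Product X W Z) : Function.Bijective (TensorProduct.lift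
    ((LinearMap.mul ℂ A).compl₁₂ U.snd.toLinearMap U.fst.toLinearMap)) := by
  -- the sign operator on the tensor product
  let τ : C ⊗[ℂ] D →ₗ[ℂ] C ⊗[ℂ] D :=
    TensorProduct.map (W.diag fun x => if Even (x.1 + x.2) then 1 else 0) LinearMap.id +
    TensorProduct.map (W.diag fun x => if Even (x.1 + x.2) then 0 else 1) Z.sgn
  have hτ : ∀ p q w p' q' z, w ∈ W.H p q → z ∈ Z.H p' q' →
      τ (w ⊗ₜ z) = (-1 : ℂ) ^ ((p + q) * (p' + q')) • (w ⊗ₜ[ℂ] z) := by
    intro p q w p' q' z hw hz
    change TensorProduct.map _ _ (w ⊗ₜ z) + TensorProduct.map _ _ (w ⊗ₜ z) = _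
    rw [TensorProduct.map_tmul, TensorProduct.map_tmul, W.diag_of_mem _ hw, W.diag_of_mem _ hw,
      Z.sgn_of_mem hz, LinearMap.id_apply]
    dsimp only
    by_cases he : Even (p + q)
    · rw [if_pos he, if_pos he, one_smul, zero_smul, TensorProduct.zero_tmul, add_zero, pow_mul,
        he.neg_one_pow, one_pow, one_smul]
    · rw [if_neg he, if_neg he, one_smul, zero_smul, TensorProduct.zero_tmul, zero_add,
        TensorProduct.tmul_smul, pow_mul, (Nat.not_even_iff_odd.1 he).neg_one_pow]
  have hττ : τ ∘ₗ τ = LinearMap.id := by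
    refine ext_tmul W Z fun p q w p' q' z hw hz => ?_
    rw [LinearMap.comp_apply, hτ p q w p' q' z hw hz, map_smul, hτ p q w p' q' z hw hz, smul_smul,
      ← mul_pow, LinearMap.id_apply]
    norm_num
  have hτb : Function.Bijective τ := by
    refine Function.bijective_iff_has_inverse.2 ⟨τ, fun v => ?_, fun v => ?_⟩
    · exact LinearMap.congr_fun hττ v
    · exact LinearMap.congr_fun hττ v
  have key : TensorProduct.lift
      ((LinearMap.mul ℂ A).compl₁₂ U.snd.toLinearMap U.fst.toLinearMap) =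
      U.ku.toLinearMap ∘ₗ τ ∘ₗ (TensorProduct.comm ℂ D C).toLinearMap := by
    have h1 : TensorProduct.lift
        ((LinearMap.mul ℂ A).compl₁₂ U.snd.toLinearMap U.fst.toLinearMap) ∘ₗ
        (TensorProduct.comm ℂ C D).toLinearMap = U.ku.toLinearMap ∘ₗ τ := by
      refine ext_tmul W Z fun p q w p' q' z hw hz => ?_
      rw [LinearMap.comp_apply, LinearMap.comp_apply, hτ p q w p' q' z hw hz, map_smul]
      change U.snd z * U.fst w = _ • (U.ku (w ⊗ₜ z))
      rw [ku_tmul, U.snd_mul_fst hw hz]
    rw [← LinearMap.comp_assoc, ← h1, LinearMap.comp_assoc]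
    ext x y
    simp
  rw [key]
  have h2 : Function.Bijective (U.ku.toLinearMap ∘ₗ τ ∘ₗ
      (TensorProduct.comm ℂ D C).toLinearMap) := by
    rw [LinearMap.coe_comp, LinearMap.coe_comp]
    exact U.ku.bijective.comp (hτb.comp (TensorProduct.comm ℂ D C).bijective)
  exact h2

/-- `X = W × Z` is also `Z × W` -/
noncomputable def swap (U : Product X W Z) : Product X Z W where
  dim := by rw [add_comm, U.dim]
  fst := U.snd
  snd := U.fst
  fst_mem := U.snd_mem
  snd_mem := U.fst_mem
  kuenneth := U.swap_kuenneth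

theorem swap_real {U : Product X W Z} (hU : U.Real) : U.swap.Real where
  fst_conj := hU.snd_conj
  snd_conj := hU.fst_conj

/-- the commutation rule for arbitrary elements -/
theorem snd_mul_fst' (U : Product X W Z) (x : C) (y : D) : (2 : ℂ) • (U.snd y * U.fst x) =
    U.fst x * U.snd y + U.fst (W.sgn x) * U.snd y + U.fst x * U.snd (Z.sgn y) -
      U.fst (W.sgn x) * U.snd (Z.sgn y) := by
  refine W.induct (P := fun x => (2 : ℂ) • (U.snd y * U.fst x) =
    U.fst x * U.snd y + U.fst (W.sgn x) * U.snd y + U.fst x * U.snd (Z.sgn y) -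
      U.fst (W.sgn x) * U.snd (Z.sgn y)) (fun p q w hw => ?_) (by simp) (fun x x' hx hx' => ?_) x
  · refine Z.induct (P := fun y => (2 : ℂ) • (U.snd y * U.fst w) =
      U.fst w * U.snd y + U.fst (W.sgn w) * U.snd y + U.fst w * U.snd (Z.sgn y) -
      U.fst (W.sgn w) * U.snd (Z.sgn y)) (fun p' q' z hz => ?_) (by simp)
      (fun y y' hy hy' => ?_) y
    · rw [U.snd_mul_fst hw hz, W.sgn_of_mem hw, Z.sgn_of_mem hz, map_smul, map_smul,
        smul_mul_assoc, smul_mul_assoc, mul_smul_comm]
      rcases Nat.even_or_odd (p + q) with h1 | h1 <;> rcases Nat.even_or_odd (p' + q') with h2 | h2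
      all_goals
        rw [pow_mul, h1.neg_one_pow, h2.neg_one_pow]
        try rw [one_pow]
        try rw [h2.neg_one_pow]
        module
    · rw [map_add, add_mul, smul_add, hy, hy', map_add, map_add, mul_add, mul_add, mul_add,
        mul_add]
      abel
  · rw [map_add, mul_add, smul_add, hx, hx', map_add, map_add, add_mul, add_mul, add_mul, add_mul]
    abel

/-- the commutation rule for elements of given parities -/
theorem snd_mul_fst_par (U : Product X W Z) {x : C} {y : D} {s t : ℕ}
    (hx : W.sgn x = (-1 : ℂ) ^ s • x) (hy : Z.sgn y = (-1 : ℂ) ^ t • y) :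
    U.snd y * U.fst x = (-1 : ℂ) ^ (s * t) • (U.fst x * U.snd y) := by
  have h1 := U.snd_mul_fst' x y
  rw [hx, hy, map_smul, map_smul, smul_mul_assoc, smul_mul_assoc, mul_smul_comm] at h1
  have h2 : U.snd y * U.fst x = (2 : ℂ)⁻¹ • ((2 : ℂ) • (U.snd y * U.fst x)) := by
    rw [smul_smul, inv_mul_cancel₀ (by norm_num), one_smul]
  rw [h2, h1]
  rcases Nat.even_or_odd s with h1 | h1 <;> rcases Nat.even_or_odd t with h2 | h2
  all_goals
    rw [pow_mul, h1.neg_one_pow, h2.neg_one_pow]
    try rw [one_pow]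
    try rw [h2.neg_one_pow]
    module

/-- boxes and the exchange of the factors -/
theorem swap_bx (U : Product X W Z) {i j : ℕ} {f : Module.End ℂ C} {g : Module.End ℂ D}
    (hf : W.Par i f) (hg : Z.Par j g) :
    U.swap.bx i g f = (-1 : ℂ) ^ (i * j) • U.bx j f g := by
  refine U.swap.ext_ku fun z w => ?_
  refine Z.induct (P := fun z => U.swap.bx i g f (U.swap.fst z * U.swap.snd w) =
    ((-1 : ℂ) ^ (i * j) • U.bx j f g) (U.swap.fst z * U.swap.snd w)) (fun p' q' z hz => ?_)
    (by simp) (fun x y hx hy => by rw [map_add, add_mul, map_add, map_add, hx, hy]) z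
  refine W.induct (P := fun w => U.swap.bx i g f (U.swap.fst z * U.swap.snd w) =
    ((-1 : ℂ) ^ (i * j) • U.bx j f g) (U.swap.fst z * U.swap.snd w)) (fun p q w hw => ?_)
    (by simp) (fun x y hx hy => by rw [map_add, mul_add, map_add, map_add, hx, hy]) w
  have hfw : W.sgn (f w) = (-1 : ℂ) ^ (i + (p + q)) • f w := by
    have h1 := LinearMap.congr_fun hf w
    rw [Module.End.mul_apply, LinearMap.smul_apply, Module.End.mul_apply, W.sgn_of_mem hw,
      map_smul, smul_smul, ← pow_add] at h1
    exact h1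
  have hgz : Z.sgn (g z) = (-1 : ℂ) ^ (j + (p' + q')) • g z := by
    have h1 := LinearMap.congr_fun hg z
    rw [Module.End.mul_apply, LinearMap.smul_apply, Module.End.mul_apply, Z.sgn_of_mem hz,
      map_smul, smul_smul, ← pow_add] at h1
    exact h1
  rw [bx_apply, sgn_pow_of_mem i hz, map_smul, map_smul, smul_mul_assoc, LinearMap.smul_apply]
  change _ • (U.snd (g z) * U.fst (f w)) = _ • (U.bx j f g (U.snd z * U.fst w))
  rw [U.snd_mul_fst_par hfw hgz, U.snd_mul_fst hw hz, map_smul, bx_apply, sgn_pow_of_mem j hw,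
    map_smul, map_smul, smul_mul_assoc, smul_smul, smul_smul, smul_smul, ← pow_add, ← pow_add,
    ← pow_add]
  congr 1
  have e : i * (p' + q') + (i + (p + q)) * (j + (p' + q')) =
      (i * j + (p + q) * (p' + q') + j * (p + q)) + 2 * (i * (p' + q')) := by ring
  rw [e, pow_add, pow_mul _ 2]
  norm_num

/-- the Kuenneth formula for polyvector fields after exchanging the factors -/
theorem Kuenneth.swap {U : Product X W Z} {P : PolyvectorAction X} {PW : PolyvectorAction W}
    {PZ : PolyvectorAction Z} (K : U.Kuenneth P PW PZ) : U.swap.Kuenneth P PZ PW where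
  span k l := by
    rw [K.span]
    apply le_antisymm
    · rw [Submodule.span_le]
      rintro F ⟨i, j, i', j', f, g, e1, e2, hf, hg, hb⟩
      rw [(U.isBox_iff _ f g F).1 hb]
      have h1 := U.swap_bx (W.par_total PW (PW.mem_total rfl hf))
        (Z.par_total PZ (PZ.mem_total rfl hg))
      have h2 : U.bx (i' + j') f g = (-1 : ℂ) ^ ((i + j) * (i' + j')) •
          U.swap.bx (i + j) g f := by
        rw [h1, smul_smul, ← mul_pow]
        norm_num
      rw [h2]
      refine Submodule.smul_mem _ _ (Submodule.subset_span ⟨i', j', i, j, g, f, by omega,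
        by omega, hg, hf, U.swap.isBox_bx _ _ _⟩)
    · rw [Submodule.span_le]
      rintro F ⟨i', j', i, j, g, f, e1, e2, hg, hf, hb⟩
      rw [(U.swap.isBox_iff _ g f F).1 hb, U.swap_bx (W.par_total PW (PW.mem_total rfl hf))
        (Z.par_total PZ (PZ.mem_total rfl hg))]
      refine Submodule.smul_mem _ _ (Submodule.subset_span ⟨i, j, i', j', f, g, by omega,
        by omega, hf, hg, U.isBox_bx _ _ _⟩)

end Product

end Pool.Agent.Hodge81
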