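import Pool.Agent.KT.Fac
import Pool.Agent.KT.Swap
import Pool.Agent.KT.Oper

/-!
# Factors of a factor are factors
-/

set_option autoImplicit false

namespace Pool.Agent.Hodge81

open Complex Module
open Pool.Agent.KT

namespace HodgeRing

variable {n : ℕ} {A : Type*} [Ring A] [Algebra ℂ A] (X : HodgeRing n A)

theorem sgn_column {d : ℤ} {v : A} (hv : v ∈ X.column d) :
    X.sgn v = (-1 : ℂ) ^ d.natAbs • v := by
  refine X.column_induct (P := fun v => X.sgn v = (-1 : ℂ) ^ d.natAbs • v)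
    (fun p q hpq v hv => ?_) (by rw [map_zero, smul_zero])
    (fun a b ha hb => by rw [map_add, ha, hb, smul_add]) hv
  rw [X.sgn_of_mem hv]
  congr 1
  refine neg_one_pow_congr ?_
  rw [Int.natAbs_even, ← hpq, Int.even_sub, Nat.even_add, Int.even_coe_nat, Int.even_coe_nat]

/-- operators which preserve the columns are even -/
theorem par_of_comm {e : Module.End ℂ A} (h : e * X.cop = X.cop * e) : X.Par 0 e := by
  refine PolyvectorAction.ext_H X fun p q v hv => ?_
  rw [pow_zero, one_smul, Module.End.mul_apply, Module.End.mul_apply]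
  have h1 := X.mem_column (i := (p : ℤ) - q) rfl hv
  have h2 : e v ∈ X.column ((p : ℤ) - q) := by
    refine X.mem_column_of_cop ?_
    rw [← Module.End.mul_apply, ← h, Module.End.mul_apply, X.cop_column h1, map_smul]
  rw [X.sgn_column h1, X.sgn_column h2, map_smul]

end HodgeRing

namespace Product

variable {n a b : ℕ} {A C D : Type*} [Ring A] [Algebra ℂ A] [Ring C] [Algebra ℂ C]
  [Ring D] [Algebra ℂ D] {X : HodgeRing n A} {W : HodgeRing a C} {Z : HodgeRing b D}

section slice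

variable (U : Product X W Z)

/-- slices of operators -/
noncomputable def slc (z : D) (ξ : D →ₗ[ℂ] ℂ) : Module.End ℂ A →ₗ[ℂ] Module.End ℂ C where
  toFun B := U.sr ξ ∘ₗ B ∘ₗ (LinearMap.mulRight ℂ (U.snd z)) ∘ₗ U.fst.toLinearMap
  map_add' B B' := by
    refine LinearMap.ext fun w => ?_
    change U.sr ξ ((B + B') (U.fst w * U.snd z)) = U.sr ξ (B (U.fst w * U.snd z)) +
      U.sr ξ (B' (U.fst w * U.snd z))
    rw [LinearMap.add_apply, map_add]
  map_smul' c B := by
    refine LinearMap.ext fun w => ?_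
    change U.sr ξ ((c • B) (U.fst w * U.snd z)) = c • U.sr ξ (B (U.fst w * U.snd z))
    rw [LinearMap.smul_apply, map_smul]

theorem slc_apply (z : D) (ξ : D →ₗ[ℂ] ℂ) (B : Module.End ℂ A) (w : C) :
    U.slc z ξ B w = U.sr ξ (B (U.fst w * U.snd z)) := rfl

theorem slc_bx (z : D) (ξ : D →ₗ[ℂ] ℂ) (j : ℕ) (f : Module.End ℂ C) (g : Module.End ℂ D) :
    U.slc z ξ (U.bx j f g) = ξ (g z) • (f * W.sgn ^ j) := by
  refine LinearMap.ext fun w => ?_
  rw [slc_apply, bx_apply, sr_apply, LinearMap.smul_apply, Module.End.mul_apply]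

theorem slc_left (z : D) (ξ : D →ₗ[ℂ] ℂ) (f : Module.End ℂ C) (B : Module.End ℂ A) :
    U.slc z ξ (U.bx 0 f 1 * B) = f * U.slc z ξ B := by
  have h1 : U.sr ξ ∘ₗ U.bx 0 f 1 = f ∘ₗ U.sr ξ := by
    refine U.ext_ku fun w z => ?_
    rw [LinearMap.comp_apply, LinearMap.comp_apply, bx_apply, sr_apply, sr_apply, pow_zero,
      Module.End.one_apply, Module.End.one_apply, map_smul]
  refine LinearMap.ext fun w => ?_
  rw [slc_apply, Module.End.mul_apply, Module.End.mul_apply, slc_apply]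
  exact LinearMap.congr_fun h1 _

theorem sr_ext {x : A} (h : ∀ ξ : D →ₗ[ℂ] ℂ, U.sr ξ x = 0) : x = 0 := by
  classical
  let β := Module.Basis.ofVectorSpace ℂ D
  obtain ⟨t, rfl⟩ := U.ku.surjective x
  have h1 : ∀ (ξ : D →ₗ[ℂ] ℂ) (t : TensorProduct ℂ C D), U.sr ξ (U.ku t) =
      (TensorProduct.rid ℂ C) (TensorProduct.map LinearMap.id ξ t) := by
    intro ξ t
    change (TensorProduct.rid ℂ C) (TensorProduct.map LinearMap.id ξ (U.ku.symm (U.ku t))) = _
    rw [LinearEquiv.symm_apply_apply]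
  -- the expansion in the basis
  have h2 : (TensorProduct.equivFinsuppOfBasisRight β) t = 0 := by
    ext i
    rw [TensorProduct.equivFinsuppOfBasisRight_apply]
    have h3 := h (β.coord i)
    rw [h1] at h3
    exact h3
  have h3 := (TensorProduct.equivFinsuppOfBasisRight β).map_eq_zero_iff.1 h2
  rw [h3, map_zero]

theorem slc_ext {B : Module.End ℂ A} (h : ∀ z ξ, U.slc z ξ B = 0) : B = 0 := by
  refine U.ext_ku fun w z => ?_
  rw [LinearMap.zero_apply]
  refine U.sr_ext fun ξ => ?_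
  have h1 := LinearMap.congr_fun (h z ξ) w
  rwa [slc_apply, LinearMap.zero_apply] at h1

end slice

section bars

variable {U : Product X W Z}

theorem conj_sgn_pow (j : ℕ) (w : C) : W.conj ((W.sgn ^ j) w) = (W.sgn ^ j) (W.conj w) := by
  induction j with
  | zero => rfl
  | succ j ih => rw [pow_succ', Module.End.mul_apply, Module.End.mul_apply, ← W.sgn_conj, ih]

theorem bar_bx (hU : U.Real) (j : ℕ) (f : Module.End ℂ C) (g : Module.End ℂ D) :
    X.bar (U.bx j f g) = U.bx j (W.bar f) (Z.bar g) := by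
  refine U.ext_ku fun w z => ?_
  rw [HodgeRing.bar_apply, map_mul, ← hU.fst_conj, ← hU.snd_conj, bx_apply, bx_apply, map_mul,
    ← hU.fst_conj, ← hU.snd_conj, HodgeRing.bar_apply, HodgeRing.bar_apply, conj_sgn_pow]

theorem ad_inl_bx {e : Module.End ℂ C} (he : W.Par 0 e) {i : ℕ} (j : ℕ) {f : Module.End ℂ C}
    (hf : W.Par i f) (g : Module.End ℂ D) :
    ad (U.bx 0 e 1) (U.bx j f g) = U.bx j (ad e f) g := by
  rw [ad_apply, ad_apply, U.bx_mul hf, U.bx_mul he, zero_mul, mul_zero, pow_zero, one_smul,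
    one_smul, one_mul, mul_one, zero_add, add_zero, bx_sub_left]

theorem bx_inl_mul (j : ℕ) (x : Module.End ℂ C) {i : ℕ} {y : Module.End ℂ C}
    (hy : W.Par i y) (g : Module.End ℂ D) : U.bx 0 x 1 * U.bx j y g = U.bx j (x * y) g := by
  rw [U.bx_mul hy, zero_mul, pow_zero, one_smul, zero_add, one_mul]

theorem bx_inl_zero {a : Module.End ℂ C} (h : U.bx 0 a 1 = 0) : a = 0 := by
  rcases bx_eq_zero h with h1 | h1
  · exact h1
  · exfalso
    have := Z.nontrivial
    exact one_ne_zero (α := Module.End ℂ D) h1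

/-- boxes as a linear map in the first argument -/
noncomputable def bxL (U : Product X W Z) (j : ℕ) (g : Module.End ℂ D) :
    Module.End ℂ C →ₗ[ℂ] Module.End ℂ A where
  toFun f := U.bx j f g
  map_add' f f' := U.bx_add_left j f f' g
  map_smul' c f := U.bx_smul_left j c f g

theorem bxL_apply (j : ℕ) (g : Module.End ℂ D) (f : Module.End ℂ C) :
    U.bxL j g f = U.bx j f g := rfl

end bars

section fac

variable {U : Product X W Z} {P : PolyvectorAction X} {PW : PolyvectorAction W}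
  {PZ : PolyvectorAction Z} {e : Module.End ℂ C} {m : ℕ}

/-- decomposition by the weights of `e` -/
theorem total_le_inl (K : U.Kuenneth P PW PZ) (S : Split PW.total W.cop e (W.cop - e)) (k : ℕ) :
    P.total k ≤ ⨆ l : Fin (k + 1), Submodule.span ℂ {F | ∃ j, (l : ℕ) + j ≤ k ∧
      ∃ x ∈ pt PW.total (W.cop - e) l, ∃ y ∈ pt PW.total e (k - j - l), ∃ g ∈ PZ.total j,
        F = U.bx j (x * y) g} := by
  intro F hF
  refine K.total_induct (Q := fun F => F ∈ ⨆ l : Fin (k + 1), Submodule.span ℂ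
    {F | ∃ j, (l : ℕ) + j ≤ k ∧ ∃ x ∈ pt PW.total (W.cop - e) l,
      ∃ y ∈ pt PW.total e (k - j - l), ∃ g ∈ PZ.total j, F = U.bx j (x * y) g})
    (fun i j f g F hij hf hg hb => ?_) (Submodule.zero_mem _)
    (fun x y hx hy => Submodule.add_mem _ hx hy) (fun c x hx => Submodule.smul_mem _ _ hx) hF
  rw [(U.isBox_iff _ f g F).1 hb]
  have h1 : (⨆ l : Fin (i + 1), Submodule.span ℂ {f | ∃ a ∈ pt PW.total (W.cop - e) l,
      ∃ b ∈ pt PW.total e (i - l), f = a * b}) ≤ (⨆ l : Fin (k + 1), Submodule.span ℂ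
      {F | ∃ j, (l : ℕ) + j ≤ k ∧ ∃ x ∈ pt PW.total (W.cop - e) l,
      ∃ y ∈ pt PW.total e (k - j - l), ∃ g ∈ PZ.total j, F = U.bx j (x * y) g}).comap
        (U.bxL j g) := by
    refine iSup_le fun l => Submodule.span_le.2 ?_
    rintro _ ⟨x, hx, y, hy, rfl⟩
    have hl := l.2
    refine Submodule.mem_iSup_of_mem (⟨l, by omega⟩ : Fin (k + 1)) (Submodule.subset_span ?_)
    refine ⟨j, by simp only; omega, x, hx, y, ?_, g, hg, rfl⟩
    simp only
    rw [show k - j - (l : ℕ) = i - l by omega]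
    exact hy
  exact h1 (S.span i hf)

theorem ad_inl_piece (S : Split PW.total W.cop e (W.cop - e)) (he : W.Par 0 e) {l k j : ℕ}
    {x y : Module.End ℂ C} (hx : x ∈ pt PW.total (W.cop - e) l) (hy : y ∈ pt PW.total e k)
    (g : Module.End ℂ D) :
    ad (U.bx 0 e 1) (U.bx j (x * y) g) = (-(l : ℂ)) • U.bx j (x * y) g := by
  rw [ad_inl_bx he j (W.par_total PW (PW.total_mul hx.1 hy.1)) g, ad_mul, (mem_pt.1 hy).2,
    mul_zero, add_zero, S.ad_first PW.grad hx, smul_mul_assoc, bx_smul_left]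

/-- the complement of `e` in `X` -/
theorem pt_inl_le (K : U.Kuenneth P PW PZ) (S : Split PW.total W.cop e (W.cop - e))
    (he : W.Par 0 e) (k : ℕ) : pt P.total (U.bx 0 e 1) k ≤ Submodule.span ℂ
      {F | ∃ j ≤ k, ∃ y ∈ pt PW.total e (k - j), ∃ g ∈ PZ.total j, F = U.bx j y g} := by
  intro F hF
  have h1 := mem_of_eigen (ad (U.bx 0 e 1)) (fun l : Fin (k + 1) => Submodule.span ℂ
    {F | ∃ j, (l : ℕ) + j ≤ k ∧ ∃ x ∈ pt PW.total (W.cop - e) l,
      ∃ y ∈ pt PW.total e (k - j - l), ∃ g ∈ PZ.total j, F = U.bx j (x * y) g})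
    (fun l => -((l : ℕ) : ℂ)) (fun l => ?_) (total_le_inl K S k hF.1) (l := 0)
    (by rw [(mem_pt.1 hF).2, zero_smul])
  · refine (iSup₂_le fun l hl => ?_ : (⨆ (l : Fin (k + 1)) (_ : -((l : ℕ) : ℂ) = 0),
      Submodule.span ℂ {F | ∃ j, (l : ℕ) + j ≤ k ∧ ∃ x ∈ pt PW.total (W.cop - e) l,
      ∃ y ∈ pt PW.total e (k - j - l), ∃ g ∈ PZ.total j, F = U.bx j (x * y) g}) ≤ _) h1
    rw [neg_eq_zero, Nat.cast_eq_zero] at hl
    obtain ⟨l, hlk⟩ := l
    simp only at hl
    subst hl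
    refine Submodule.span_le.2 ?_
    rintro _ ⟨j, hj, x, hx, y, hy, g, hg, rfl⟩
    obtain ⟨z, rfl⟩ := PW.total_zero_scalar hx.1
    rw [smul_mul_assoc, one_mul, bx_smul_left]
    refine Submodule.smul_mem _ _ (Submodule.subset_span ⟨j, by simpa using hj, y, ?_, g, hg, rfl⟩)
    simpa using hy
  · refine Submodule.span_le.2 ?_
    rintro _ ⟨j, hj, x, hx, y, hy, g, hg, rfl⟩
    exact Module.End.mem_eigenspace_iff.2 (ad_inl_piece S he hx hy g)

/-- the factor `e` in `X` -/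
theorem mem_pt_inl (K : U.Kuenneth P PW PZ) (S : Split PW.total W.cop e (W.cop - e))
    (he : W.Par 0 e) {k : ℕ} {F : Module.End ℂ A} :
    F ∈ pt P.total (X.cop - U.bx 0 e 1) k ↔
      ∃ x ∈ pt PW.total (W.cop - e) k, F = U.bx 0 x 1 := by
  have hsub : ∀ F, ad (X.cop - U.bx 0 e 1) F = ad X.cop F - ad (U.bx 0 e 1) F := by
    intro F
    simp only [ad_apply, sub_mul, mul_sub]
    abel
  constructor
  · intro hF
    have h0 : ad (U.bx 0 e 1) F = (-(k : ℂ)) • F := by
      have h2 := (mem_pt.1 hF).2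
      rw [hsub, X.ad_cop P hF.1, sub_eq_zero] at h2
      exact h2.symm
    have h1 := mem_of_eigen (ad (U.bx 0 e 1)) (fun l : Fin (k + 1) => Submodule.span ℂ
      {F | ∃ j, (l : ℕ) + j ≤ k ∧ ∃ x ∈ pt PW.total (W.cop - e) l,
        ∃ y ∈ pt PW.total e (k - j - l), ∃ g ∈ PZ.total j, F = U.bx j (x * y) g})
      (fun l => -((l : ℕ) : ℂ)) (fun l => ?_) (total_le_inl K S k hF.1) h0
    · have h2 : (⨆ (l : Fin (k + 1)) (_ : -((l : ℕ) : ℂ) = -(k : ℂ)),
          Submodule.span ℂ {F | ∃ j, (l : ℕ) + j ≤ k ∧ ∃ x ∈ pt PW.total (W.cop - e) l,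
          ∃ y ∈ pt PW.total e (k - j - l), ∃ g ∈ PZ.total j, F = U.bx j (x * y) g}) ≤
          (pt PW.total (W.cop - e) k).map (U.bxL 0 1) := by
        refine iSup₂_le fun l hl => ?_
        obtain ⟨l, hlk⟩ := l
        obtain rfl : l = k := KT.neg_inj hl
        refine Submodule.span_le.2 ?_
        rintro _ ⟨j, hj, x, hx, y, hy, g, hg, rfl⟩
        obtain rfl : j = 0 := by
          simp only at hj
          omega
        have hy' : y ∈ PW.total 0 := by
          have := hy.1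
          simpa using this
        obtain ⟨z, rfl⟩ := PW.total_zero_scalar hy'
        obtain ⟨z', rfl⟩ := PZ.total_zero_scalar hg
        refine ⟨(z * z') • x, Submodule.smul_mem _ _ hx, ?_⟩
        rw [bxL_apply, bx_smul_left, bx_smul_right, mul_smul_comm, mul_one, bx_smul_left,
          smul_smul, mul_comm z z']
      obtain ⟨x, hx, ex⟩ := h2 h1
      exact ⟨x, hx, ex.symm⟩
    · refine Submodule.span_le.2 ?_
      rintro _ ⟨j, hj, x, hx, y, hy, g, hg, rfl⟩
      exact Module.End.mem_eigenspace_iff.2 (ad_inl_piece S he hx hy g)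
  · rintro ⟨x, hx, rfl⟩
    have h1 := K.bx_mem (i := k) (j := 0) hx.1 PZ.one_total
    rw [add_zero] at h1
    refine mem_pt.2 ⟨h1, ?_⟩
    rw [hsub, X.ad_cop P h1, ad_inl_bx he 0 (W.par_total PW hx.1) 1, S.ad_first PW.grad hx,
      bx_smul_left, sub_self]

/-- the splitting of `X` given by a splitting of the first factor -/
theorem split_inl [FiniteDimensional ℂ A] (K : U.Kuenneth P PW PZ)
    (S : Split PW.total W.cop e (W.cop - e)) (hcop : e * W.cop = W.cop * e) :
    Split P.total X.cop (U.bx 0 e 1) (X.cop - U.bx 0 e 1) := by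
  have he := W.par_of_comm hcop
  have hE : U.bx 0 e 1 * X.cop = X.cop * U.bx 0 e 1 := by
    rw [← U.cl_add_cr, mul_add, add_mul, cl, cr, U.bx_mul par_cop, U.bx_mul par_one,
      U.bx_mul he, U.bx_mul he, hcop]
    simp
  have hEcr : U.bx 0 e 1 * U.cr = U.cr * U.bx 0 e 1 := by
    rw [cr, U.bx_mul par_one, U.bx_mul he]
    simp
  refine ⟨by abel, by rw [mul_sub, sub_mul, hE], fun k => ?_, fun i j F hF G hG h0 => ?_⟩
  · refine (total_le_inl K S k).trans (iSup_mono fun l => Submodule.span_le.2 ?_)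
    rintro _ ⟨j, hj, x, hx, y, hy, g, hg, rfl⟩
    refine Submodule.subset_span ⟨U.bx 0 x 1, (mem_pt_inl K S he).2 ⟨x, hx, rfl⟩,
      U.bx j y g, mem_pt.2 ⟨?_, ?_⟩, (bx_inl_mul j x (W.par_total PW hy.1) g).symm⟩
    · have h1 := K.bx_mem hy.1 hg
      rwa [show k - j - (l : ℕ) + j = k - l by omega] at h1
    · rw [ad_inl_bx he j (W.par_total PW hy.1) g, (mem_pt.1 hy).2, bx_zero_left]
  · obtain ⟨x, hx, rfl⟩ := (mem_pt_inl K S he).1 hF
    by_cases hx0 : x = 0
    · left
      rw [hx0, bx_zero_left]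
    right
    -- the subspace of the elements which are killed
    let N : Submodule ℂ (Module.End ℂ A) := pt P.total (U.bx 0 e 1) j ⊓
      LinearMap.ker (LinearMap.mulLeft ℂ (U.bx 0 x 1))
    have hN : N ≤ ⊥ := by
      refine (K.split.swap P.grad).inv_le P.grad (k := j) (N := N) (fun f hf => hf.1.1)
        (fun f hf => ?_) (fun s hs f hf hfs => ?_)
      · refine ⟨mem_pt.2 ⟨(K.split.swap P.grad).stable P.grad hf.1.1, ?_⟩, ?_⟩
        · rw [ad_ad hEcr, (mem_pt.1 hf.1).2, map_zero]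
        · have h1 : U.bx 0 x 1 * f = 0 := hf.2
          have h2 : ad U.cr (U.bx 0 x 1 * f) = 0 := by rw [h1, map_zero]
          rw [ad_mul, ad_cr_bx i hx.1 PZ.one_total, Nat.cast_zero, neg_zero, zero_smul, zero_mul,
            zero_add] at h2
          exact h2
      · -- an element of weight `s` for the second factor
        have h1 : f ∈ Submodule.span ℂ {F | ∃ y ∈ pt PW.total e (j - s), ∃ g ∈ PZ.total s,
            F = U.bx s y g} := by
          have h2 := mem_of_eigen (ad U.cr) (fun s : Fin (j + 1) => Submodule.span ℂ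
            {F | ∃ y ∈ pt PW.total e (j - s), ∃ g ∈ PZ.total s, F = U.bx s y g})
            (fun s => -((s : ℕ) : ℂ)) (fun s => ?_) (F := f) ?_ (mem_wt.1 hfs)
          · refine (iSup₂_le fun l hl => ?_ : (⨆ (s_1 : Fin (j + 1))
              (_ : -((s_1 : ℕ) : ℂ) = -(s : ℂ)), Submodule.span ℂ
              {F | ∃ y ∈ pt PW.total e (j - s_1), ∃ g ∈ PZ.total s_1, F = U.bx s_1 y g}) ≤ _) h2
            rw [KT.neg_inj hl]
          · refine Submodule.span_le.2 ?_
            rintro _ ⟨y, hy, g, hg, rfl⟩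
            exact Module.End.mem_eigenspace_iff.2 (ad_cr_bx _ hy.1 hg)
          · refine (Submodule.span_le.2 ?_ : Submodule.span ℂ {F | ∃ i ≤ j,
              ∃ y ∈ pt PW.total e (j - i), ∃ g ∈ PZ.total i, F = U.bx i y g} ≤ _)
              (pt_inl_le K S he j hf.1)
            rintro _ ⟨i, hi, y, hy, g, hg, rfl⟩
            exact Submodule.mem_iSup_of_mem (⟨i, by omega⟩ : Fin (j + 1))
              (Submodule.subset_span ⟨y, hy, g, hg, rfl⟩)
        rw [Submodule.mem_bot]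
        refine U.slc_ext fun z ξ => ?_
        -- the slices
        have h3 : ∃ y ∈ pt PW.total e (j - s), U.slc z ξ f = y * W.sgn ^ s := by
          refine Submodule.span_induction (p := fun f _ => ∃ y ∈ pt PW.total e (j - s),
            U.slc z ξ f = y * W.sgn ^ s) ?_ ⟨0, Submodule.zero_mem _, by rw [map_zero, zero_mul]⟩
            ?_ ?_ h1
          · rintro _ ⟨y, hy, g, hg, rfl⟩
            refine ⟨ξ (g z) • y, Submodule.smul_mem _ _ hy, ?_⟩
            rw [slc_bx, smul_mul_assoc]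
          · rintro f f' _ _ ⟨y, hy, h4⟩ ⟨y', hy', h5⟩
            exact ⟨y + y', Submodule.add_mem _ hy hy', by rw [map_add, h4, h5, add_mul]⟩
          · rintro c f _ ⟨y, hy, h4⟩
            exact ⟨c • y, Submodule.smul_mem _ _ hy, by rw [map_smul, h4, smul_mul_assoc]⟩
        obtain ⟨y, hy, hs⟩ := h3
        have h4 : x * (y * W.sgn ^ s) = 0 := by
          have h5 : U.bx 0 x 1 * f = 0 := hf.2
          rw [← hs, ← slc_left, h5, map_zero]
        have h5 : x * y = 0 := by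
          have h6 : x * (y * W.sgn ^ s) * W.sgn ^ s = x * y := by
            rw [mul_assoc, mul_assoc, ← (Commute.refl W.sgn).mul_pow, W.sgn_mul_sgn, one_pow,
              mul_one]
          rw [← h6, h4, zero_mul]
        rcases S.cross i (j - s) x hx y hy h5 with h6 | h6
        · exact absurd h6 hx0
        · rw [hs, h6, zero_mul]
    have h1 : G ∈ N := ⟨hG, h0⟩
    exact (Submodule.mem_bot ℂ).1 (hN h1)

/-- the value on the holomorphic volume forms -/
theorem gen_inl [FiniteDimensional ℂ C] [FiniteDimensional ℂ D] (U : Product X W Z)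
    (h : ∀ s ∈ W.H a 0, e s = (m : ℂ) • s) :
    ∀ s ∈ X.H n 0, U.bx 0 e 1 s = (m : ℂ) • s := by
  have h1 := (U.hbasis W.hbasis Z.hbasis).span_eq (n, 0)
  change _ = X.H n 0 at h1
  have h2 : X.H n 0 ≤ LinearMap.ker (U.bx 0 e 1 - (m : ℂ) • (1 : Module.End ℂ A)) := by
    rw [← h1, Submodule.span_le]
    rintro _ ⟨⟨i, j⟩, hij, rfl⟩
    rw [hbasis_apply]
    have h2 : W.hbasis.deg i + Z.hbasis.deg j = (n, 0) := hij
    have h3 : (W.hbasis.deg i).1 + (Z.hbasis.deg j).1 = n := (Prod.ext_iff.1 h2).1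
    have h4 : (W.hbasis.deg i).2 + (Z.hbasis.deg j).2 = 0 := (Prod.ext_iff.1 h2).2
    have h5 := W.hbasis.mem i
    have h6 := W.hbasis.deg_le i
    have h7 := Z.hbasis.deg_le j
    have h8 := U.dim
    have h9 : (W.hbasis.deg i).1 = a := by omega
    have h10 : (W.hbasis.deg i).2 = 0 := by omega
    rw [h9, h10] at h5
    change (U.bx 0 e 1 - (m : ℂ) • (1 : Module.End ℂ A)) (U.fst _ * U.snd _) = 0
    rw [LinearMap.sub_apply, LinearMap.smul_apply, Module.End.one_apply, bx_apply, pow_zero,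
      Module.End.one_apply, Module.End.one_apply, h _ h5, map_smul, smul_mul_assoc, sub_self]
  intro s hs
  have h3 := h2 hs
  rw [LinearMap.mem_ker, LinearMap.sub_apply, sub_eq_zero] at h3
  rw [h3]
  rfl

/-- the data of a strict Calabi-Yau factor are inherited -/
theorem data_inl (K : U.Kuenneth P PW PZ) (S : Split PW.total W.cop e (W.cop - e))
    (he : W.Par 0 e) {w : Module.End ℂ C} (hC : CYData PW.total (W.cop - e) m w) :
    CYData P.total (X.cop - U.bx 0 e 1) m (U.bx 0 w 1) := by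
  have hmul : ∀ {i j : ℕ} {x y : Module.End ℂ C}, y ∈ pt PW.total (W.cop - e) j →
      U.bx 0 x 1 * U.bx 0 y 1 = U.bx 0 (x * y) 1 := fun hy =>
    bx_inl_mul 0 _ (W.par_total PW hy.1) 1
  refine ⟨hC.three, fun h => hC.ne (bx_inl_zero h), (mem_pt_inl K S he).2 ⟨w, hC.mem, rfl⟩,
    ?_, ?_, ?_, ?_⟩
  · obtain ⟨u, hu, u', hu', e1, hk⟩ := hC.pair
    refine ⟨_, (mem_pt_inl K S he).2 ⟨u, hu, rfl⟩, _, (mem_pt_inl K S he).2 ⟨u', hu', rfl⟩,
      ?_, fun k h0 hkm f hf => ?_⟩
    · rw [bx_inl_mul 0 _ (W.par_total PW hu'.1) 1, e1]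
    · obtain ⟨x, hx, rfl⟩ := (mem_pt_inl K S he).1 hf
      obtain ⟨h1, h2⟩ := hk k h0 hkm x hx
      rw [bx_inl_mul 0 _ (W.par_total PW hx.1) 1, bx_inl_mul 0 _ (W.par_total PW hx.1) 1, h1, h2,
        bx_zero_left]
      exact ⟨rfl, rfl⟩
  · intro f hf
    obtain ⟨x, hx, rfl⟩ := (mem_pt_inl K S he).1 hf
    obtain ⟨z, rfl⟩ := hC.top x hx
    exact ⟨z, by rw [bx_smul_left]⟩
  · intro k f hf h0
    obtain ⟨x, hx, rfl⟩ := (mem_pt_inl K S he).1 hf
    have hx0 : x ≠ 0 := by
      rintro rfl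
      exact h0 (by rw [bx_zero_left])
    obtain ⟨h1, x', hx', e1⟩ := hC.pd k x hx hx0
    refine ⟨h1, _, (mem_pt_inl K S he).2 ⟨x', hx', rfl⟩, ?_⟩
    rw [bx_inl_mul 0 _ (W.par_total PW hx'.1) 1, e1]
  · have h1 : pt P.total (X.cop - U.bx 0 e 1) m = (pt PW.total (W.cop - e) m).map (U.bxL 0 1) := by
      ext f
      rw [mem_pt_inl K S he]
      constructor
      · rintro ⟨x, hx, rfl⟩
        exact ⟨x, hx, rfl⟩
      · rintro ⟨x, hx, rfl⟩
        exact ⟨x, hx, rfl⟩
    rw [h1, finrank_map_of_inj' _ _ fun v _ hv => bx_inl_zero hv]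
    exact hC.dim

end fac

end Product

section inherit

variable {n a b : ℕ} {A C D : Type*} [Ring A] [Algebra ℂ A] [FiniteDimensional ℂ A]
  [Ring C] [Algebra ℂ C] [FiniteDimensional ℂ C] [Ring D] [Algebra ℂ D] [FiniteDimensional ℂ D]
  {X : HodgeRing n A} {W : HodgeRing a C} {Z : HodgeRing b D}
  {U : Product X W Z} {P : PolyvectorAction X} {PW : PolyvectorAction W}
  {PZ : PolyvectorAction Z} {m : ℕ}

open Product

/-- ROW F2: a factor of the first factor is a factor -/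
theorem Fac.inl (K : U.Kuenneth P PW PZ) (hU : U.Real) {e : Module.End ℂ C}
    (F : Fac PW e m) : Fac P (U.bx 0 e 1) m := by
  have he := W.par_of_comm F.mul_cop
  refine ⟨split_inl K F.split F.mul_cop, ?_, gen_inl U F.gen, ?_, ?_, ?_⟩
  · rw [bar_bx hU, F.real, Z.bar_one]
    refine LinearMap.ext fun v => ?_
    have h1 : U.bx 0 (-e) (1 : Module.End ℂ D) + U.bx 0 e 1 = 0 := by
      rw [← bx_add_left, neg_add_cancel, bx_zero_left]
    rw [eq_neg_of_add_eq_zero_left h1]
  · obtain ⟨w, hw⟩ := F.data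
    exact ⟨_, data_inl K F.split he hw⟩
  · rw [eq_bot_iff]
    intro f hf
    obtain ⟨x, hx, rfl⟩ := (mem_pt_inl K F.split he).1 hf
    rw [F.one, Submodule.mem_bot] at hx
    rw [hx, bx_zero_left]
    exact Submodule.zero_mem _
  · intro i g hg k f hf
    obtain ⟨x, hx, rfl⟩ := (mem_pt_inl K F.split he).1 hf
    refine Submodule.span_induction (p := fun g _ => X.bar g * U.bx 0 x 1 =
      (-1 : ℂ) ^ (i * k) • (U.bx 0 x 1 * X.bar g)) ?_ ?_ ?_ ?_ (pt_inl_le K F.split he i hg)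
    · rintro _ ⟨j, hj, y, hy, g', hg', rfl⟩
      have hpy := W.par_bar (W.par_total PW hy.1)
      rw [bar_bx hU, U.bx_mul (W.par_total PW hx.1), bx_inl_mul j x hpy, F.super _ y hy k x hx,
        bx_smul_left, smul_smul, ← pow_add, mul_one, add_zero]
      congr 2
      rw [← add_mul]
      congr 1
      omega
    · rw [X.bar_zero, zero_mul, mul_zero, smul_zero]
    · intro g g' _ _ h1 h2
      rw [X.bar_add, add_mul, mul_add, h1, h2, smul_add]
    · intro c g _ h1
      rw [X.bar_smul, smul_mul_assoc, mul_smul_comm, h1, smul_comm]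

/-- ROW F3: a factor of the second factor is a factor -/
theorem Fac.inr (K : U.Kuenneth P PW PZ) (hU : U.Real) {e : Module.End ℂ D}
    (F : Fac PZ e m) : Fac P (U.bx 0 1 e) m := by
  have h1 := Fac.inl K.swap (swap_real hU) F
  rwa [U.swap_bx par_one (Z.par_of_comm F.mul_cop), zero_mul, pow_zero, one_smul] at h1

omit [FiniteDimensional ℂ A] in
/-- the classes of type `(1, 1)` on a product -/
theorem Product.H_one_one (U : Product X W Z) (h01 : W.h 0 1 = 0 ∨ Z.h 0 1 = 0) :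
    X.H 1 1 ≤ (W.H 1 1).map U.fst.toLinearMap ⊔ (Z.H 1 1).map U.snd.toLinearMap := by
  have h1 := (U.hbasis W.hbasis Z.hbasis).span_eq (1, 1)
  change _ = X.H 1 1 at h1
  rw [← h1, Submodule.span_le]
  rintro _ ⟨⟨i, j⟩, hij, rfl⟩
  rw [hbasis_apply]
  have h2 : W.hbasis.deg i + Z.hbasis.deg j = (1, 1) := hij
  have h3 : (W.hbasis.deg i).1 + (Z.hbasis.deg j).1 = 1 := (Prod.ext_iff.1 h2).1
  have h4 : (W.hbasis.deg i).2 + (Z.hbasis.deg j).2 = 1 := (Prod.ext_iff.1 h2).2
  have h5 := W.hbasis.mem i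
  have h6 := Z.hbasis.mem j
  have hW0 : W.h 0 1 = 0 → W.H 0 1 = ⊥ ∧ W.H 1 0 = ⊥ := fun h => by
    refine ⟨Submodule.finrank_eq_zero.1 h, ?_⟩
    have h' := W.h_conj 0 1
    rw [h] at h'
    exact Submodule.finrank_eq_zero.1 h'.symm
  have hZ0 : Z.h 0 1 = 0 → Z.H 0 1 = ⊥ ∧ Z.H 1 0 = ⊥ := fun h => by
    refine ⟨Submodule.finrank_eq_zero.1 h, ?_⟩
    have h' := Z.h_conj 0 1
    rw [h] at h'
    exact Submodule.finrank_eq_zero.1 h'.symm
  have hWne := W.hbasis.basis.ne_zero i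
  have hZne := Z.hbasis.basis.ne_zero j
  obtain ⟨hp, hp'⟩ | ⟨hp, hp'⟩ : ((W.hbasis.deg i).1 = 1 ∧ (Z.hbasis.deg j).1 = 0) ∨
      ((W.hbasis.deg i).1 = 0 ∧ (Z.hbasis.deg j).1 = 1) := by omega
  · obtain ⟨hq, hq'⟩ | ⟨hq, hq'⟩ : ((W.hbasis.deg i).2 = 1 ∧ (Z.hbasis.deg j).2 = 0) ∨
        ((W.hbasis.deg i).2 = 0 ∧ (Z.hbasis.deg j).2 = 1) := by omega
    · rw [hp, hq] at h5
      rw [hp', hq'] at h6
      obtain ⟨c, hc⟩ := Z.unit_span h6
      refine Submodule.mem_sup_left ⟨c • W.hbasis.basis i, Submodule.smul_mem _ _ h5, ?_⟩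
      rw [hc]
      change U.fst (c • W.hbasis.basis i) = _
      rw [map_smul, map_smul, map_one, mul_smul_comm, mul_one]
    · rw [hp, hq] at h5
      rw [hp', hq'] at h6
      exfalso
      rcases h01 with h | h
      · rw [(hW0 h).2, Submodule.mem_bot] at h5
        exact hWne h5
      · rw [(hZ0 h).1, Submodule.mem_bot] at h6
        exact hZne h6
  · obtain ⟨hq, hq'⟩ | ⟨hq, hq'⟩ : ((W.hbasis.deg i).2 = 1 ∧ (Z.hbasis.deg j).2 = 0) ∨
        ((W.hbasis.deg i).2 = 0 ∧ (Z.hbasis.deg j).2 = 1) := by omega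
    · rw [hp, hq] at h5
      rw [hp', hq'] at h6
      exfalso
      rcases h01 with h | h
      · rw [(hW0 h).1, Submodule.mem_bot] at h5
        exact hWne h5
      · rw [(hZ0 h).2, Submodule.mem_bot] at h6
        exact hZne h6
    · rw [hp, hq] at h5
      rw [hp', hq'] at h6
      obtain ⟨c, hc⟩ := W.unit_span h5
      refine Submodule.mem_sup_right ⟨c • Z.hbasis.basis j, Submodule.smul_mem _ _ h6, ?_⟩
      rw [hc]
      change U.snd (c • Z.hbasis.basis j) = _
      rw [map_smul, map_smul, map_one, smul_mul_assoc, one_mul]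

omit [FiniteDimensional ℂ A] in
/-- classes of type `(1, 1)` are central -/
theorem HodgeRing.central_one_one {z v : A} (hz : z ∈ X.H 1 1) : z * v = v * z := by
  refine X.induct (P := fun v => z * v = v * z) (fun p q v hv => ?_) (by simp)
    (fun x y hx hy => by rw [mul_add, add_mul, hx, hy]) v
  rw [X.comm 1 1 p q z v hz hv]
  rw [show (1 + 1) * (p + q) = 2 * (p + q) by ring, pow_mul]
  norm_num

theorem FacX.inl (K : U.Kuenneth P PW PZ) (hU : U.Real) (h01 : W.h 0 1 = 0 ∨ Z.h 0 1 = 0)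
    {e : Module.End ℂ C} (F : FacX PW e m) : FacX P (U.bx 0 e 1) m := by
  have he := W.par_of_comm F.mul_cop
  refine ⟨F.toFac.inl K hU, fun f hf => ?_⟩
  obtain ⟨x, hx, rfl⟩ := (mem_pt_inl K F.split he).1 hf
  obtain ⟨h1, h2⟩ := F.kill x hx
  refine ⟨?_, fun z hz v => ?_⟩
  · have h3 := U.bx_apply 0 x 1 1 1
    rw [map_one, map_one, mul_one, pow_zero, Module.End.one_apply, Module.End.one_apply, h1,
      map_zero, zero_mul] at h3
    exact h3
  · obtain ⟨_, ⟨z1, hz1, rfl⟩, _, ⟨z2, hz2, rfl⟩, rfl⟩ :=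
      Submodule.mem_sup.1 (U.H_one_one h01 hz)
    have h3 : U.bx 0 x 1 ∘ₗ LinearMap.mulLeft ℂ (U.fst z1 + U.snd z2) =
        LinearMap.mulLeft ℂ (U.fst z1 + U.snd z2) ∘ₗ U.bx 0 x 1 := by
      refine U.ext_ku fun w y => ?_
      have e2 : U.snd z2 * U.fst w = U.fst w * U.snd z2 :=
        HodgeRing.central_one_one (U.snd_mem _ _ _ hz2)
      have e3 : U.snd z2 * U.fst (x w) = U.fst (x w) * U.snd z2 :=
        HodgeRing.central_one_one (U.snd_mem _ _ _ hz2)
      rw [LinearMap.comp_apply, LinearMap.comp_apply, LinearMap.mulLeft_apply,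
        LinearMap.mulLeft_apply, add_mul, map_add, ← mul_assoc, ← map_mul, bx_apply, bx_apply,
        ← mul_assoc, e2, mul_assoc (U.fst w), ← map_mul, bx_apply]
      simp only [pow_zero, Module.End.one_apply]
      rw [h2 z1 hz1, map_mul, map_mul, add_mul, mul_assoc, ← mul_assoc (U.snd z2), e3]
      simp only [mul_assoc]
    exact LinearMap.congr_fun h3 v

theorem FacX.inr (K : U.Kuenneth P PW PZ) (hU : U.Real) (h01 : W.h 0 1 = 0 ∨ Z.h 0 1 = 0)
    {e : Module.End ℂ D} (F : FacX PZ e m) : FacX P (U.bx 0 1 e) m := by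
  have h1 := FacX.inl K.swap (swap_real hU) h01.symm F
  rwa [U.swap_bx par_one (Z.par_of_comm F.mul_cop), zero_mul, pow_zero, one_smul] at h1

end inherit

end Pool.Agent.Hodge81
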