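import Pool.Agent.Helper51.SY.Sig
import Pool.Agent.Helper28.HT.Basic

/-!
# The signatures of the columns under isomorphisms which do not commute with conjugation
-/

set_option autoImplicit false

namespace Pool.Agent.KT

open Complex Module Pool.Agent.Hodge81

section toForm

variable {n : ℕ} {A : Type*} [Ring A] [Algebra ℂ A]

/-- The polarised bigraded space of a Hodge ring. -/
noncomputable def toForm (X : HodgeRing n A) : HodgeForm n A where
  H := X.H
  internal := X.internal
  bounded := X.bounded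
  conj := X.conj.toAddMonoidHom
  conj_smul := X.conj_smul
  conj_conj := X.conj_conj
  conj_mem := X.conj_mem
  B := LinearMap.mk₂ ℂ (fun a b => X.int (a * b)) (fun a a' b => by rw [add_mul, map_add])
    (fun z a b => by rw [smul_mul_assoc, map_smul]) (fun a b b' => by rw [mul_add, map_add])
    (fun z a b => by rw [mul_smul_comm, map_smul])
  B_conj := fun a b => by
    have h := X.int_conj (a * b)
    rw [map_mul] at h
    exact h
  B_off := fun p q p' q' a b ha hb h => X.int_off _ _ _ (X.mul_mem _ _ _ _ _ _ ha hb) h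
  B_comm := fun p q p' q' a b ha hb => by
    simp only [LinearMap.mk₂_apply]
    rw [X.comm _ _ _ _ _ _ ha hb, map_smul, smul_eq_mul]
  nondeg := fun a h => X.poincare a h
  L := LinearMap.mulLeft ℂ X.omega
  L_mem := fun p q a ha => by
    have h := X.mul_mem _ _ _ _ _ _ X.omega_mem ha
    rwa [add_comm 1 p, add_comm 1 q] at h
  L_conj := fun a => by
    have h := map_mul X.conj X.omega a
    rw [X.omega_real] at h
    exact h
  L_adj := fun a b => by
    simp only [LinearMap.mk₂_apply, LinearMap.mulLeft_apply]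
    rw [← mul_assoc, X.omega_central]
  hodgeRiemann := fun p q a ha hpq h h0 => by
    rw [LinearMap.pow_mulLeft] at h ⊢
    exact X.hodgeRiemann p q a ha hpq h h0

theorem toForm_H (X : HodgeRing n A) (p q : ℕ) : (toForm X).H p q = X.H p q := rfl

theorem toForm_h (X : HodgeRing n A) (p q : ℕ) : (toForm X).h p q = X.h p q := rfl

theorem toForm_column (X : HodgeRing n A) (i : ℤ) : (toForm X).column i = X.column i := rfl

theorem toForm_form (X : HodgeRing n A) (v w : A) :
    (toForm X).form v w = (X.sesq v w).re + (X.sesq w v).re := rfl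

end toForm

section Iso

variable {n : ℕ} {A B : Type*} [AddCommGroup A] [Module ℂ A] [FiniteDimensional ℂ A]
  [AddCommGroup B] [Module ℂ B] [FiniteDimensional ℂ B]

/-- An isomorphism which maps columns onto columns and multiplies the form on each column by a
positive constant. -/
structure ColIso (X : HodgeForm n A) (Y : HodgeForm n B) (phi : A ≃ₗ[ℂ] B) (κ : ℝ) : Prop where
  pos : 0 < κ
  column : ∀ i, (X.column i).map phi.toLinearMap = Y.column i
  form : ∀ i, ∀ v ∈ X.column i, Y.form (phi v) (phi v) = κ * X.form v v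

namespace ColIso

variable {X : HodgeForm n A} {Y : HodgeForm n B} {phi : A ≃ₗ[ℂ] B} {κ : ℝ}

omit [FiniteDimensional ℂ A] in
theorem transfer_le (hphi : ColIso X Y phi κ) {a b r : ℕ} (hn : a + b + 2 * r = n)
    (hab : a = 0 ∨ b = 0) {s t : ℕ} (hst : s + t = 1) :
    finrank ℂ (X.semi a b r s) + finrank ℂ (Y.semi a b r t) ≤
      finrank ℂ (⨆ j ∈ Finset.range (2 * r + 1), Y.H (a + j) (b + j) : Submodule ℂ B) := by
  set e : ℝ := (-1 : ℝ) ^ (b + r + n * (n - 1) / 2) * (-1) ^ s with he
  have he0 : e ≠ 0 := by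
    rw [he]
    exact mul_ne_zero (pow_ne_zero _ (by norm_num)) (pow_ne_zero _ (by norm_num))
  set C : Submodule ℂ B := ⨆ j ∈ Finset.range (2 * r + 1), Y.H (a + j) (b + j) with hC
  have hfd : FiniteDimensional ℝ B := FiniteDimensional.complexToReal B
  have hcol := hphi.column ((a : ℤ) - (b : ℤ))
  have hX := X.column_eq hn hab
  rw [X.column_eq hn hab, Y.column_eq hn hab] at hcol
  have key := finrank_add_le' (e • Y.form)
    (fun v w => by simp only [LinearMap.smul_apply, Y.form_symm v w])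
    (C.restrictScalars ℝ)
    (fun v hv h => Y.form_nondeg hn hv fun w hw => by
      have := h w hw
      simp only [LinearMap.smul_apply, smul_eq_mul] at this
      exact (mul_eq_zero.1 this).resolve_left he0)
    (((X.semi a b r s).map phi.toLinearMap).restrictScalars ℝ)
    ((Y.semi a b r t).restrictScalars ℝ)
    (by
      rintro _ ⟨y, hy, rfl⟩
      have : phi y ∈ C := by
        rw [hC, ← hcol]
        exact Submodule.mem_map_of_mem (X.semi_le a b r s hy)
      exact this)
    (fun y hy => Y.semi_le a b r t hy)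
    (by
      rintro _ ⟨y, hy, rfl⟩
      have h1 := X.form_semi hn hy
      have h2 : Y.form (phi y) (phi y) = κ * X.form y y :=
        hphi.form ((a : ℤ) - (b : ℤ)) y (by rw [hX]; exact X.semi_le a b r s hy)
      simp only [LinearMap.smul_apply, smul_eq_mul, LinearEquiv.coe_coe]
      rw [h2]
      have h3 := mul_nonneg hphi.pos.le h1
      calc (0 : ℝ) ≤ κ * ((-1 : ℝ) ^ (b + r + n * (n - 1) / 2) * (-1) ^ s * X.form y y) := h3
        _ = _ := by rw [he]; ring)
    (by
      intro z hz
      have h1 := Y.form_semi hn hz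
      have h3 : (-1 : ℝ) ^ s = -(-1) ^ t := by
        rcases Nat.eq_zero_or_pos s with h | h
        · have ht : t = 1 := by omega
          subst ht
          rw [h]
          norm_num
        · have hs : s = 1 := by omega
          have ht : t = 0 := by omega
          subst ht
          rw [hs]
          norm_num
      simp only [LinearMap.smul_apply, smul_eq_mul]
      rw [he, h3]
      linarith)
  rw [finrank_restrict, finrank_restrict, finrank_restrict] at key
  have h4 : finrank ℂ ((X.semi a b r s).map phi.toLinearMap) = finrank ℂ (X.semi a b r s) :=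
    (phi.submoduleMap (X.semi a b r s)).symm.finrank_eq
  rw [h4] at key
  omega

omit [FiniteDimensional ℂ A] [FiniteDimensional ℂ B] in
/-- the dimension of a column -/
theorem column_finrank (hphi : ColIso X Y phi κ) (i : ℤ) :
    finrank ℂ (X.column i) = finrank ℂ (Y.column i) := by
  rw [← hphi.column i]
  exact (phi.submoduleMap (X.column i)).finrank_eq

theorem transfer (hphi : ColIso X Y phi κ) {a b r : ℕ} (hn : a + b + 2 * r = n)
    (hab : a = 0 ∨ b = 0) :
    finrank ℂ (X.semi a b r 0) = finrank ℂ (Y.semi a b r 0) ∧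
      finrank ℂ (X.semi a b r 1) = finrank ℂ (Y.semi a b r 1) := by
  have h1 := transfer_le hphi hn hab (s := 0) (t := 1) rfl
  have h2 := transfer_le hphi hn hab (s := 1) (t := 0) rfl
  have hX := (X.dims hn hab).2.2
  have hY := (Y.dims hn hab).2.2
  have hc := column_finrank hphi ((a : ℤ) - (b : ℤ))
  rw [X.column_eq hn hab, Y.column_eq hn hab] at hc
  constructor <;> omega

/-- the numerical consequences -/
theorem main_aux (hphi : ColIso X Y phi κ) {p q : ℕ} (hpq : p + q = n) :
    (∑ k ∈ Finset.range (min p q + 1), (if k % 2 = 1 then X.h (p - k) (q - k) else 0) =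
      ∑ k ∈ Finset.range (min p q + 1), (if k % 2 = 1 then Y.h (p - k) (q - k) else 0)) ∧
    (2 * ∑ k ∈ Finset.range (min p q + 1), (if k % 2 = 0 then X.h (p - k) (q - k) else 0) +
        Y.h p q =
      2 * ∑ k ∈ Finset.range (min p q + 1), (if k % 2 = 0 then Y.h (p - k) (q - k) else 0) +
        X.h p q) := by
  obtain ⟨a, b, r, hp, hq, hr, hab⟩ : ∃ a b r, p = a + r ∧ q = b + r ∧ min p q = r ∧
      (a = 0 ∨ b = 0) := by
    refine ⟨p - min p q, q - min p q, min p q, ?_, ?_, rfl, ?_⟩ <;> omega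
  have hn : a + b + 2 * r = n := by omega
  obtain ⟨t0, t1⟩ := transfer hphi hn hab
  obtain ⟨x0, x1, -⟩ := X.dims hn hab
  obtain ⟨y0, y1, -⟩ := Y.dims hn hab
  have e : ∀ (h : ℕ → ℕ → ℕ) (t : ℕ),
      ∑ k ∈ Finset.range (r + 1), (if k % 2 = t then h (a + (r - k)) (b + (r - k)) else 0) =
      ∑ k ∈ Finset.range (r + 1), (if k % 2 = t then h (p - k) (q - k) else 0) := by
    intro h t
    refine Finset.sum_congr rfl fun k hk => ?_
    simp only [Finset.mem_range] at hk
    rw [show a + (r - k) = p - k by omega, show b + (r - k) = q - k by omega]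
  rw [e X.h] at x0 x1
  rw [e Y.h] at y0 y1
  rw [← hp, ← hq] at x0 y0
  rw [hr]
  constructor <;> omega

end ColIso

end Iso

section Ring

variable {n : ℕ} {A B : Type*} [Ring A] [Algebra ℂ A] [Ring B] [Algebra ℂ B]

/-- The square of a holomorphic form of top degree. -/
theorem sesq_top (X : HodgeRing n A) {s : A} (hs : s ∈ X.H n 0) (h0 : s ≠ 0) :
    ∃ r : ℝ, 0 < r ∧ X.sesq s s = (-1 : ℂ) ^ (n * (n - 1) / 2) * (r : ℂ) := by
  obtain ⟨r, hr, he⟩ := X.hodgeRiemann n 0 s hs (by omega) (by
    have h1 := X.mul_mem _ _ _ _ _ _ X.omega_mem hs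
    rw [show n - (n + 0) + 1 = 1 by omega, pow_one]
    rw [X.bounded (1 + n) (1 + 0) (Or.inl (by omega))] at h1
    exact (Submodule.mem_bot ℂ).1 h1) h0
  refine ⟨r, hr, ?_⟩
  simp only [add_zero, Nat.sub_self, pow_zero, one_mul, mul_one] at he
  rw [HodgeRing.sesq, X.dual_of_mem hs, smul_mul_assoc, map_smul, smul_eq_mul, add_zero, ← he]
  have e : (-1 : ℂ) ^ (n * (n - 1) / 2) * (-1 : ℂ) ^ (n * (n - 1) / 2) = 1 := by
    rw [← pow_add, ← two_mul, pow_mul]
    norm_num
  calc I ^ n * X.int (s * X.conj s) =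
      ((-1 : ℂ) ^ (n * (n - 1) / 2) * (-1 : ℂ) ^ (n * (n - 1) / 2)) * (I ^ n * X.int (s * X.conj s)) := by
        rw [e, one_mul]
    _ = _ := by ring

/-- An isomorphism which maps columns onto columns and multiplies the sesquilinear form of the
columns by a constant. -/
structure SesqIso (X : HodgeRing n A) (Y : HodgeRing n B) (psi : A ≃ₗ[ℂ] B) (κ : ℂ) : Prop where
  column : ∀ i, (X.column i).map psi.toLinearMap = Y.column i
  sesq : ∀ i, ∀ v ∈ X.column i, ∀ w ∈ X.column i, Y.sesq (psi v) (psi w) = κ * X.sesq v w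

theorem column_top (X : HodgeRing n A) : X.column n = X.H n 0 := by
  apply le_antisymm
  · unfold HodgeRing.column
    refine iSup₂_le ?_
    rintro ⟨p, q⟩ h
    simp only at h ⊢
    by_cases hp : n < p
    · rw [X.bounded p q (Or.inl hp)]
      exact bot_le
    · have h1 : p = n := by omega
      have h2 : q = 0 := by omega
      rw [h1, h2]
  · unfold HodgeRing.column
    exact le_iSup₂ (f := fun (x : ℕ × ℕ) (_ : (x.1 : ℤ) - (x.2 : ℤ) = (n : ℤ)) => X.H x.1 x.2)
      (n, 0) (by simp)

/-- The constant is positive if there is a holomorphic form of top degree. -/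
theorem SesqIso.pos {X : HodgeRing n A} {Y : HodgeRing n B} {psi : A ≃ₗ[ℂ] B} {κ : ℂ}
    (h : SesqIso X Y psi κ) {s : A} (hs : s ∈ X.H n 0) (h0 : s ≠ 0) :
    ∃ r : ℝ, 0 < r ∧ κ = (r : ℂ) := by
  have h1 : psi s ∈ Y.H n 0 := by
    rw [← column_top, ← h.column n]
    exact Submodule.mem_map_of_mem (by rw [column_top]; exact hs)
  have h2 : psi s ≠ 0 := by
    intro h3
    exact h0 (psi.map_eq_zero_iff.1 h3)
  obtain ⟨r, hr, e⟩ := sesq_top X hs h0
  obtain ⟨r', hr', e'⟩ := sesq_top Y h1 h2
  have h3 := h.sesq n s (by rw [column_top]; exact hs) s (by rw [column_top]; exact hs)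
  rw [e, e'] at h3
  have hc : (-1 : ℂ) ^ (n * (n - 1) / 2) ≠ 0 := pow_ne_zero _ (by norm_num)
  have hr0 : (r : ℂ) ≠ 0 := by exact_mod_cast hr.ne'
  refine ⟨r' / r, div_pos hr' hr, ?_⟩
  push_cast
  rw [eq_div_iff hr0]
  apply mul_left_cancel₀ hc
  calc (-1 : ℂ) ^ (n * (n - 1) / 2) * (κ * r) = κ * ((-1 : ℂ) ^ (n * (n - 1) / 2) * r) := by ring
    _ = _ := h3.symm

theorem SesqIso.colIso {X : HodgeRing n A} {Y : HodgeRing n B} {psi : A ≃ₗ[ℂ] B} {κ : ℂ}
    (h : SesqIso X Y psi κ) {s : A} (hs : s ∈ X.H n 0) (h0 : s ≠ 0) :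
    ∃ r : ℝ, ColIso (toForm X) (toForm Y) psi r := by
  obtain ⟨r, hr, e⟩ := h.pos hs h0
  refine ⟨r, hr, h.column, fun i v hv => ?_⟩
  rw [toForm_form, toForm_form, h.sesq i v hv v hv, e, Complex.re_ofReal_mul]
  ring

variable [FiniteDimensional ℂ A] [FiniteDimensional ℂ B]

/-- the alternating sum over a column -/
theorem SesqIso.alt_column {X : HodgeRing n A} {Y : HodgeRing n B} {psi : A ≃ₗ[ℂ] B} {κ : ℂ}
    (h : SesqIso X Y psi κ) {s : A} (hs : s ∈ X.H n 0) (h0 : s ≠ 0) (c : ℕ) :
    ∑ j ∈ Finset.range (n + 1), (-1 : ℤ) ^ j * (X.h (c + j) j : ℤ) =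
      ∑ j ∈ Finset.range (n + 1), (-1 : ℤ) ^ j * (Y.h (c + j) j : ℤ) := by
  obtain ⟨κ', hphi⟩ := h.colIso hs h0
  clear hs h0 h
  rcases Nat.lt_or_ge n c with hc | hc
  · refine Finset.sum_congr rfl fun j _ => ?_
    rw [X.h_eq_zero (by omega), Y.h_eq_zero (by omega)]
  obtain ⟨m, rfl⟩ : ∃ m, n = c + m := ⟨n - c, by omega⟩
  rw [X.cut_column, Y.cut_column]
  rcases Nat.mod_two_eq_zero_or_one m with hm | hm
  · obtain ⟨r, rfl⟩ : ∃ r, m = 2 * r := ⟨m / 2, by omega⟩
    rw [alt_even (fun j => (X.h (c + j) j : ℤ)) r X.sym_even,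
      alt_even (fun j => (Y.h (c + j) j : ℤ)) r Y.sym_even]
    congr 1
    have h1 := hphi.main_aux (p := c + r) (q := r) (by omega)
    simp only [toForm_h] at h1
    rw [show min (c + r) r = r by omega] at h1
    obtain ⟨ho, he⟩ := h1
    have split : ∀ h : ℕ → ℕ → ℕ, ∑ k ∈ Finset.range (r + 1),
        (-1 : ℤ) ^ k * (h (c + (r - k)) (r - k) : ℤ) =
        ((∑ k ∈ Finset.range (r + 1), (if k % 2 = 0 then h (c + r - k) (r - k) else 0) : ℕ) : ℤ) -
        ((∑ k ∈ Finset.range (r + 1), (if k % 2 = 1 then h (c + r - k) (r - k) else 0) : ℕ) :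
          ℤ) := by
      intro h
      push_cast
      rw [← Finset.sum_sub_distrib]
      refine Finset.sum_congr rfl fun k hk => ?_
      rw [Finset.mem_range] at hk
      rw [show c + (r - k) = c + r - k by omega]
      rcases Nat.mod_two_eq_zero_or_one k with h0 | h0
      · rw [h0, if_pos rfl, if_neg (by norm_num), Even.neg_one_pow (Nat.even_iff.2 h0)]
        ring
      · rw [h0, if_neg (by norm_num), if_pos rfl, Odd.neg_one_pow (Nat.odd_iff.2 h0)]
        ring
    rw [split X.h, split Y.h]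
    omega
  · rw [alt_odd (fun j => (X.h (c + j) j : ℤ)) hm X.sym_odd,
      alt_odd (fun j => (Y.h (c + j) j : ℤ)) hm Y.sym_odd]

/-- the signatures of the columns agree -/
theorem SesqIso.gen_signature {X : HodgeRing n A} {Y : HodgeRing n B} {psi : A ≃ₗ[ℂ] B} {κ : ℂ}
    (h : SesqIso X Y psi κ) {s : A} (hs : s ∈ X.H n 0) (h0 : s ≠ 0) :
    X.gen (HodgeRing.wt (-1)) = Y.gen (HodgeRing.wt (-1)) := by
  refine gen_ext X Y fun c => ?_
  rw [X.coeff_gen_nat, Y.coeff_gen_nat]
  exact h.alt_column hs h0 c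

omit [FiniteDimensional ℂ A] [FiniteDimensional ℂ B] in
/-- the dimensions of the columns agree -/
theorem SesqIso.column_finrank {X : HodgeRing n A} {Y : HodgeRing n B} {psi : A ≃ₗ[ℂ] B} {κ : ℂ}
    (h : SesqIso X Y psi κ) (i : ℤ) : finrank ℂ (X.column i) = finrank ℂ (Y.column i) := by
  rw [← h.column i]
  exact (psi.submoduleMap (X.column i)).finrank_eq

end Ring

end Pool.Agent.KT
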