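import Pool.Agent.KT.Geo
import Pool.Agent.KT.Sig
import Pool.Agent.Helper81.HodgeF.Chern

/-!
# The cohomology of a factor inside of the cohomology of a product
-/

set_option autoImplicit false

namespace Pool.Agent.Hodge81

open Complex Module
open Pool.Agent.KT

theorem neg_one_zpow_congr {x y : ℤ} (h : Even (x - y)) : (-1 : ℂ) ^ x = (-1 : ℂ) ^ y := by
  have h1 : x = (x - y) + y := by ring
  rw [h1, zpow_add₀ (by norm_num), h.neg_one_zpow, one_mul]

theorem sesq_of_mukai {n : ℕ} {A B : Type*} [Ring A] [Algebra ℂ A] [Ring B] [Algebra ℂ B]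
    {X : HodgeRing n A} {Y : HodgeRing n B} {phi : A ≃ₗ[ℂ] B} (hphi : IsMukaiIsometry X Y phi)
    (v w : A) : Y.sesq (phi v) (phi w) = X.sesq v w := by
  have h1 := hphi.h0 v (X.conj w)
  rw [hphi.conj] at h1
  exact h1

/-- The cohomology of a factor `Z` of dimension `m` of `X`, inside of the cohomology of `X`: `e` is
the column operator of the factor, and `i` is the product with the holomorphic form of top degree
of the complement. -/
structure Iota {m n : ℕ} {C A : Type*} [Ring C] [Algebra ℂ C] [Ring A] [Algebra ℂ A]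
    (Z : HodgeRing m C) (X : HodgeRing n A) (e : Module.End ℂ A) (i : C →ₗ[ℂ] A) (k : ℂ) :
    Prop where
  inj : Function.Injective i
  mem : ∀ v, (X.cop - e) (i v) = ((n : ℂ) - m) • i v
  range : ∀ v, (X.cop - e) v = ((n : ℂ) - m) • v → v ∈ LinearMap.range i
  span : ∀ v : A, v ∈ ⨆ l : {l : ℤ // l ≤ (n : ℤ) - m}, (X.cop - e).eigenspace ((l : ℤ) : ℂ)
  comm : ∀ v, e (i v) = i (Z.cop v)
  sesq : ∀ c : ℤ, ∀ v ∈ Z.column c, ∀ w ∈ Z.column c,
    X.sesq (i v) (i w) = (-1 : ℂ) ^ (((n : ℤ) - m) * c) * (k * Z.sesq v w)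
  ne : k ≠ 0

namespace Iota

section basic

variable {m n : ℕ} {C A : Type*} [Ring C] [Algebra ℂ C] [Ring A] [Algebra ℂ A]
  {Z : HodgeRing m C} {X : HodgeRing n A} {e : Module.End ℂ A} {i : C →ₗ[ℂ] A} {k : ℂ}

theorem mem_range (I : Iota Z X e i k) (v : A) :
    v ∈ LinearMap.range i ↔ (X.cop - e) v = ((n : ℂ) - m) • v := by
  constructor
  · rintro ⟨c, rfl⟩
    exact I.mem c
  · exact I.range v

/-- the columns of the image -/
theorem column (I : Iota Z X e i k) {c : ℤ} {v : C} (hv : v ∈ Z.column c) :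
    i v ∈ X.column (c + ((n : ℤ) - m)) := by
  refine X.mem_column_of_cop ?_
  have h1 := I.mem v
  rw [LinearMap.sub_apply, I.comm, Z.cop_column hv, map_smul, sub_eq_iff_eq_add] at h1
  rw [h1, ← add_smul]
  congr 1
  push_cast
  ring

/-- the whole variety as a factor -/
theorem self (X : HodgeRing n A) : Iota X X X.cop LinearMap.id 1 where
  inj := fun _ _ h => h
  mem v := by rw [sub_self, sub_self, LinearMap.zero_apply, zero_smul]
  range v _ := ⟨v, rfl⟩
  span v := by
    refine Submodule.mem_iSup_of_mem (⟨0, by simp⟩ : {l : ℤ // l ≤ (n : ℤ) - n}) ?_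
    rw [Module.End.mem_eigenspace_iff, sub_self, LinearMap.zero_apply]
    simp
  comm _ := rfl
  sesq c v _ w _ := by
    rw [sub_self, zero_mul, zpow_zero, one_mul, one_mul]
    rfl
  ne := one_ne_zero

end basic

/-- Two factors which are matched by an isometry. -/
theorem sesqIso {m n : ℕ} {C C' A B : Type*} [Ring C] [Algebra ℂ C] [Ring C'] [Algebra ℂ C']
    [Ring A] [Algebra ℂ A] [Ring B] [Algebra ℂ B] {Z : HodgeRing m C} {Z' : HodgeRing m C'}
    {X : HodgeRing n A} {Y : HodgeRing n B} {e : Module.End ℂ A} {e' : Module.End ℂ B}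
    {i : C →ₗ[ℂ] A} {i' : C' →ₗ[ℂ] B} {k k' : ℂ} (I : Iota Z X e i k) (I' : Iota Z' Y e' i' k')
    {phi : A ≃ₗ[ℂ] B} (hs : ∀ v w, Y.sesq (phi v) (phi w) = X.sesq v w)
    (hcop : ∀ v, phi (X.cop v) = Y.cop (phi v)) (he : ∀ v, phi (e v) = e' (phi v)) :
    ∃ (psi : C ≃ₗ[ℂ] C') (κ : ℂ), SesqIso Z Z' psi κ ∧ ∀ v, i' (psi v) = phi (i v) := by
  have hr : (LinearMap.range i).map phi.toLinearMap = LinearMap.range i' := by
    ext v
    rw [I'.mem_range]
    constructor
    · rintro ⟨w, hw, rfl⟩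
      have h1 := (I.mem_range w).1 hw
      change (Y.cop - e') (phi w) = _
      rw [LinearMap.sub_apply, ← hcop, ← he, ← map_sub, ← LinearMap.sub_apply, h1, map_smul]
      rfl
    · intro h
      refine ⟨phi.symm v, ?_, phi.apply_symm_apply v⟩
      refine (I.mem_range _).2 (phi.injective ?_)
      rw [LinearMap.sub_apply, map_sub, hcop, he, map_smul, phi.apply_symm_apply,
        ← LinearMap.sub_apply, h]
  let psi : C ≃ₗ[ℂ] C' := (LinearEquiv.ofInjective i I.inj).trans
    ((phi.submoduleMap (LinearMap.range i)).trans ((LinearEquiv.ofEq _ _ hr).trans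
      (LinearEquiv.ofInjective i' I'.inj).symm))
  have hpsi : ∀ v, i' (psi v) = phi (i v) := by
    intro v
    have h1 : (LinearEquiv.ofInjective i' I'.inj) (psi v) = (LinearEquiv.ofEq _ _ hr)
        (phi.submoduleMap (LinearMap.range i) (LinearEquiv.ofInjective i I.inj v)) := by
      change (LinearEquiv.ofInjective i' I'.inj) ((LinearEquiv.ofInjective i' I'.inj).symm _) = _
      rw [LinearEquiv.apply_symm_apply]
      rfl
    have h2 := congrArg Subtype.val h1
    exact h2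
  have hc : ∀ v, psi (Z.cop v) = Z'.cop (psi v) := by
    intro v
    apply I'.inj
    rw [hpsi, ← I.comm, he, ← hpsi, I'.comm]
  have hcol : ∀ (d : ℤ) v, v ∈ Z.column d ↔ psi v ∈ Z'.column d := by
    intro d v
    constructor
    · intro h
      refine Z'.mem_column_of_cop ?_
      rw [← hc, Z.cop_column h, map_smul]
    · intro h
      refine Z.mem_column_of_cop (psi.injective ?_)
      rw [hc, Z'.cop_column h, map_smul]
  refine ⟨psi, k / k', ⟨fun d => ?_, fun d v hv w hw => ?_⟩, hpsi⟩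
  · ext x
    constructor
    · rintro ⟨v, hv, rfl⟩
      exact (hcol d v).1 hv
    · intro hx
      refine ⟨psi.symm x, (hcol d _).2 ?_, psi.apply_symm_apply x⟩
      rw [psi.apply_symm_apply]
      exact hx
  · have h1 := I'.sesq d (psi v) ((hcol d v).1 hv) (psi w) ((hcol d w).1 hw)
    rw [hpsi, hpsi, hs, I.sesq d v hv w hw] at h1
    have h2 := mul_left_cancel₀ (zpow_ne_zero _ (by norm_num : (-1 : ℂ) ≠ 0)) h1
    have hk := I'.ne
    field_simp
    linear_combination -h2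

end Iota

section Top

variable {n : ℕ} {A : Type*} [Ring A] [Algebra ℂ A]

/-- classes of top degree -/
theorem HodgeRing.exists_top (X : HodgeRing n A) :
    ∃ w₀ ∈ X.H n n, X.int w₀ = 1 ∧ ∀ w ∈ X.H n n, w = X.int w • w₀ := by
  have hinj : ∀ w ∈ X.H n n, X.int w = 0 → w = 0 := by
    intro w hw h0
    refine X.poincare w fun b => ?_
    refine X.induct (P := fun b => X.int (w * b) = 0) (fun p q b hb => ?_) (by simp)
      (fun a b ha hb => by rw [mul_add, map_add, ha, hb, add_zero]) b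
    by_cases h : p = 0 ∧ q = 0
    · obtain ⟨rfl, rfl⟩ := h
      obtain ⟨c, rfl⟩ := X.unit_span hb
      rw [mul_smul_comm, mul_one, map_smul, h0, smul_zero]
    · refine X.int_off _ _ _ (X.mul_mem _ _ _ _ _ _ hw hb) fun h1 => h ?_
      have h2 := Prod.ext_iff.1 h1
      simp only at h2
      omega
  obtain ⟨w, hw, hne⟩ : ∃ w ∈ X.H n n, X.int w ≠ 0 := by
    by_contra hcon
    push Not at hcon
    have h1 : ∀ a, X.int a = 0 := by
      intro a
      refine X.induct (P := fun a => X.int a = 0) (fun p q a ha => ?_) (map_zero _)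
        (fun a b ha hb => by rw [map_add, ha, hb, add_zero]) a
      by_cases h : (p, q) = (n, n)
      · have h2 := Prod.ext_iff.1 h
        simp only at h2
        obtain ⟨rfl, rfl⟩ := h2
        exact hcon a ha
      · exact X.int_off _ _ _ ha h
    have h2 : (1 : A) = 0 := X.poincare 1 fun b => h1 _
    have h3 : X.H 0 0 = ⊥ := by
      rw [eq_bot_iff]
      intro x _
      rw [Submodule.mem_bot, ← mul_one x, h2, mul_zero]
    have h4 := X.connected
    rw [h3, finrank_bot] at h4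
    exact zero_ne_one h4
  refine ⟨(X.int w)⁻¹ • w, Submodule.smul_mem _ _ hw, ?_, fun x hx => ?_⟩
  · rw [map_smul, smul_eq_mul, inv_mul_cancel₀ hne]
  · have h1 : x - X.int x • ((X.int w)⁻¹ • w) ∈ X.H n n :=
      Submodule.sub_mem _ hx (Submodule.smul_mem _ _ (Submodule.smul_mem _ _ hw))
    refine sub_eq_zero.1 (hinj _ h1 ?_)
    rw [map_sub, map_smul, map_smul, smul_eq_mul, smul_eq_mul, inv_mul_cancel₀ hne, mul_one,
      sub_self]

end Top

namespace Product

variable {n a b : ℕ} {A C D : Type*} [Ring A] [Algebra ℂ A] [Ring C] [Algebra ℂ C]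
  [Ring D] [Algebra ℂ D] {X : HodgeRing n A} {W : HodgeRing a C} {V : HodgeRing b D}
  (U : Product X W V)

include U in
theorem induct_ku {P : A → Prop} (h : ∀ w z, P (U.fst w * U.snd z)) (h0 : P 0)
    (hadd : ∀ x y, P x → P y → P (x + y)) (x : A) : P x := by
  obtain ⟨t, rfl⟩ := U.ku.surjective x
  induction t using TensorProduct.induction_on with
  | zero => rw [map_zero]; exact h0
  | tmul w z => rw [U.ku_tmul]; exact h w z
  | add s t hs ht => rw [map_add]; exact hadd _ _ hs ht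

/-- integration on a product -/
theorem exists_int : ∃ l : ℂ, l ≠ 0 ∧
    ∀ w z, X.int (U.fst w * U.snd z) = l * (W.int w * V.int z) := by
  obtain ⟨w₀, hw₀, hw1, hw⟩ := W.exists_top
  obtain ⟨z₀, hz₀, hz1, hz⟩ := V.exists_top
  have hn := U.dim
  have key : ∀ w z, X.int (U.fst w * U.snd z) =
      X.int (U.fst w₀ * U.snd z₀) * (W.int w * V.int z) := by
    intro w z
    refine W.induct (P := fun w => X.int (U.fst w * U.snd z) =
      X.int (U.fst w₀ * U.snd z₀) * (W.int w * V.int z)) (fun p q w hpq => ?_) (by simp)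
      (fun x y hx hy => by rw [map_add, add_mul, map_add, hx, hy, map_add]; ring) w
    refine V.induct (P := fun z => X.int (U.fst w * U.snd z) =
      X.int (U.fst w₀ * U.snd z₀) * (W.int w * V.int z)) (fun p' q' z hpq' => ?_) (by simp)
      (fun x y hx hy => by rw [map_add, mul_add, map_add, hx, hy, map_add]; ring) z
    by_cases hb : a < p ∨ a < q
    · rw [W.bounded p q hb, Submodule.mem_bot] at hpq
      rw [hpq]
      simp
    by_cases hb' : b < p' ∨ b < q'
    · rw [V.bounded p' q' hb', Submodule.mem_bot] at hpq'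
      rw [hpq']
      simp
    by_cases h1 : p = a ∧ q = a ∧ p' = b ∧ q' = b
    · obtain ⟨rfl, rfl, rfl, rfl⟩ := h1
      have e1 := hw w hpq
      have e2 := hz z hpq'
      calc X.int (U.fst w * U.snd z) = X.int (U.fst (W.int w • w₀) * U.snd (V.int z • z₀)) := by
            rw [← e1, ← e2]
        _ = _ := by
            rw [map_smul, map_smul, smul_mul_smul_comm, map_smul, smul_eq_mul, mul_comm]
    · rw [X.int_off _ _ _ (X.mul_mem _ _ _ _ _ _ (U.fst_mem _ _ _ hpq) (U.snd_mem _ _ _ hpq'))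
        (fun h2 => h1 (by
          have h3 := Prod.ext_iff.1 h2
          simp only at h3
          omega))]
      by_cases h2 : (p, q) = (a, a)
      · have h3 : (p', q') ≠ (b, b) := by
          intro h3
          apply h1
          have h4 := Prod.ext_iff.1 h2
          have h5 := Prod.ext_iff.1 h3
          simp only at h4 h5
          omega
        rw [V.int_off _ _ _ hpq' h3, mul_zero, mul_zero]
      · rw [W.int_off _ _ _ hpq h2, zero_mul, mul_zero]
  refine ⟨_, fun h0 => ?_, key⟩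
  obtain ⟨x₀, hx₀, hx1, -⟩ := X.exists_top
  have h1 : X.int x₀ = 0 := by
    refine U.induct_ku (P := fun x => X.int x = 0) (fun w z => ?_) (map_zero _)
      (fun x y hx hy => by rw [map_add, hx, hy, add_zero]) x₀
    rw [key, h0, zero_mul]
  rw [h1] at hx1
  exact zero_ne_one hx1

theorem sesq_left (hU : U.Real) {l : ℂ}
    (hl : ∀ w z, X.int (U.fst w * U.snd z) = l * (W.int w * V.int z)) {s : D}
    (hs : s ∈ V.H b 0) {c : ℤ} {v w : C} (hv : v ∈ W.column c) (hw : w ∈ W.column c) :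
    X.sesq (U.fst v * U.snd s) (U.fst w * U.snd s) =
      (-1 : ℂ) ^ ((b : ℤ) * c) * (l * V.sesq s s * W.sesq v w) := by
  refine W.column_induct (P := fun v => X.sesq (U.fst v * U.snd s) (U.fst w * U.snd s) =
      (-1 : ℂ) ^ ((b : ℤ) * c) * (l * V.sesq s s * W.sesq v w)) (fun p q hpq v hv => ?_)
    (by rw [map_zero, zero_mul, X.sesq_zero_left, W.sesq_zero_left, mul_zero, mul_zero])
    (fun x y hx hy => by
      rw [map_add, add_mul, X.sesq_add_left, hx, hy, W.sesq_add_left]; ring) hv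
  refine W.column_induct (P := fun w => X.sesq (U.fst v * U.snd s) (U.fst w * U.snd s) =
      (-1 : ℂ) ^ ((b : ℤ) * c) * (l * V.sesq s s * W.sesq v w)) (fun p' q' hpq' w hw => ?_)
    (by rw [map_zero, zero_mul, X.sesq_zero_right, W.sesq_zero_right, mul_zero, mul_zero])
    (fun x y hx hy => by
      rw [map_add, add_mul, X.sesq_add_right, hx, hy, W.sesq_add_right]; ring) hw
  have h1 := X.mul_mem _ _ _ _ _ _ (U.fst_mem _ _ _ hv) (U.snd_mem _ _ _ hs)
  have h2 := X.comm _ _ _ _ _ _ (U.snd_mem _ _ _ hs) (U.fst_mem _ _ _ (W.conj_mem _ _ _ hw))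
  rw [HodgeRing.sesq, X.dual_of_mem h1, map_mul X.conj, ← hU.fst_conj, ← hU.snd_conj]
  have h3 : U.fst v * U.snd s * (U.fst (W.conj w) * U.snd (V.conj s)) =
      (-1 : ℂ) ^ ((b + 0) * (q' + p')) • (U.fst (v * W.conj w) * U.snd (s * V.conj s)) := by
    rw [map_mul, map_mul]
    calc U.fst v * U.snd s * (U.fst (W.conj w) * U.snd (V.conj s)) =
        U.fst v * (U.snd s * U.fst (W.conj w)) * U.snd (V.conj s) := by noncomm_ring
      _ = _ := by
        rw [h2, mul_smul_comm, smul_mul_assoc]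
        congr 1
        noncomm_ring
  rw [smul_mul_assoc, h3, map_smul, map_smul, hl, smul_eq_mul, smul_eq_mul, HodgeRing.sesq,
    HodgeRing.sesq, V.dual_of_mem hs, W.dual_of_mem hv, smul_mul_assoc, smul_mul_assoc, map_smul,
    map_smul, smul_eq_mul, smul_eq_mul]
  have h4 : (-1 : ℂ) ^ ((b : ℤ) * c) = (-1 : ℂ) ^ ((b + 0) * (q' + p')) := by
    rw [← zpow_natCast]
    refine neg_one_zpow_congr ⟨-(b * q'), ?_⟩
    rw [← hpq']
    push_cast
    ring
  rw [h4, show p + b + (q + 0) = (p + q) + (b + 0) by ring, pow_add]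
  ring

theorem sesq_right (hU : U.Real) {l : ℂ}
    (hl : ∀ w z, X.int (U.fst w * U.snd z) = l * (W.int w * V.int z)) {s : C}
    (hs : s ∈ W.H a 0) {c : ℤ} {v w : D} (hv : v ∈ V.column c) (hw : w ∈ V.column c) :
    X.sesq (U.fst s * U.snd v) (U.fst s * U.snd w) =
      (-1 : ℂ) ^ ((a : ℤ) * c) * (l * W.sesq s s * V.sesq v w) := by
  refine V.column_induct (P := fun v => X.sesq (U.fst s * U.snd v) (U.fst s * U.snd w) =
      (-1 : ℂ) ^ ((a : ℤ) * c) * (l * W.sesq s s * V.sesq v w)) (fun p q hpq v hv => ?_)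
    (by rw [map_zero, mul_zero, X.sesq_zero_left, V.sesq_zero_left, mul_zero, mul_zero])
    (fun x y hx hy => by
      rw [map_add, mul_add, X.sesq_add_left, hx, hy, V.sesq_add_left]; ring) hv
  refine V.column_induct (P := fun w => X.sesq (U.fst s * U.snd v) (U.fst s * U.snd w) =
      (-1 : ℂ) ^ ((a : ℤ) * c) * (l * W.sesq s s * V.sesq v w)) (fun p' q' hpq' w hw => ?_)
    (by rw [map_zero, mul_zero, X.sesq_zero_right, V.sesq_zero_right, mul_zero, mul_zero])
    (fun x y hx hy => by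
      rw [map_add, mul_add, X.sesq_add_right, hx, hy, V.sesq_add_right]; ring) hw
  have h1 := X.mul_mem _ _ _ _ _ _ (U.fst_mem _ _ _ hs) (U.snd_mem _ _ _ hv)
  have h2 := X.comm _ _ _ _ _ _ (U.snd_mem _ _ _ hv) (U.fst_mem _ _ _ (W.conj_mem _ _ _ hs))
  rw [HodgeRing.sesq, X.dual_of_mem h1, map_mul X.conj, ← hU.fst_conj, ← hU.snd_conj]
  have h3 : U.fst s * U.snd v * (U.fst (W.conj s) * U.snd (V.conj w)) =
      (-1 : ℂ) ^ ((p + q) * (0 + a)) • (U.fst (s * W.conj s) * U.snd (v * V.conj w)) := by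
    rw [map_mul, map_mul]
    calc U.fst s * U.snd v * (U.fst (W.conj s) * U.snd (V.conj w)) =
        U.fst s * (U.snd v * U.fst (W.conj s)) * U.snd (V.conj w) := by noncomm_ring
      _ = _ := by
        rw [h2, mul_smul_comm, smul_mul_assoc]
        congr 1
        noncomm_ring
  rw [smul_mul_assoc, h3, map_smul, map_smul, hl, smul_eq_mul, smul_eq_mul, HodgeRing.sesq,
    HodgeRing.sesq, W.dual_of_mem hs, V.dual_of_mem hv, smul_mul_assoc, smul_mul_assoc, map_smul,
    map_smul, smul_eq_mul, smul_eq_mul]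
  have h4 : (-1 : ℂ) ^ ((a : ℤ) * c) = (-1 : ℂ) ^ ((p + q) * (0 + a)) := by
    rw [← zpow_natCast]
    refine neg_one_zpow_congr ⟨-(a * q), ?_⟩
    rw [← hpq]
    push_cast
    ring
  rw [h4, show a + p + (0 + q) = (p + q) + (a + 0) by ring, pow_add]
  ring

end Product

section steps

variable {n a b m : ℕ} {A C D E' : Type*} [Ring A] [Algebra ℂ A] [Ring C] [Algebra ℂ C]
  [Ring D] [Algebra ℂ D] [Ring E'] [Algebra ℂ E'] {X : HodgeRing n A} {W : HodgeRing a C}
  {V : HodgeRing b D} {Z : HodgeRing m E'}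

/-- the weights of a variety are at most its dimension -/
theorem Product.span_left (U : Product X W V) {e : Module.End ℂ C} {S : Submodule ℂ A}
    (hspan : ∀ w : C, w ∈ ⨆ l : {l : ℤ // l ≤ (a : ℤ) - m},
      (W.cop - e).eigenspace ((l : ℤ) : ℂ))
    (hS : ∀ l : ℤ, l ≤ (a : ℤ) - m → ∀ w, (W.cop - e) w = (l : ℂ) • w → ∀ p q, p ≤ b →
      ∀ z ∈ V.H p q, U.fst w * U.snd z ∈ S) (x : A) : x ∈ S := by
  refine U.induct_ku (P := fun x => x ∈ S) (fun w z => ?_) (Submodule.zero_mem _)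
    (fun x y hx hy => Submodule.add_mem _ hx hy) x
  refine V.induct (P := fun z => U.fst w * U.snd z ∈ S) (fun p q z hz => ?_)
    (by rw [map_zero, mul_zero]; exact Submodule.zero_mem _)
    (fun x y hx hy => by rw [map_add, mul_add]; exact Submodule.add_mem _ hx hy) z
  rcases Nat.lt_or_ge b p with h | h
  · rw [V.bounded p q (Or.inl h), Submodule.mem_bot] at hz
    rw [hz, map_zero, mul_zero]
    exact Submodule.zero_mem _
  refine Submodule.iSup_induction (motive := fun w => U.fst w * U.snd z ∈ S) _ (hspan w)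
    (fun l w hw => ?_) (by rw [map_zero, zero_mul]; exact Submodule.zero_mem _)
    (fun x y hx hy => by rw [map_add, add_mul]; exact Submodule.add_mem _ hx hy)
  exact hS l.1 l.2 w (Module.End.mem_eigenspace_iff.1 hw) p q h z hz

theorem Product.span_right (U : Product X W V) {e : Module.End ℂ D} {S : Submodule ℂ A}
    (hspan : ∀ w : D, w ∈ ⨆ l : {l : ℤ // l ≤ (b : ℤ) - m},
      (V.cop - e).eigenspace ((l : ℤ) : ℂ))
    (hS : ∀ l : ℤ, l ≤ (b : ℤ) - m → ∀ z, (V.cop - e) z = (l : ℂ) • z → ∀ p q, p ≤ a →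
      ∀ w ∈ W.H p q, U.fst w * U.snd z ∈ S) (x : A) : x ∈ S := by
  refine U.induct_ku (P := fun x => x ∈ S) (fun w z => ?_) (Submodule.zero_mem _)
    (fun x y hx hy => Submodule.add_mem _ hx hy) x
  refine W.induct (P := fun w => U.fst w * U.snd z ∈ S) (fun p q w hw => ?_)
    (by rw [map_zero, zero_mul]; exact Submodule.zero_mem _)
    (fun x y hx hy => by rw [map_add, add_mul]; exact Submodule.add_mem _ hx hy) w
  rcases Nat.lt_or_ge a p with h | h
  · rw [W.bounded p q (Or.inl h), Submodule.mem_bot] at hw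
    rw [hw, map_zero, zero_mul]
    exact Submodule.zero_mem _
  refine Submodule.iSup_induction (motive := fun z => U.fst w * U.snd z ∈ S) _ (hspan z)
    (fun l z hz => ?_) (by rw [map_zero, mul_zero]; exact Submodule.zero_mem _)
    (fun x y hx hy => by rw [map_add, mul_add]; exact Submodule.add_mem _ hx hy)
  exact hS l.1 l.2 z (Module.End.mem_eigenspace_iff.1 hz) p q h w hw

/-- the weight of a product, for an operator of the first factor -/
theorem Product.cop_left (U : Product X W V) (e : Module.End ℂ C) {w : C} {l : ℂ}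
    (hw : (W.cop - e) w = l • w) {p q : ℕ} {z : D} (hz : z ∈ V.H p q) :
    (X.cop - U.bx 0 e 1) (U.fst w * U.snd z) = (l + ((p : ℂ) - q)) • (U.fst w * U.snd z) := by
  rw [LinearMap.sub_apply, X.cop_mul, U.cop_fst, U.cop_snd, V.cop_of_mem hz, U.bx_apply,
    pow_zero, Module.End.one_apply, Module.End.one_apply, map_smul, mul_smul_comm, add_smul,
    ← smul_mul_assoc l, ← map_smul, ← hw, LinearMap.sub_apply, map_sub, sub_mul]
  abel

/-- the weight of a product, for an operator of the second factor -/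
theorem Product.cop_right (U : Product X W V) (e : Module.End ℂ D) {z : D} {l : ℂ}
    (hz : (V.cop - e) z = l • z) {p q : ℕ} {w : C} (hw : w ∈ W.H p q) :
    (X.cop - U.bx 0 1 e) (U.fst w * U.snd z) = (l + ((p : ℂ) - q)) • (U.fst w * U.snd z) := by
  rw [LinearMap.sub_apply, X.cop_mul, U.cop_fst, U.cop_snd, W.cop_of_mem hw, U.bx_apply,
    pow_zero, Module.End.one_apply, Module.End.one_apply, map_smul, smul_mul_assoc, add_smul,
    ← mul_smul_comm l, ← map_smul, ← hz, LinearMap.sub_apply, map_sub, mul_sub]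
  abel

/-- a factor of the first factor is a factor -/
theorem Iota.left {e : Module.End ℂ C} {i : E' →ₗ[ℂ] C} {k : ℂ} (I : Iota Z W e i k)
    (U : Product X W V) (hU : U.Real) {s : D} (hs : s ∈ V.H b 0) (h0 : s ≠ 0)
    (h1 : ∀ z ∈ V.H b 0, ∃ c : ℂ, z = c • s) :
    ∃ (j : E' →ₗ[ℂ] A) (k' : ℂ), (∀ v, j v = U.fst (i v) * U.snd s) ∧
      Iota Z X (U.bx 0 e 1) j k' := by
  obtain ⟨l, hl0, hl⟩ := U.exists_int
  obtain ⟨r, hr, hsr⟩ := sesq_top V hs h0
  have hn : (n : ℤ) = a + b := by have := U.dim; omega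
  have hnc : (n : ℂ) = a + b := by exact_mod_cast hn
  have hj : ∀ v, ((LinearMap.mulRight ℂ (U.snd s)) ∘ₗ U.fst.toLinearMap ∘ₗ i) v =
      U.fst (i v) * U.snd s := fun v => rfl
  have heig : ∀ v, (X.cop - U.bx 0 e 1) (U.fst (i v) * U.snd s) =
      ((n : ℂ) - m) • (U.fst (i v) * U.snd s) := by
    intro v
    rw [U.cop_left e (I.mem v) hs, hnc]
    congr 1
    push_cast
    ring
  refine ⟨(LinearMap.mulRight ℂ (U.snd s)) ∘ₗ U.fst.toLinearMap ∘ₗ i,
    (-1 : ℂ) ^ ((b : ℤ) * ((a : ℤ) - m)) * (l * V.sesq s s * k), hj, ?_⟩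
  constructor
  · rw [injective_iff_map_eq_zero]
    intro v hv
    rw [hj] at hv
    obtain ⟨η, hη⟩ := exists_functional h0
    have h2 := U.sr_apply η (i v) s
    rw [hv, map_zero, hη, one_smul] at h2
    exact (injective_iff_map_eq_zero i).1 I.inj v h2.symm
  · intro v
    rw [hj]
    exact heig v
  · intro x hx
    have h2 := mem_of_eigen (X.cop - U.bx 0 e 1)
      (fun t : {l : ℤ // l ≤ (a : ℤ) - m} × {p : ℕ // p ≤ b} × ℕ =>
        Submodule.span ℂ {y | ∃ w, (W.cop - e) w = ((t.1 : ℤ) : ℂ) • w ∧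
          ∃ z ∈ V.H t.2.1 t.2.2, y = U.fst w * U.snd z})
      (fun t => ((t.1 : ℤ) : ℂ) + (((t.2.1 : ℕ) : ℂ) - (t.2.2 : ℂ))) (fun t => ?_) (F := x) ?_ hx
    · refine (?_ : (⨆ (t : {l : ℤ // l ≤ (a : ℤ) - m} × {p : ℕ // p ≤ b} × ℕ)
        (_ : ((t.1 : ℤ) : ℂ) + (((t.2.1 : ℕ) : ℂ) - (t.2.2 : ℂ)) = (n : ℂ) - m),
        Submodule.span ℂ {y | ∃ w, (W.cop - e) w = ((t.1 : ℤ) : ℂ) • w ∧
          ∃ z ∈ V.H t.2.1 t.2.2, y = U.fst w * U.snd z}) ≤ _) h2
      refine iSup₂_le ?_
      rintro ⟨⟨l', hl'⟩, ⟨p, hp⟩, q⟩ ht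
      simp only at ht
      have ht' : l' + ((p : ℤ) - q) = (n : ℤ) - m := by exact_mod_cast ht
      have hp' : p = b := by omega
      have hq' : q = 0 := by omega
      have hl'' : l' = (a : ℤ) - m := by omega
      subst hp' hq' hl''
      rw [Submodule.span_le]
      rintro _ ⟨w, hw, z, hz, rfl⟩
      obtain ⟨c, rfl⟩ := h1 z hz
      obtain ⟨v, rfl⟩ := I.range w (by rw [hw]; push_cast; rfl)
      refine ⟨c • v, ?_⟩
      rw [hj, map_smul, map_smul, map_smul, smul_mul_assoc, mul_smul_comm]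
    · rw [Submodule.span_le]
      rintro _ ⟨w, hw, z, hz, rfl⟩
      exact Module.End.mem_eigenspace_iff.2 (U.cop_left e hw hz)
    · refine U.span_left I.span (fun l' hl' w hw p q hp z hz => ?_) x
      exact Submodule.mem_iSup_of_mem (⟨⟨l', hl'⟩, ⟨p, hp⟩, q⟩ :
        {l : ℤ // l ≤ (a : ℤ) - m} × {p : ℕ // p ≤ b} × ℕ)
        (Submodule.subset_span ⟨w, hw, z, hz, rfl⟩)
  · intro x
    refine U.span_left I.span (fun l' hl' w hw p q hp z hz => ?_) x
    refine Submodule.mem_iSup_of_mem (⟨l' + ((p : ℤ) - q), by omega⟩ :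
      {l : ℤ // l ≤ (n : ℤ) - m}) (Module.End.mem_eigenspace_iff.2 ?_)
    rw [U.cop_left e hw hz]
    push_cast
    rfl
  · intro v
    rw [hj, hj, U.bx_apply, pow_zero, Module.End.one_apply, Module.End.one_apply, I.comm]
  · intro c v hv w hw
    rw [hj, hj, U.sesq_left hU hl hs (I.column hv) (I.column hw), I.sesq c v hv w hw]
    have h2 : (-1 : ℂ) ^ (((n : ℤ) - m) * c) =
        (-1 : ℂ) ^ ((b : ℤ) * c) * (-1 : ℂ) ^ (((a : ℤ) - m) * c) := by
      rw [← zpow_add₀ (by norm_num), hn]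
      congr 1
      ring
    rw [h2, mul_add, zpow_add₀ (by norm_num)]
    ring
  · refine mul_ne_zero (zpow_ne_zero _ (by norm_num)) (mul_ne_zero (mul_ne_zero hl0 ?_) I.ne)
    rw [hsr]
    exact mul_ne_zero (pow_ne_zero _ (by norm_num)) (by exact_mod_cast hr.ne')

/-- a factor of the second factor is a factor -/
theorem Iota.right {e : Module.End ℂ D} {i : E' →ₗ[ℂ] D} {k : ℂ} (I : Iota Z V e i k)
    (U : Product X W V) (hU : U.Real) {s : C} (hs : s ∈ W.H a 0) (h0 : s ≠ 0)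
    (h1 : ∀ z ∈ W.H a 0, ∃ c : ℂ, z = c • s) :
    ∃ (j : E' →ₗ[ℂ] A) (k' : ℂ), (∀ v, j v = U.fst s * U.snd (i v)) ∧
      Iota Z X (U.bx 0 1 e) j k' := by
  obtain ⟨l, hl0, hl⟩ := U.exists_int
  obtain ⟨r, hr, hsr⟩ := sesq_top W hs h0
  have hn : (n : ℤ) = a + b := by have := U.dim; omega
  have hnc : (n : ℂ) = a + b := by exact_mod_cast hn
  have hj : ∀ v, ((LinearMap.mulLeft ℂ (U.fst s)) ∘ₗ U.snd.toLinearMap ∘ₗ i) v =
      U.fst s * U.snd (i v) := fun v => rfl
  have heig : ∀ v, (X.cop - U.bx 0 1 e) (U.fst s * U.snd (i v)) =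
      ((n : ℂ) - m) • (U.fst s * U.snd (i v)) := by
    intro v
    rw [U.cop_right e (I.mem v) hs, hnc]
    congr 1
    push_cast
    ring
  refine ⟨(LinearMap.mulLeft ℂ (U.fst s)) ∘ₗ U.snd.toLinearMap ∘ₗ i,
    (-1 : ℂ) ^ ((a : ℤ) * ((b : ℤ) - m)) * (l * W.sesq s s * k), hj, ?_⟩
  constructor
  · rw [injective_iff_map_eq_zero]
    intro v hv
    rw [hj] at hv
    obtain ⟨η, hη⟩ := exists_functional h0
    have h2 := U.sl_apply η s (i v)
    rw [hv, map_zero, hη, one_smul] at h2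
    exact (injective_iff_map_eq_zero i).1 I.inj v h2.symm
  · intro v
    rw [hj]
    exact heig v
  · intro x hx
    have h2 := mem_of_eigen (X.cop - U.bx 0 1 e)
      (fun t : {l : ℤ // l ≤ (b : ℤ) - m} × {p : ℕ // p ≤ a} × ℕ =>
        Submodule.span ℂ {y | ∃ z, (V.cop - e) z = ((t.1 : ℤ) : ℂ) • z ∧
          ∃ w ∈ W.H t.2.1 t.2.2, y = U.fst w * U.snd z})
      (fun t => ((t.1 : ℤ) : ℂ) + (((t.2.1 : ℕ) : ℂ) - (t.2.2 : ℂ))) (fun t => ?_) (F := x) ?_ hx
    · refine (?_ : (⨆ (t : {l : ℤ // l ≤ (b : ℤ) - m} × {p : ℕ // p ≤ a} × ℕ)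
        (_ : ((t.1 : ℤ) : ℂ) + (((t.2.1 : ℕ) : ℂ) - (t.2.2 : ℂ)) = (n : ℂ) - m),
        Submodule.span ℂ {y | ∃ z, (V.cop - e) z = ((t.1 : ℤ) : ℂ) • z ∧
          ∃ w ∈ W.H t.2.1 t.2.2, y = U.fst w * U.snd z}) ≤ _) h2
      refine iSup₂_le ?_
      rintro ⟨⟨l', hl'⟩, ⟨p, hp⟩, q⟩ ht
      simp only at ht
      have ht' : l' + ((p : ℤ) - q) = (n : ℤ) - m := by exact_mod_cast ht
      have hp' : p = a := by omega
      have hq' : q = 0 := by omega
      have hl'' : l' = (b : ℤ) - m := by omega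
      subst hp' hq' hl''
      rw [Submodule.span_le]
      rintro _ ⟨z, hz, w, hw, rfl⟩
      obtain ⟨c, rfl⟩ := h1 w hw
      obtain ⟨v, rfl⟩ := I.range z (by rw [hz]; push_cast; rfl)
      refine ⟨c • v, ?_⟩
      rw [hj, map_smul, map_smul, map_smul, smul_mul_assoc, mul_smul_comm]
    · rw [Submodule.span_le]
      rintro _ ⟨z, hz, w, hw, rfl⟩
      exact Module.End.mem_eigenspace_iff.2 (U.cop_right e hz hw)
    · refine U.span_right I.span (fun l' hl' z hz p q hp w hw => ?_) x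
      exact Submodule.mem_iSup_of_mem (⟨⟨l', hl'⟩, ⟨p, hp⟩, q⟩ :
        {l : ℤ // l ≤ (b : ℤ) - m} × {p : ℕ // p ≤ a} × ℕ)
        (Submodule.subset_span ⟨z, hz, w, hw, rfl⟩)
  · intro x
    refine U.span_right I.span (fun l' hl' z hz p q hp w hw => ?_) x
    refine Submodule.mem_iSup_of_mem (⟨l' + ((p : ℤ) - q), by omega⟩ :
      {l : ℤ // l ≤ (n : ℤ) - m}) (Module.End.mem_eigenspace_iff.2 ?_)
    rw [U.cop_right e hz hw]
    push_cast
    rfl
  · intro v
    rw [hj, hj, U.bx_apply, pow_zero, Module.End.one_apply, Module.End.one_apply, I.comm]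
  · intro c v hv w hw
    rw [hj, hj, U.sesq_right hU hl hs (I.column hv) (I.column hw), I.sesq c v hv w hw]
    have h2 : (-1 : ℂ) ^ (((n : ℤ) - m) * c) =
        (-1 : ℂ) ^ ((a : ℤ) * c) * (-1 : ℂ) ^ (((b : ℤ) - m) * c) := by
      rw [← zpow_add₀ (by norm_num), hn]
      congr 1
      ring
    rw [h2, mul_add, zpow_add₀ (by norm_num)]
    ring
  · refine mul_ne_zero (zpow_ne_zero _ (by norm_num)) (mul_ne_zero (mul_ne_zero hl0 ?_) I.ne)
    rw [hsr]
    exact mul_ne_zero (pow_ne_zero _ (by norm_num)) (by exact_mod_cast hr.ne')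

/-- a generator of the space of the holomorphic forms of top degree -/
theorem HodgeRing.exists_gen (X : HodgeRing n A) (h : X.h n 0 = 1) :
    ∃ s ∈ X.H n 0, s ≠ 0 ∧ ∀ z ∈ X.H n 0, ∃ c : ℂ, z = c • s := by
  obtain ⟨⟨s, hs⟩, hs0, h1⟩ := finrank_eq_one_iff'.1 h
  refine ⟨s, hs, fun h0 => hs0 (Subtype.ext h0), fun z hz => ?_⟩
  obtain ⟨c, hc⟩ := h1 ⟨z, hz⟩
  exact ⟨c, (congrArg Subtype.val hc).symm⟩

end steps

section Top

open Polynomial

/-- the weights of the holomorphic forms -/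
noncomputable def topw (x : ℕ × ℕ) : ℤ[X] := if x.2 = 0 then Polynomial.X ^ x.1 else 0

theorem topw_add (x y : ℕ × ℕ) : topw (x + y) = topw x * topw y := by
  unfold topw
  rw [Prod.fst_add, Prod.snd_add]
  by_cases hx : x.2 = 0
  · by_cases hy : y.2 = 0
    · rw [if_pos (by omega), if_pos hx, if_pos hy, pow_add]
    · rw [if_neg (by omega), if_neg hy, mul_zero]
  · rw [if_neg (by omega), if_neg hx, zero_mul]

theorem coeff_gen_topw {n : ℕ} {A : Type*} [Ring A] [Algebra ℂ A] (X : HodgeRing n A) (q : ℕ) :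
    (X.gen topw).coeff q = X.h q 0 := by
  unfold HodgeRing.gen
  rw [Polynomial.finsetSum_coeff, Finset.sum_product, Finset.sum_comm, Finset.sum_eq_single 0]
  · rw [Finset.sum_eq_single q]
    · unfold topw
      rw [if_pos rfl, ← nsmul_eq_mul, Polynomial.coeff_smul, Polynomial.coeff_X_pow, if_pos rfl]
      simp
    · intro b _ hb
      unfold topw
      rw [if_pos rfl, ← nsmul_eq_mul, Polynomial.coeff_smul, Polynomial.coeff_X_pow,
        if_neg (Ne.symm hb)]
      simp
    · intro h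
      rw [Finset.mem_range] at h
      rw [X.h_eq_zero (by omega)]
      simp
  · intro p _ hp
    refine Finset.sum_eq_zero fun q _ => ?_
    unfold topw
    rw [if_neg hp]
    simp
  · intro h
    exact absurd (Finset.mem_range.2 (Nat.succ_pos n)) h

theorem natDegree_gen_topw {n : ℕ} {A : Type*} [Ring A] [Algebra ℂ A] (X : HodgeRing n A) :
    (X.gen topw).natDegree ≤ n := by
  rw [Polynomial.natDegree_le_iff_coeff_eq_zero]
  intro q hq
  rw [coeff_gen_topw, X.h_eq_zero (Or.inl hq), Nat.cast_zero]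

/-- the holomorphic forms of top degree on a product -/
theorem Product.h_top {n a b : ℕ} {A C D : Type*} [Ring A] [Algebra ℂ A] [FiniteDimensional ℂ A]
    [Ring C] [Algebra ℂ C] [FiniteDimensional ℂ C] [Ring D] [Algebra ℂ D] [FiniteDimensional ℂ D]
    {X : HodgeRing n A} {W : HodgeRing a C} {V : HodgeRing b D} (U : Product X W V) :
    X.h n 0 = W.h a 0 * V.h b 0 := by
  have h1 := U.gen_mul topw topw_add
  have h2 : (X.gen topw).coeff n = (W.gen topw * V.gen topw).coeff (a + b) := by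
    rw [h1, U.dim]
  rw [coeff_gen_topw, Polynomial.coeff_mul_add_eq_of_natDegree_le
    (natDegree_gen_topw W) (natDegree_gen_topw V), coeff_gen_topw, coeff_gen_topw] at h2
  exact_mod_cast h2

end Top

section final

variable {n a b m : ℕ} {A C D E' : Type*} [Ring A] [Algebra ℂ A] [Ring C] [Algebra ℂ C]
  [Ring D] [Algebra ℂ D] [Ring E'] [Algebra ℂ E'] {X : HodgeRing n A} {W : HodgeRing a C}
  {V : HodgeRing b D} {Z : HodgeRing m E'}

/-- a factor of the first factor is a factor, second form -/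
theorem Iota.inl {e : Module.End ℂ C} {i : E' →ₗ[ℂ] C} {k : ℂ} (I : Iota Z W e i k)
    (U : Product X W V) (hU : U.Real) (hV : V.h b 0 = 1) :
    ∃ (j : E' →ₗ[ℂ] A) (k' : ℂ), Iota Z X (U.bx 0 e 1) j k' := by
  obtain ⟨s, hs, h0, h1⟩ := V.exists_gen hV
  obtain ⟨j, k', -, h⟩ := I.left U hU hs h0 h1
  exact ⟨j, k', h⟩

/-- a factor of the second factor is a factor, second form -/
theorem Iota.inr {e : Module.End ℂ D} {i : E' →ₗ[ℂ] D} {k : ℂ} (I : Iota Z V e i k)
    (U : Product X W V) (hU : U.Real) (hW : W.h a 0 = 1) :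
    ∃ (j : E' →ₗ[ℂ] A) (k' : ℂ), Iota Z X (U.bx 0 1 e) j k' := by
  obtain ⟨s, hs, h0, h1⟩ := W.exists_gen hW
  obtain ⟨j, k', -, h⟩ := I.right U hU hs h0 h1
  exact ⟨j, k', h⟩

end final

/-- The signatures of the columns of matched factors agree. -/
theorem Iota.gen_signature {m n : ℕ} {C C' A B : Type*} [Ring C] [Algebra ℂ C]
    [FiniteDimensional ℂ C] [Ring C'] [Algebra ℂ C'] [FiniteDimensional ℂ C']
    [Ring A] [Algebra ℂ A] [Ring B] [Algebra ℂ B] {Z : HodgeRing m C} {Z' : HodgeRing m C'}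
    {X : HodgeRing n A} {Y : HodgeRing n B} {e : Module.End ℂ A} {e' : Module.End ℂ B}
    {i : C →ₗ[ℂ] A} {i' : C' →ₗ[ℂ] B} {k k' : ℂ} (I : Iota Z X e i k) (I' : Iota Z' Y e' i' k')
    {phi : A ≃ₗ[ℂ] B} (hphi : IsMukaiIsometry X Y phi)
    (he : ∀ v, phi (e v) = e' (phi v)) (hZ : Z.h m 0 = 1) :
    Z.gen (HodgeRing.wt (-1)) = Z'.gen (HodgeRing.wt (-1)) ∧
      ∀ c : ℕ, ∑ j ∈ Finset.range (m + 1), (-1 : ℤ) ^ j * (Z.h (c + j) j : ℤ) =
        ∑ j ∈ Finset.range (m + 1), (-1 : ℤ) ^ j * (Z'.h (c + j) j : ℤ) := by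
  have hcop : ∀ v, phi (X.cop v) = Y.cop (phi v) := by
    intro v
    refine X.induct (P := fun v => phi (X.cop v) = Y.cop (phi v)) (fun p q v hv => ?_)
      (by simp) (fun a b ha hb => by rw [map_add, map_add, ha, hb, map_add, map_add]) v
    have h1 : phi v ∈ Y.column ((p : ℤ) - q) := by
      rw [← hphi.column]
      exact Submodule.mem_map_of_mem (X.mem_column rfl hv)
    rw [Y.cop_column h1, X.cop_of_mem hv, map_smul]
    congr 1
    push_cast
    rfl
  obtain ⟨psi, κ, h, -⟩ := I.sesqIso I' (sesq_of_mukai hphi) hcop he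
  obtain ⟨s, hs, h0, -⟩ := Z.exists_gen hZ
  exact ⟨h.gen_signature hs h0, h.alt_column hs h0⟩

end Pool.Agent.Hodge81
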