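import Pool.Agent.KT.Base
import Pool.Agent.KT.Canon
import Pool.Agent.KT.Iota
import Pool.Agent.KT.FacProd
import Pool.Agent.Helper98.KN.Fam

/-!
# The column operators of the factors of a product of strict Calabi-Yau varieties
-/

set_option autoImplicit false

namespace Pool.Agent.Hodge81

open Complex Module
open Pool.Agent.KT

universe u

section bx

variable {n a b : ℕ} {A C D : Type*} [Ring A] [Algebra ℂ A] [Ring C] [Algebra ℂ C]
  [Ring D] [Algebra ℂ D] {X : HodgeRing n A} {W : HodgeRing a C} {Z : HodgeRing b D}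
  (U : Product X W Z)

theorem Product.bx_zero_mul (l : ℕ) (f f' : Module.End ℂ C) (g g' : Module.End ℂ D) :
    U.bx 0 f g * U.bx l f' g' = U.bx l (f * f') (g * g') := by
  refine U.ext_ku fun w z => ?_
  rw [Module.End.mul_apply, U.bx_apply, U.bx_apply, U.bx_apply, pow_zero, Module.End.one_apply]
  rfl

theorem Product.bx_sum_left {ι : Type*} (s : Finset ι) (f : ι → Module.End ℂ C) :
    ∑ i ∈ s, U.bx 0 (f i) 1 = U.bx 0 (∑ i ∈ s, f i) 1 := by
  classical
  induction s using Finset.induction_on with
  | empty => rw [Finset.sum_empty, Finset.sum_empty, U.bx_zero_left]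
  | insert i s hi ih => rw [Finset.sum_insert hi, Finset.sum_insert hi, ih, U.bx_add_left]

theorem Product.bx_sum_right {ι : Type*} (s : Finset ι) (g : ι → Module.End ℂ D) :
    ∑ i ∈ s, U.bx 0 1 (g i) = U.bx 0 1 (∑ i ∈ s, g i) := by
  classical
  induction s using Finset.induction_on with
  | empty => rw [Finset.sum_empty, Finset.sum_empty, U.bx_zero_right]
  | insert i s hi ih => rw [Finset.sum_insert hi, Finset.sum_insert hi, ih, U.bx_add_right]

end bx

theorem cop_of_dim_zero {A : Type*} [Ring A] [Algebra ℂ A] (X : HodgeRing 0 A) : X.cop = 0 := by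
  refine PolyvectorAction.ext_H X fun p q v hv => ?_
  rw [LinearMap.zero_apply, X.cop_of_mem hv]
  by_cases h : 0 < p ∨ 0 < q
  · rw [X.bounded p q h, Submodule.mem_bot] at hv
    rw [hv, smul_zero]
  · obtain ⟨rfl, rfl⟩ : p = 0 ∧ q = 0 := by omega
    simp

/-- a point has trivial canonical bundle -/
theorem trivialCanonical_zero {A : Type*} [Ring A] [Algebra ℂ A] {X : HodgeRing 0 A}
    (P : PolyvectorAction X) : P.TrivialCanonical := by
  refine ⟨1, X.one_mem, fun a b hb => ?_⟩
  obtain rfl : b = 0 := Nat.le_zero.1 hb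
  refine ⟨fun f hf h0 => ?_, fun w hw => ?_⟩
  · obtain ⟨x, hx, rfl⟩ := (P.functions a f).1 hf
    rw [LinearMap.mulLeft_apply, mul_one] at h0
    rw [h0]
    ext v
    simp
  · exact ⟨LinearMap.mulLeft ℂ w, (P.functions a _).2 ⟨w, hw, rfl⟩, by
      rw [LinearMap.mulLeft_apply, mul_one]⟩

/-- The column operators `e j` of the factors `Z_j` of `X`; `num j` is the dimension and the
Hodge numbers of `Z_j`. -/
structure Factors {n : ℕ} {A : Type u} [Ring A] [Algebra ℂ A] {X : HodgeRing n A}
    (P : PolyvectorAction X) (L : Multiset Diamond) (J : Type) [Fintype J]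
    (e : J → Module.End ℂ A) (num : J → Diamond) : Prop where
  list : L = Finset.univ.val.map num
  fac : ∀ j, FacX P (e j) (num j).1
  iota : ∀ j, ∃ (C : Type u) (_ : Ring C) (_ : Algebra ℂ C) (_ : FiniteDimensional ℂ C)
    (Z : HodgeRing (num j).1 C) (PZ : PolyvectorAction Z) (i : C →ₗ[ℂ] A) (κ : ℂ),
    IsStrictCY PZ ∧ (num j).2 = Z.h ∧ Iota Z X (e j) i κ

section main

variable {n : ℕ} {A : Type u} [Ring A] [Algebra ℂ A] {X : HodgeRing n A} {P : PolyvectorAction X}
  {L : Multiset Diamond}

/-- a product of strict Calabi-Yau varieties has no one- and two-forms -/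
theorem IsCYProduct.forms_low (h : IsCYProduct P L) {k : ℕ} (h0 : 0 < k) (hk : k < 3) :
    X.h 0 k = 0 := by
  have h2 : ∀ d ∈ L, (Polynomial.X : Polynomial ℤ) ^ 3 ∣ dGen fw d - 1 := by
    intro d hd
    obtain ⟨A, _, _, _, Z, P, hP, e⟩ := h.realized d hd
    obtain ⟨m, f⟩ := d
    dsimp only at e Z
    subst e
    have h3 := hP.three
    rw [Polynomial.X_pow_dvd_iff]
    intro l hl
    rw [dGen_eq, Polynomial.coeff_sub, coeff_gen_fw, hP.h_forms, Polynomial.coeff_one]
    rcases Nat.eq_zero_or_pos l with rfl | hl0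
    · simp
    · rw [if_neg (by omega), if_neg (by omega)]
      simp
  have h3 : (Polynomial.X : Polynomial ℤ) ^ 3 ∣ (L.map (dGen fw)).prod - 1 := by
    clear h
    induction L using Multiset.induction_on with
    | empty => simp
    | cons a s ih =>
      rw [Multiset.map_cons, Multiset.prod_cons]
      have e1 := h2 a (Multiset.mem_cons_self a s)
      have e2 := ih fun d hd => h2 d (Multiset.mem_cons_of_mem hd)
      have e3 : dGen fw a * (s.map (dGen fw)).prod - 1 =
          dGen fw a * ((s.map (dGen fw)).prod - 1) + (dGen fw a - 1) := by ring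
      rw [e3]
      exact dvd_add (Dvd.dvd.mul_left e2 _) e1
  rw [← h.gen_eq fw fw_zero fw_add, Polynomial.X_pow_dvd_iff] at h3
  have h4 := h3 k hk
  rw [Polynomial.coeff_sub, coeff_gen_fw, Polynomial.coeff_one, if_neg (by omega), sub_zero] at h4
  exact_mod_cast h4

theorem IsCYProduct.h_one (h : IsCYProduct P L) : X.h 0 1 = 0 := h.forms_low one_pos (by omega)

theorem IsCYProduct.h_two (h : IsCYProduct P L) : X.h 0 2 = 0 := h.forms_low two_pos (by omega)

theorem IsCYProduct.finite (h : IsCYProduct P L) : FiniteDimensional ℂ A := by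
  cases h <;> infer_instance

/-- a product of strict Calabi-Yau varieties has trivial canonical bundle -/
theorem IsCYProduct.canonical (h : IsCYProduct P L) : P.TrivialCanonical := by
  induction h with
  | @point A _ _ _ Z P => exact trivialCanonical_zero P
  | single P h => exact h.canonical
  | prod U hU P PW PZ K L M _ _ ih1 ih2 => exact K.trivialCanonical ih1 ih2

theorem IsCYProduct.h_top (h : IsCYProduct P L) : X.h n 0 = 1 := h.canonical.h_top

theorem IsCYProduct.factors (h : IsCYProduct P L) : ∃ (J : Type) (_ : Fintype J)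
    (e : J → Module.End ℂ A) (num : J → Diamond), Factors P L J e num ∧ ∑ j, e j = X.cop := by
  induction h with
  | @point A _ _ _ Z P =>
    refine ⟨Empty, inferInstance, fun j => j.elim, fun j => j.elim, ⟨by simp, fun j => j.elim,
      fun j => j.elim⟩, ?_⟩
    rw [cop_of_dim_zero]
    simp
  | @single m A _ _ _ Z P h =>
    refine ⟨Unit, inferInstance, fun _ => Z.cop, fun _ => (m, Z.h), ⟨by simp,
      fun _ => self_facX h.three h.canonical h.forms, fun _ => ?_⟩, by simp⟩
    exact ⟨A, inferInstance, inferInstance, inferInstance, Z, P, LinearMap.id, 1, h, rfl,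
      Iota.self Z⟩
  | @prod n a b A C D _ _ _ _ _ _ _ _ _ X W Z U hU P PW PZ K L M hW hZ ih1 ih2 =>
    obtain ⟨J1, _, e1, num1, F1, s1⟩ := ih1
    obtain ⟨J2, _, e2, num2, F2, s2⟩ := ih2
    refine ⟨J1 ⊕ J2, inferInstance, Sum.elim (fun j => U.bx 0 (e1 j) 1) (fun j => U.bx 0 1 (e2 j)),
      Sum.elim num1 num2, ⟨?_, ?_, ?_⟩, ?_⟩
    · rw [F1.list, F2.list, ← Finset.univ_disjSum_univ, Finset.val_disjSum, Multiset.disjSum,
        Multiset.map_add, Multiset.map_map, Multiset.map_map]
      rfl
    · rintro (j | j)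
      · exact FacX.inl K hU (Or.inl hW.h_one) (F1.fac j)
      · exact FacX.inr K hU (Or.inr hZ.h_one) (F2.fac j)
    · rintro (j | j)
      · obtain ⟨E, _, _, _, V, PV, i, κ, h1, h2, I⟩ := F1.iota j
        obtain ⟨i', κ', I'⟩ := I.inl U hU hZ.h_top
        exact ⟨E, inferInstance, inferInstance, inferInstance, V, PV, i', κ', h1, h2, I'⟩
      · obtain ⟨E, _, _, _, V, PV, i, κ, h1, h2, I⟩ := F2.iota j
        obtain ⟨i', κ', I'⟩ := I.inr U hU hW.h_top
        exact ⟨E, inferInstance, inferInstance, inferInstance, V, PV, i', κ', h1, h2, I'⟩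
    · rw [Fintype.sum_sum_type]
      simp only [Sum.elim_inl, Sum.elim_inr]
      rw [U.bx_sum_left, U.bx_sum_right, s1, s2]
      exact U.cl_add_cr

end main

end Pool.Agent.Hodge81
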