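import Pool.Agent.Helper51.SY.Sl2

/-!
# The Hodge numbers of the symplectic factor, from the columns of the other factor
-/

set_option autoImplicit false

namespace Pool.Agent.Hodge81

open Complex Module LaurentPolynomial

universe u

variable {n r b : ℕ} {A B : Type u} {C D C' D' : Type*}
  [Ring A] [Algebra ℂ A] [FiniteDimensional ℂ A] [Ring B] [Algebra ℂ B] [FiniteDimensional ℂ B]
  [Ring C] [Algebra ℂ C] [FiniteDimensional ℂ C] [Ring D] [Algebra ℂ D] [FiniteDimensional ℂ D]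
  [Ring C'] [Algebra ℂ C'] [FiniteDimensional ℂ C']
  [Ring D'] [Algebra ℂ D'] [FiniteDimensional ℂ D']
  {X : HodgeRing n A} {Y : HodgeRing n B} {P : PolyvectorAction X} {Q : PolyvectorAction Y}
  {phi : A ≃ₗ[ℂ] B}

theorem symplectic_factor_aux (h : IsHochschildIso P Q phi) (hM : IsMukaiIsometry X Y phi)
    {S : HodgeRing (2 * r) C} {Z : HodgeRing b D} {S' : HodgeRing (2 * r) C'}
    {Z' : HodgeRing b D'} (U : Product X S Z) (U' : Product Y S' Z')
    (hS : S.FormsNondegenerate r) (hS' : S'.FormsNondegenerate r)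
    (ex : ∃ x ∈ S.H 0 2, x ^ r ≠ 0) (ex' : ∃ x ∈ S'.H 0 2, x ^ r ≠ 0)
    (z1 : Z.h 0 1 = 0) (z2 : Z.h 0 2 = 0) (z1' : Z'.h 0 1 = 0) (z2' : Z'.h 0 2 = 0)
    (hcol : Z.gen (HodgeRing.wt 1) = Z'.gen (HodgeRing.wt 1)) (p q : ℕ) :
    S.h p q = S'.h p q := by
  obtain ⟨x, hx, hxr⟩ := ex
  obtain ⟨y, hy, hyr⟩ := ex'
  have hrk : ∀ m ≤ r, ∀ d, X.rk (U.fst (x ^ (r - m))) d = Y.rk (U'.fst (y ^ (r - m))) d := by
    intro m hm d
    apply le_antisymm
    · exact rank_le_product h hM U U' hS hx hxr hy hyr z1 z2 hm d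
    · exact rank_le_product h.symm hM.symm U' U hS' hy hyr hx hxr z1' z2' hm d
  have hL : ∀ m ≤ r, S.rkL (x ^ (r - m)) * Z.gen (HodgeRing.wt 1) =
      S'.rkL (y ^ (r - m)) * Z'.gen (HodgeRing.wt 1) := by
    intro m hm
    rw [← U.rkL_fst, ← U'.rkL_fst]
    ext d
    rw [X.coeff_rkL, Y.coeff_rkL, hrk m hm d]
  have hne : S.rkL (x ^ (r - 0)) * Z.gen (HodgeRing.wt 1) ≠ 0 := by
    rw [← U.rkL_fst]
    intro h0
    have h1 := congrArg (fun f => f.coeff (0 : ℤ)) h0
    have h2 : (X.rkL (U.fst (x ^ (r - 0)))).coeff 0 = 0 := h1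
    rw [X.coeff_rkL, Nat.cast_eq_zero] at h2
    unfold HodgeRing.rk at h2
    rw [Submodule.finrank_eq_zero] at h2
    have h3 : LinearMap.mulLeft ℂ (U.fst (x ^ (r - 0))) 1 ∈
        (X.column 0).map (LinearMap.mulLeft ℂ (U.fst (x ^ (r - 0)))) :=
      ⟨1, X.mem_column (i := 0) (by simp) X.one_mem, rfl⟩
    rw [h2, Submodule.mem_bot, LinearMap.mulLeft_apply, mul_one] at h3
    exact hxr (U.fst_inj _ h3)
  have hne2 := right_ne_zero_of_mul hne
  refine h_eq_of_ranks (S := S) (S' := S') (fun m hm d => ?_) p q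
  have h1 := hL m hm
  rw [← hcol] at h1
  have h2 := mul_right_cancel₀ hne2 h1
  have h3 := congrArg (fun f => f.coeff d) h2
  have h4 : (S.rkL (x ^ (r - m))).coeff d = (S'.rkL (y ^ (r - m))).coeff d := h3
  rw [S.coeff_rkL, S'.coeff_rkL, S.rk_pow rfl hS hx hxr d hm,
    S'.rk_pow rfl hS' hy hyr d hm] at h4
  exact_mod_cast h4

/-- The symplectic factors of derived equivalent products have the same dimension. -/
theorem symplectic_dim (h : IsHochschildIso P Q phi) {r' b' : ℕ}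
    {S : HodgeRing (2 * r) C} {Z : HodgeRing b D} {S' : HodgeRing (2 * r') C'}
    {Z' : HodgeRing b' D'} (U : Product X S Z) (U' : Product Y S' Z')
    (hS : S.Symplectic) (hS' : S'.Symplectic)
    (z1 : Z.h 0 1 = 0) (z2 : Z.h 0 2 = 0) (z1' : Z'.h 0 1 = 0) (z2' : Z'.h 0 2 = 0) : r = r' :=
  le_antisymm (dim_le h U U' hS.exists_conj z1' z2')
    (dim_le h.symm U' U hS'.exists_conj z1 z2)

/-- The symplectic factors of derived equivalent products have the same Hodge numbers if the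
other factors have the same columns. -/
theorem symplectic_factor (h : IsHochschildIso P Q phi) (hM : IsMukaiIsometry X Y phi)
    {S : HodgeRing (2 * r) C} {Z : HodgeRing b D} {S' : HodgeRing (2 * r) C'}
    {Z' : HodgeRing b D'} (U : Product X S Z) (U' : Product Y S' Z')
    (hS : S.Symplectic) (hS' : S'.Symplectic)
    (z1 : Z.h 0 1 = 0) (z2 : Z.h 0 2 = 0) (z1' : Z'.h 0 1 = 0) (z2' : Z'.h 0 2 = 0)
    (hcol : Z.gen (HodgeRing.wt 1) = Z'.gen (HodgeRing.wt 1)) (p q : ℕ) :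
    S.h p q = S'.h p q :=
  symplectic_factor_aux h hM U U' hS.forms hS'.forms hS.exists_conj hS'.exists_conj z1 z2 z1' z2'
    hcol p q

end Pool.Agent.Hodge81
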