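import Pool.Agent.KT.Asm
import Pool.Agent.KT.Factors
import Pool.Agent.KT.SNum

/-!
# Derived equivalent varieties with trivial canonical bundle
-/

set_option autoImplicit false

namespace Pool.Agent.Hodge81

open Complex Module LaurentPolynomial
open Pool.Agent.KT
open Pool.Agent.CY94
open IsHochschildIso

universe u

section isometry

variable {n : ℕ} {A B : Type*} [Ring A] [Algebra ℂ A] [Ring B] [Algebra ℂ B]
  {X : HodgeRing n A} {Y : HodgeRing n B} {phi : A ≃ₗ[ℂ] B}

/-- the sesquilinear form is preserved -/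
theorem IsMukaiIsometry.sesq_eq (hM : IsMukaiIsometry X Y phi) (v w : A) :
    Y.sesq (phi v) (phi w) = X.sesq v w := by
  have h := hM.h0 v (X.conj w)
  rw [hM.conj] at h
  exact h

theorem IsMukaiIsometry.cop_eq (hM : IsMukaiIsometry X Y phi) (v : A) :
    phi (X.cop v) = Y.cop (phi v) := by
  rw [← opEquiv_cop hM, opEquiv_apply, phi.symm_apply_apply]

end isometry

/-- Two factors which are matched by a derived equivalence have the same columns and
signatures. -/
theorem matched_factors {m m' n : ℕ} {C C' A B : Type*} [Ring C] [Algebra ℂ C]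
    [FiniteDimensional ℂ C] [Ring C'] [Algebra ℂ C'] [FiniteDimensional ℂ C']
    [Ring A] [Algebra ℂ A] [Ring B] [Algebra ℂ B] {Z : HodgeRing m C} {Z' : HodgeRing m' C'}
    {X : HodgeRing n A} {Y : HodgeRing n B} {e : Module.End ℂ A} {e' : Module.End ℂ B}
    {i : C →ₗ[ℂ] A} {i' : C' →ₗ[ℂ] B} {k k' : ℂ} (I : Iota Z X e i k) (I' : Iota Z' Y e' i' k')
    {phi : A ≃ₗ[ℂ] B} (hM : IsMukaiIsometry X Y phi) (he : ∀ v, phi (e v) = e' (phi v))
    (hm : m = m') (hZ : Z.h m 0 = 1) :
    SameColumns (m, Z.h) (m', Z'.h) ∧ SameSignatures (m, Z.h) (m', Z'.h) := by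
  subst hm
  obtain ⟨psi, κ, h, -⟩ := I.sesqIso I' hM.sesq_eq hM.cop_eq he
  obtain ⟨s, hs, h0, -⟩ := Z.exists_gen hZ
  refine ⟨⟨rfl, ?_⟩, h.gen_signature hs h0⟩
  rw [dGen_eq, dGen_eq]
  ext d
  rw [Z.coeff_gen_column, Z'.coeff_gen_column, h.column_finrank d]

theorem SymplecticP.toSymplectic {r : ℕ} {C : Type*} [Ring C] [Algebra ℂ C]
    {S : HodgeRing (2 * r) C} {PS : PolyvectorAction S} (h : SymplecticP PS) : S.Symplectic where
  exists_form := h.exists_form
  inverse s hs hr := by
    obtain ⟨t, -, ht⟩ := h.inverse s hs hr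
    exact ⟨t, ht⟩

section main

variable {n r r' b b' : ℕ} {A B C D C' D' : Type u}
  [Ring A] [Algebra ℂ A] [FiniteDimensional ℂ A] [Ring B] [Algebra ℂ B] [FiniteDimensional ℂ B]
  [Ring C] [Algebra ℂ C] [FiniteDimensional ℂ C] [Ring D] [Algebra ℂ D] [FiniteDimensional ℂ D]
  [Ring C'] [Algebra ℂ C'] [FiniteDimensional ℂ C']
  [Ring D'] [Algebra ℂ D'] [FiniteDimensional ℂ D']
  {X : HodgeRing n A} {Y : HodgeRing n B} {P : PolyvectorAction X} {Q : PolyvectorAction Y}
  {phi : A ≃ₗ[ℂ] B} {S : HodgeRing (2 * r) C} {Z : HodgeRing b D} {S' : HodgeRing (2 * r') C'}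
  {Z' : HodgeRing b' D'} {PS : PolyvectorAction S} {PZ : PolyvectorAction Z}
  {PS' : PolyvectorAction S'} {PZ' : PolyvectorAction Z'} {L L' : Multiset Diamond}

/-- the factors are matched -/
theorem rel_factors (h : IsHochschildIso P Q phi) (hM : IsMukaiIsometry X Y phi)
    (U : Decomposition P PS PZ L) (U' : Decomposition Q PS' PZ' L') :
    Multiset.Rel (fun d d' => SameColumns d d' ∧ SameSignatures d d') L L' := by
  obtain ⟨J, _, e, num, F, sum⟩ := U.factors.factors
  obtain ⟨J', _, e', num', F', sum'⟩ := U'.factors.factors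
  have hP : P.TrivialCanonical := U.polyvector.trivialCanonical U.canonical U.factors.canonical
  obtain ⟨π, hπ⟩ := factors_match h hM hP U.toProduct U'.toProduct U.polyvector U'.polyvector U.real
    U'.real U.symplectic U'.symplectic (e := fun j => U.bx 0 1 (e j)) (m := fun j => (num j).1)
    (fun j => FacX.inr U.polyvector U.real (Or.inr U.factors.h_one) (F.fac j))
    (by rw [U.bx_sum_right, sum]; rfl) (g := fun j => U'.bx 0 1 (e' j))
    (m' := fun j => (num' j).1)
    (fun j => FacX.inr U'.polyvector U'.real (Or.inr U'.factors.h_one) (F'.fac j))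
    (by rw [U'.bx_sum_right, sum']; rfl)
  rw [F.list, F'.list]
  refine rel_of_equiv num num' π fun j => ?_
  obtain ⟨hd, hop⟩ := hπ j
  obtain ⟨E, _, _, _, V, PV, i, κ, h1, h2, I⟩ := F.iota j
  obtain ⟨E', _, _, _, V', PV', i', κ', h1', h2', I'⟩ := F'.iota (π j)
  obtain ⟨i1, κ1, I1⟩ := I.inr U.toProduct U.real U.canonical.h_top
  obtain ⟨i2, κ2, I2⟩ := I'.inr U'.toProduct U'.real U'.canonical.h_top
  have key := matched_factors I1 I2 hM (fun v => by
    rw [← hop, opEquiv_apply, phi.symm_apply_apply]) hd h1.canonical.h_top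
  rw [← h2, ← h2'] at key
  exact key

theorem rel_columns {L L' : Multiset Diamond}
    (e : Multiset.Rel (fun d d' => SameColumns d d' ∧ SameSignatures d d') L L') :
    (L.map (dGen (HodgeRing.wt 1))).prod = (L'.map (dGen (HodgeRing.wt 1))).prod := by
  induction e with
  | zero => rfl
  | @cons a b as bs hab _ ih =>
    rw [Multiset.map_cons, Multiset.map_cons, Multiset.prod_cons, Multiset.prod_cons, ih,
      hab.1.2]

/-- Derived equivalent varieties with trivial canonical bundle: the symplectic factors have the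
same Hodge numbers, the strict Calabi-Yau factors match, with their dimensions, columns and
signatures, and the numbers `h^{0,q}` agree. If the strict Calabi-Yau factors have dimensions at
most five, then all Hodge numbers agree. -/
theorem decomposition_main (h : IsHochschildIso P Q phi) (hM : IsMukaiIsometry X Y phi)
    (U : Decomposition P PS PZ L) (U' : Decomposition Q PS' PZ' L') :
    r = r' ∧ b = b' ∧ (∀ p q, S.h p q = S'.h p q) ∧ Multiset.Rel Diamond.Matches L L' ∧
      (∀ q, X.h 0 q = Y.h 0 q) ∧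
      ((∀ d ∈ L, d.1 ≤ 5) → L = L' ∧ ∀ p q, X.h p q = Y.h p q) := by
  have z1 := U.factors.h_one
  have z2 := U.factors.h_two
  have z1' := U'.factors.h_one
  have z2' := U'.factors.h_two
  have hS := U.symplectic.toSymplectic
  have hS' := U'.symplectic.toSymplectic
  obtain rfl := symplectic_dim h U.toProduct U'.toProduct hS hS' z1 z2 z1' z2'
  obtain rfl : b = b' := by
    have h1 := U.dim
    have h2 := U'.dim
    omega
  have hrel := rel_factors h hM U U'
  have hcol : Z.gen (HodgeRing.wt 1) = Z'.gen (HodgeRing.wt 1) := by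
    have h0 : HodgeRing.wt 1 0 = 1 := by simp [HodgeRing.wt]
    rw [U.factors.gen_eq _ h0 (HodgeRing.wt_add 1), U'.factors.gen_eq _ h0 (HodgeRing.wt_add 1),
      rel_columns hrel]
  have hSS := symplectic_factor h hM U.toProduct U'.toProduct hS hS' z1 z2 z1' z2' hcol
  obtain ⟨h1, h2⟩ := conclude U.toProduct U'.toProduct U.factors U'.factors rfl hSS hrel
  exact ⟨rfl, rfl, hSS, (rel_iff U.factors.realized U'.factors.realized).2 hrel, h1, h2⟩

end main

end Pool.Agent.Hodge81
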