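import Pool.Agent.KT.Fac

/-!
# No mixing: normal operators commute with the column operator of a strict Calabi-Yau factor
-/

set_option autoImplicit false

namespace Pool.Agent.KT

open Module

section perp

variable {E : Type*} [Ring E] [Algebra ℂ E] [FiniteDimensional ℂ E] {R : ℕ → Submodule ℂ E}
  {c e' w : E} {m : ℕ}

omit [FiniteDimensional ℂ E] in
theorem CYData.mul_span (hG : Grad R c) (hC : CYData R e' m w) {a b : E} (ha : a ∈ pt R e' m)
    (hb : b ∈ pt R e' m) : ∃ z : ℂ, a * b = z • w := by
  refine hC.top _ ?_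
  rw [two_mul]
  exact pt_mul hG ha hb

/-- the annihilator of an element of middle degree contains a pair with nonzero product -/
theorem exists_perp (hG : Grad R c) (hC : CYData R e' m w) {a : E} (ha : a ∈ pt R e' m) :
    ∃ p ∈ pt R e' m, ∃ q ∈ pt R e' m, a * p = 0 ∧ a * q = 0 ∧ p * q ≠ 0 := by
  by_cases ha0 : a = 0
  · obtain ⟨u, hu, u', hu', huu, -⟩ := hC.pair
    exact ⟨u, hu, u', hu', by rw [ha0, zero_mul], by rw [ha0, zero_mul], by rw [huu]; exact hC.ne⟩
  by_contra hcon
  push Not at hcon
  obtain ⟨-, b0, hb0, hab⟩ := hC.pd m a ha ha0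
  rw [show 2 * m - m = m by omega] at hb0
  -- the annihilator
  set K : Submodule ℂ E := pt R e' m ⊓ LinearMap.ker (LinearMap.mulLeft ℂ a) with hK
  have hK2 : ∀ x, x ∈ K ↔ x ∈ pt R e' m ∧ a * x = 0 := fun x => Iff.rfl
  have hle : K ≤ Submodule.span ℂ {a} := by
    intro x hx
    obtain ⟨hx1, hx2⟩ := (hK2 x).1 hx
    obtain ⟨z, hz⟩ := hC.mul_span hG hx1 hb0
    have h1 : x - z • a = 0 := by
      by_contra hne
      obtain ⟨-, y, hy, hxy⟩ := hC.pd m (x - z • a)
        (Submodule.sub_mem _ hx1 (Submodule.smul_mem _ _ ha)) hne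
      rw [show 2 * m - m = m by omega] at hy
      obtain ⟨l, hl⟩ := hC.mul_span hG ha hy
      have e1 : a * (y - l • b0) = 0 := by
        rw [mul_sub, mul_smul_comm, hl, hab, sub_self]
      have e2 : x * (y - l • b0) = 0 :=
        hcon x hx1 _ (Submodule.sub_mem _ hy (Submodule.smul_mem _ _ hb0)) hx2 e1
      have e3 : (x - z • a) * (y - l • b0) = 0 := by
        rw [sub_mul, smul_mul_assoc, e1, e2, smul_zero, sub_zero]
      have e4 : (x - z • a) * b0 = 0 := by
        rw [sub_mul, smul_mul_assoc, hz, hab, sub_self]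
      rw [mul_sub, mul_smul_comm, e4, smul_zero, sub_zero, hxy] at e3
      exact hC.ne e3
    rw [sub_eq_zero] at h1
    rw [h1]
    exact Submodule.smul_mem _ _ (Submodule.mem_span_singleton_self a)
  -- dimensions
  have h1 : finrank ℂ K ≤ 1 := by
    refine (Submodule.finrank_mono hle).trans ?_
    have := finrank_span_le_card (R := ℂ) ({a} : Set E)
    simpa using this
  have h2 : pt R e' m ≤ K ⊔ Submodule.span ℂ {b0} := by
    intro y hy
    obtain ⟨l, hl⟩ := hC.mul_span hG ha hy
    have e1 : a * (y - l • b0) = 0 := by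
      rw [mul_sub, mul_smul_comm, hl, hab, sub_self]
    have e2 : y = (y - l • b0) + l • b0 := by abel
    rw [e2]
    exact Submodule.add_mem_sup ((hK2 _).2 ⟨Submodule.sub_mem _ hy (Submodule.smul_mem _ _ hb0),
      e1⟩) (Submodule.smul_mem _ _ (Submodule.mem_span_singleton_self b0))
  have h3 : finrank ℂ (Submodule.span ℂ ({b0} : Set E)) ≤ 1 := by
    have := finrank_span_le_card (R := ℂ) ({b0} : Set E)
    simpa using this
  have h4 := (Submodule.finrank_mono h2).trans (Submodule.finrank_add_le_finrank_add_finrank _ _)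
  have := hC.dim
  omega

end perp

section deriv

variable {E : Type*} [Ring E] [Algebra ℂ E] [FiniteDimensional ℂ E] {R : ℕ → Submodule ℂ E}
  {c e e' w D : E} {m : ℕ}

/-- a derivation of weight `μ`, not a nonpositive integer, kills the top class of a strict
Calabi-Yau factor -/
theorem top_killed (hG : Grad R c) (hS : Split R c e e') (hC : CYData R e' m w)
    (hD : ∀ k, ∀ f ∈ R k, ad D f ∈ R k) {μ : ℂ} (hμ : ad e D = μ • D)
    (hpos : ∀ l : ℕ, μ ≠ -(l : ℂ)) : ad D w = 0 := by
  obtain ⟨u, hu, u', hu', huu, hkill⟩ := hC.pair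
  -- the weight of the derivative
  have hwt : ∀ k, ∀ a ∈ pt R e' k, ad e (ad D a) = (μ - k) • ad D a := fun k a ha => by
    rw [Pool.Agent.Hodge81.ad_ad_right, hμ, hS.ad_first hG ha,
      Pool.Agent.Hodge81.ad_smul_left, map_smul, ← add_smul]
    congr 1
  -- the derivative lies in a piece
  have hpiece : ∀ k, ∀ a ∈ pt R e' k, ad D a ≠ 0 → ∃ l, 0 < l ∧ l ≤ k ∧ μ = (l : ℂ) ∧
      ad D a ∈ pt R e' (k - l) * pt R e l := by
    intro k a ha hne
    obtain ⟨j, hj, hjμ⟩ := hS.weight_le hG (hD k a ha.1) (hwt k a ha) hne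
    have hμ2 : μ = ((k - j : ℕ) : ℂ) := by
      rw [Nat.cast_sub hj]
      linear_combination hjμ
    have hl : 0 < k - j := by
      rcases Nat.eq_zero_or_pos (k - j) with h0 | h0
      · exact absurd (by rw [hμ2, h0]; simp) (hpos 0)
      · exact h0
    refine ⟨k - j, hl, by omega, hμ2, ?_⟩
    have h1 := hS.mem_piece hG (hD k a ha.1) (a := j) (mem_wt.2 (by rw [hwt k a ha, hjμ]))
    rw [span_eq] at h1
    rw [show k - (k - j) = j by omega]
    exact h1
  have hder : ad D w = ad D u * u' + u * ad D u' := by rw [← huu, ad_mul]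
  have hkill' : ∀ k, 0 < k → k < m → ∀ f ∈ pt R e' k, f * u' = 0 := fun k h1 h2 f hf =>
    mul_zero_comm hG hu'.1 hf.1 (hkill k h1 h2 f hf).2
  -- the middle weight
  have hmid : μ = (m : ℂ) → ∀ a ∈ pt R e' m, ad D a = 0 := by
    intro hm a ha
    have hsec : ∀ b ∈ pt R e' m, ad D b ∈ pt R e m := by
      intro b hb
      by_cases hb0 : ad D b = 0
      · rw [hb0]
        exact Submodule.zero_mem _
      · obtain ⟨l, -, hl, hlμ, h2⟩ := hpiece m b hb hb0
        obtain rfl : m = l := by
          rw [hm] at hlμ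
          exact_mod_cast hlμ
        refine (Submodule.mul_le.2 fun x hx y hy => ?_ : pt R e' (m - m) * pt R e m ≤ _) h2
        rw [Nat.sub_self] at hx
        obtain ⟨z, rfl⟩ := hG.zero x hx.1
        rw [smul_mul_assoc, one_mul]
        exact Submodule.smul_mem _ _ hy
    obtain ⟨p, hp, q, hq, h1, h2, h3⟩ := exists_perp hG hC ha
    have e1 : ad D a * p + a * ad D p = 0 := by rw [← ad_mul, h1, map_zero]
    have e2 : a * ad D p * q = 0 := by
      rw [mul_assoc, hG.comm m m (ad D p) (hD m p hp.1) q hq.1, mul_smul_comm, ← mul_assoc, h2,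
        zero_mul, smul_zero]
    have e3 : ad D a * (p * q) = 0 := by
      have := congrArg (fun x => x * q) e1
      simp only [add_mul, zero_mul] at this
      rw [e2, add_zero, mul_assoc] at this
      exact this
    obtain ⟨z, hz⟩ := hC.mul_span hG hp hq
    have hz0 : z ≠ 0 := fun h0 => h3 (by rw [hz, h0, zero_smul])
    rw [hz, mul_smul_comm, smul_eq_zero] at e3
    have e4 := e3.resolve_left hz0
    have e5 : w * ad D a = 0 := mul_zero_comm hG (hD m a ha.1) hC.mem.1 e4
    exact (hS.cross _ _ w hC.mem _ (hsec a ha) e5).resolve_left hC.ne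
  have h1 : ad D u * u' = 0 := by
    by_cases h0 : ad D u = 0
    · rw [h0, zero_mul]
    · obtain ⟨l, hl0, hl, hlμ, h2⟩ := hpiece m u hu h0
      rcases Nat.lt_or_ge l m with h3 | h3
      · have h4 : pt R e' (m - l) * pt R e l ≤ LinearMap.ker (LinearMap.mulRight ℂ u') := by
          refine Submodule.mul_le.2 fun x hx y hy => ?_
          rw [LinearMap.mem_ker, LinearMap.mulRight_apply, mul_assoc,
            hG.comm l m y hy.1 u' hu'.1, mul_smul_comm, ← mul_assoc,
            hkill' (m - l) (by omega) (by omega) x hx, zero_mul, smul_zero]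
        exact h4 h2
      · obtain rfl : m = l := by omega
        exact absurd (hmid hlμ u hu) h0
  have h2 : u * ad D u' = 0 := by
    by_cases h0 : ad D u' = 0
    · rw [h0, mul_zero]
    · obtain ⟨l, hl0, hl, hlμ, h2⟩ := hpiece m u' hu' h0
      rcases Nat.lt_or_ge l m with h3 | h3
      · have h4 : pt R e' (m - l) * pt R e l ≤ LinearMap.ker (LinearMap.mulLeft ℂ u) := by
          refine Submodule.mul_le.2 fun x hx y hy => ?_
          rw [LinearMap.mem_ker, LinearMap.mulLeft_apply, ← mul_assoc,
            (hkill (m - l) (by omega) (by omega) x hx).1, zero_mul]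
        exact h4 h2
      · obtain rfl : m = l := by omega
        exact absurd (hmid hlμ u' hu') h0
  rw [hder, h1, h2, add_zero]

end deriv

end Pool.Agent.KT

namespace Pool.Agent.Hodge81

open Complex Module
open Pool.Agent.KT Pool.Agent.BB51

variable {n : ℕ} {A : Type*} [Ring A] [Algebra ℂ A] {X : HodgeRing n A}
  {P : PolyvectorAction X} {e : Module.End ℂ A} {m : ℕ}

/-- the values of the polyvector fields on a generator of `H^{n,0}` -/
theorem PolyvectorAction.TrivialCanonical.exists_gen (hP : P.TrivialCanonical) :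
    ∃ s ∈ X.H n 0, (∀ k, ∀ f ∈ P.total k, f s = 0 → f = 0) ∧
      ∀ v : A, v ∈ ⨆ k ∈ Finset.range (2 * n + 1), (P.total k).map (LinearMap.applyₗ s) := by
  obtain ⟨s, hs, h1⟩ := hP
  refine ⟨s, hs, fun k f hf h0 => PolyvectorAction.total_eq_zero hs
    (fun a b hb => (h1 a b hb).1) hf h0, fun v => ?_⟩
  refine X.induct (P := fun v => v ∈ ⨆ k ∈ Finset.range (2 * n + 1),
    (P.total k).map (LinearMap.applyₗ s)) (fun p q v hv => ?_) (Submodule.zero_mem _)
    (fun a b ha hb => Submodule.add_mem _ ha hb) v
  by_cases hpq : n < p ∨ n < q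
  · rw [X.bounded p q hpq, Submodule.mem_bot] at hv
    rw [hv]
    exact Submodule.zero_mem _
  · obtain ⟨k, hk⟩ : ∃ k, k + p = n + q := ⟨n + q - p, by omega⟩
    obtain ⟨f, hf, rfl⟩ := PolyvectorAction.total_surj (P := P)
      (fun a b hb => (h1 a b hb).2) (k := k) (w := v) (X.mem_column (by omega) hv)
    have hk2 : k ∈ Finset.range (2 * n + 1) := by
      rw [Finset.mem_range]
      omega
    exact Submodule.mem_iSup_of_mem k (Submodule.mem_iSup_of_mem hk2 ⟨f, hf, rfl⟩)

namespace Fac

/-- the part of weight `m - i` generated by `s` -/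
def part (P : PolyvectorAction X) (e : Module.End ℂ A) (s : A) (i : ℕ) : Submodule ℂ A :=
  Submodule.span ℂ {v | ∃ a ∈ pt P.total (X.cop - e) i, ∃ j, ∃ g ∈ pt P.total e j,
    v = a (g s)}

theorem second_s (F : Fac P e m) {s : A} (hs : s ∈ X.H n 0) {j : ℕ} {g : Module.End ℂ A}
    (hg : g ∈ pt P.total e j) : e (g s) = (m : ℂ) • g s := by
  have h1 := LinearMap.congr_fun (mem_pt.1 hg).2 s
  rw [ad_apply, LinearMap.sub_apply, Module.End.mul_apply, Module.End.mul_apply, F.gen s hs,
    map_smul, LinearMap.zero_apply, sub_eq_zero] at h1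
  exact h1

theorem part_weight (F : Fac P e m) {s : A} (hs : s ∈ X.H n 0) (i : ℕ) {v : A}
    (hv : v ∈ part P e s i) : e v = ((m : ℂ) - i) • v := by
  have h1 : part P e s i ≤ e.eigenspace ((m : ℂ) - i) := by
    refine Submodule.span_le.2 ?_
    rintro _ ⟨a, ha, j, g, hg, rfl⟩
    refine Module.End.mem_eigenspace_iff.2 ?_
    have h1 := LinearMap.congr_fun (F.split.ad_first P.grad ha) (g s)
    rw [ad_apply, LinearMap.sub_apply, Module.End.mul_apply, Module.End.mul_apply,
      F.second_s hs hg, map_smul, LinearMap.smul_apply, sub_eq_iff_eq_add] at h1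
    rw [h1, ← add_smul]
    congr 1
    ring
  exact Module.End.mem_eigenspace_iff.1 (h1 hv)

theorem total_part (F : Fac P e m) (s : A) {k : ℕ} {f : Module.End ℂ A} (hf : f ∈ P.total k)
    {N : ℕ} (hN : k < N) : f s ∈ ⨆ i ∈ Finset.range N, part P e s i := by
  have h1 : P.total k ≤ (⨆ i ∈ Finset.range N, part P e s i).comap (LinearMap.applyₗ s) := by
    refine (F.split.span k).trans (iSup_le fun i => Submodule.span_le.2 ?_)
    rintro _ ⟨a, ha, g, hg, rfl⟩
    have hi := i.2
    have hi2 : (i : ℕ) ∈ Finset.range N := by rw [Finset.mem_range]; omega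
    exact Submodule.mem_iSup_of_mem (i : ℕ) (Submodule.mem_iSup_of_mem hi2
      (Submodule.subset_span ⟨a, ha, _, g, hg, rfl⟩))
  exact h1 hf

theorem all_part (F : Fac P e m) {s : A}
    (hV : ∀ v : A, v ∈ ⨆ k ∈ Finset.range (2 * n + 1), (P.total k).map (LinearMap.applyₗ s))
    {N : ℕ} (hN : 2 * n < N) (v : A) : v ∈ ⨆ i ∈ Finset.range N, part P e s i := by
  have h1 : (⨆ k ∈ Finset.range (2 * n + 1), (P.total k).map (LinearMap.applyₗ s)) ≤
      ⨆ i ∈ Finset.range N, part P e s i := by
    refine iSup₂_le fun k hk => ?_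
    rintro _ ⟨f, hf, rfl⟩
    rw [Finset.mem_range] at hk
    exact F.total_part s hf (by omega)
  exact h1 (hV v)

theorem semisimple (F : Fac P e m) (hP : P.TrivialCanonical) : e.IsSemisimple := by
  obtain ⟨s, hs, -, hV⟩ := hP.exists_gen
  exact semisimple_of_iSup (S := part P e s) (μ := fun i => (m : ℂ) - i)
    (F := Finset.range (2 * n + 1)) (fun i _ v hv => F.part_weight hs i hv)
    (fun v _ => F.all_part hV (Nat.lt_succ_self _) v)

/-- a normal operator of a weight which is not a nonpositive integer vanishes -/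
theorem normal_eq_zero [FiniteDimensional ℂ A] (F : Fac P e m) (hP : P.TrivialCanonical)
    {D : Module.End ℂ A} (hD : D ∈ normal P) {μ : ℂ} (hμ : ad e D = μ • D)
    (hpos : ∀ l : ℕ, μ ≠ -(l : ℂ)) : D = 0 := by
  obtain ⟨s, hs, -, hV⟩ := hP.exists_gen
  obtain ⟨w, hC⟩ := F.data
  have hw := top_killed P.grad F.split hC (fun k f hf => (hD.2 k f hf).1) hμ hpos
  -- the action on the generator
  have hDs : D s = 0 := by
    have h1 : e (D s) = ((m : ℂ) + μ) • D s := by
      have h2 := LinearMap.congr_fun hμ s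
      rw [ad_apply, LinearMap.sub_apply, Module.End.mul_apply, Module.End.mul_apply,
        F.gen s hs, map_smul, LinearMap.smul_apply, sub_eq_iff_eq_add] at h2
      rw [h2, ← add_smul, add_comm μ]
    refine eq_zero_of_iSup (S := part P e s) (μ := fun i => (m : ℂ) - i)
      (F := Finset.range (2 * n + 1)) (fun i _ v hv => F.part_weight hs i hv)
      (F.all_part hV (Nat.lt_succ_self _) _) h1 fun i _ h3 => hpos i ?_
    linear_combination -h3
  -- commutation with the second factor
  have h2 : ∀ k, ∀ g ∈ pt P.total e k, D * g = g * D := by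
    intro k g hg
    have h3 : ad D g = 0 := by
      by_contra hne
      have h4 : ad e (ad D g) = μ • ad D g := by
        rw [ad_ad_right, hμ, ad_smul_left, (mem_pt.1 hg).2, map_zero, add_zero]
      obtain ⟨j, -, hj⟩ := F.split.weight_le P.grad (hD.2 k g hg.1).1 h4 hne
      exact hpos j hj
    rw [ad_apply, sub_eq_zero] at h3
    exact h3
  -- commutation with the conjugate of the first factor
  have h3 : ∀ k, ∀ a ∈ pt P.total (X.cop - e) k, D * X.bar a = X.bar a * D := by
    intro k a ha
    have hb : ad e (X.bar D) = -((starRingEnd ℂ) μ) • X.bar D := by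
      have := congrArg X.bar hμ
      rw [X.bar_ad, F.real, ad_neg_left, X.bar_smul, neg_eq_iff_eq_neg] at this
      rw [this]
      ext v
      simp
    have h4 : ad (X.bar D) a = 0 := by
      by_contra hne
      have h5 : ad e (ad (X.bar D) a) = (-((starRingEnd ℂ) μ) - k) • ad (X.bar D) a := by
        rw [ad_ad_right, hb, ad_smul_left, F.split.ad_first P.grad ha, map_smul, ← add_smul]
        congr 1
      obtain ⟨j, hj, hjμ⟩ := F.split.weight_le P.grad (hD.2 k a ha.1).2 h5 hne
      apply hpos (k - j)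
      rw [Nat.cast_sub hj]
      have h6 : (starRingEnd ℂ) μ = -((k : ℂ) - j) := by linear_combination -hjμ
      have h7 := congrArg (starRingEnd ℂ) h6
      simpa using h7
    have h5 := congrArg X.bar h4
    rw [X.bar_ad, X.bar_bar, X.bar_zero, ad_apply, sub_eq_zero] at h5
    exact h5
  -- vectors of lowest weight
  have h4 : ∀ x, e x = (-(m : ℂ)) • x → D x = 0 := by
    intro x hx
    have h5 : x ∈ part P e s (2 * m) := by
      refine mem_of_iSup (S := part P e s) (μ := fun i => (m : ℂ) - i)
        (F := Finset.range (2 * n + 2 * m + 1)) (fun i _ v hv => F.part_weight hs i hv)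
        (F.all_part hV (by omega) _) (by rw [Finset.mem_range]; omega) ?_ fun i _ hi hne => hi ?_
      · rw [hx]
        congr 1
        push_cast
        ring
      · have : (i : ℂ) = ((2 * m : ℕ) : ℂ) := by linear_combination -hne
        exact_mod_cast this
    have h6 : part P e s (2 * m) ≤ LinearMap.ker D := by
      refine Submodule.span_le.2 ?_
      rintro _ ⟨a, ha, j, g, hg, rfl⟩
      obtain ⟨z, rfl⟩ := hC.top a ha
      change D ((z • w) (g s)) = 0
      have e1 : w (g s) = (w * g) s := rfl
      rw [LinearMap.smul_apply, map_smul, e1, P.total_comm hC.mem.1 hg.1, LinearMap.smul_apply,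
        map_smul, Module.End.mul_apply, ← Module.End.mul_apply D g, h2 j g hg,
        Module.End.mul_apply, ← Module.End.mul_apply D w]
      have e2 : D * w = w * D := by
        rw [ad_apply, sub_eq_zero] at hw
        exact hw
      rw [e2, Module.End.mul_apply, hDs, map_zero, map_zero, smul_zero, smul_zero]
    exact h6 h5
  -- everything
  let N : Submodule ℂ A :=
    { carrier := {v | D (X.conj v) = 0}
      add_mem' := fun {a b} ha hb => by
        change D (X.conj (a + b)) = 0
        rw [map_add, map_add, show D (X.conj a) = 0 from ha, show D (X.conj b) = 0 from hb,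
          add_zero]
      zero_mem' := by
        change D (X.conj 0) = 0
        rw [map_zero, map_zero]
      smul_mem' := fun z a ha => by
        change D (X.conj (z • a)) = 0
        rw [X.conj_smul, map_smul, show D (X.conj a) = 0 from ha, smul_zero] }
  have h5 : ∀ v, v ∈ N := by
    intro v
    refine (iSup₂_le fun i _ => Submodule.span_le.2 ?_ :
      (⨆ i ∈ Finset.range (2 * n + 1), part P e s i) ≤ N) (F.all_part hV (Nat.lt_succ_self _) v)
    rintro _ ⟨a, ha, j, g, hg, rfl⟩
    change D (X.conj (a (g s))) = 0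
    have e1 : X.conj (a (g s)) = X.bar a (X.conj (g s)) := by
      rw [HodgeRing.bar_apply, X.conj_conj]
    rw [e1, ← Module.End.mul_apply, h3 i a ha, Module.End.mul_apply, h4, map_zero]
    have e2 := LinearMap.congr_fun F.real (X.conj (g s))
    rw [HodgeRing.bar_apply, X.conj_conj, F.second_s hs hg, X.conj_smul, LinearMap.neg_apply] at e2
    rw [← neg_eq_iff_eq_neg] at e2
    rw [← e2]
    simp
  ext v
  have h6 := h5 (X.conj v)
  change D (X.conj (X.conj v)) = 0 at h6
  rw [X.conj_conj] at h6
  rw [h6, LinearMap.zero_apply]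

/-- No mixing: a normal operator commutes with the column operator of a strict Calabi-Yau
factor. -/
theorem no_mixing [FiniteDimensional ℂ A] (F : Fac P e m) (hP : P.TrivialCanonical)
    {D : Module.End ℂ A} (hD : D ∈ normal P) : e * D = D * e := by
  have h1 : normal P ≤ LinearMap.ker (ad e) := by
    refine le_of_eigen (semisimple_ad (F.semisimple hP)) (fun D hD => F.normal_ad hD)
      fun μ D hD hμ => ?_
    have hμ' : ad e D = μ • D := hμ
    rw [LinearMap.mem_ker]
    by_cases h0 : μ = 0
    · rw [hμ', h0, zero_smul]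
    by_cases hpos : ∀ l : ℕ, μ ≠ -(l : ℂ)
    · rw [F.normal_eq_zero hP hD hμ' hpos, map_zero]
    · push Not at hpos
      obtain ⟨l, rfl⟩ := hpos
      have hb : ad e (X.bar D) = (l : ℂ) • X.bar D := by
        have := congrArg X.bar hμ'
        rw [X.bar_ad, F.real, ad_neg_left, X.bar_smul, neg_eq_iff_eq_neg] at this
        rw [this]
        ext v
        simp
      have h2 := F.normal_eq_zero hP (normal_bar hD) hb fun k hk => by
        apply h0
        have h3 : (l : ℂ) + k = 0 := by rw [hk]; ring
        have h4 : l + k = 0 := by exact_mod_cast h3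
        have h5 : l = 0 := by omega
        rw [h5]
        simp
      rw [X.bar_eq_zero h2, map_zero]
  have h2 := h1 hD
  rw [LinearMap.mem_ker, ad_apply, sub_eq_zero] at h2
  exact h2

end Fac

end Pool.Agent.Hodge81
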