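import Pool.Agent.Helper94.CY.Box
import Pool.Agent.KT.Abs

/-!
# Diagonal operators, complex conjugates of operators, operators on products
-/

set_option autoImplicit false

namespace Pool.Agent.Hodge81

open Complex Module
open Pool.Agent.KT

namespace HodgeRing

variable {n : ℕ} {A : Type*} [Ring A] [Algebra ℂ A] (X : HodgeRing n A)

/-- the operator which multiplies `H^{p,q}` by `w (p, q)` -/
noncomputable def diag (w : ℕ × ℕ → ℂ) : Module.End ℂ A :=
  (DirectSum.toModule ℂ (ℕ × ℕ) A (fun x => (w x : ℂ) • (X.H x.1 x.2).subtype)) ∘ₗ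
    (LinearEquiv.ofBijective (DirectSum.coeLinearMap (fun x : ℕ × ℕ => X.H x.1 x.2))
      X.internal).symm.toLinearMap

theorem diag_of_mem (w : ℕ × ℕ → ℂ) {p q : ℕ} {a : A} (ha : a ∈ X.H p q) :
    X.diag w a = w (p, q) • a := by
  have h1 : (LinearEquiv.ofBijective (DirectSum.coeLinearMap (fun x : ℕ × ℕ => X.H x.1 x.2))
      X.internal).symm a = DirectSum.lof ℂ (ℕ × ℕ) (fun x => X.H x.1 x.2) (p, q) ⟨a, ha⟩ := by
    rw [LinearEquiv.symm_apply_eq]
    exact (DirectSum.coeLinearMap_lof (fun x : ℕ × ℕ => X.H x.1 x.2) (p, q) ⟨a, ha⟩).symm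
  simp only [diag, LinearMap.comp_apply, LinearEquiv.coe_coe, h1, DirectSum.toModule_lof,
    LinearMap.smul_apply, Submodule.subtype_apply]

/-- The column operator: multiplication by `p - q` on `H^{p,q}`. -/
noncomputable def cop : Module.End ℂ A := X.diag fun x => (x.1 : ℂ) - x.2

theorem cop_of_mem {p q : ℕ} {v : A} (hv : v ∈ X.H p q) : X.cop v = ((p : ℂ) - q) • v :=
  X.diag_of_mem _ hv

theorem cop_column {d : ℤ} {v : A} (hv : v ∈ X.column d) : X.cop v = (d : ℂ) • v := by
  refine X.column_induct (P := fun v => X.cop v = (d : ℂ) • v) (fun p q hpq v hv => ?_)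
    (by rw [map_zero, smul_zero]) (fun a b ha hb => by rw [map_add, ha, hb, smul_add]) hv
  rw [X.cop_of_mem hv, ← hpq]
  push_cast
  rfl

/-- the projection onto a column -/
noncomputable def colp (d : ℤ) : Module.End ℂ A :=
  X.diag fun x => if (x.1 : ℤ) - x.2 = d then 1 else 0

theorem colp_of_mem (d : ℤ) {p q : ℕ} {v : A} (hv : v ∈ X.H p q) :
    X.colp d v = if (p : ℤ) - q = d then v else 0 := by
  rw [colp, X.diag_of_mem _ hv]
  simp only
  split_ifs <;> simp

theorem colp_mem (d : ℤ) (v : A) : X.colp d v ∈ X.column d := by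
  refine X.induct (P := fun v => X.colp d v ∈ X.column d) (fun p q a ha => ?_)
    (by rw [map_zero]; exact Submodule.zero_mem _)
    (fun a b ha hb => by rw [map_add]; exact Submodule.add_mem _ ha hb) v
  rw [X.colp_of_mem d ha]
  split_ifs with h
  · exact X.mem_column h ha
  · exact Submodule.zero_mem _

theorem cop_colp (d : ℤ) : X.cop * X.colp d = (d : ℂ) • X.colp d := by
  ext v
  rw [Module.End.mul_apply, X.cop_column (X.colp_mem d v), LinearMap.smul_apply]

theorem colp_cop (d : ℤ) : X.colp d * X.cop = (d : ℂ) • X.colp d := by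
  refine PolyvectorAction.ext_H X fun p q v hv => ?_
  rw [Module.End.mul_apply, X.cop_of_mem hv, map_smul, LinearMap.smul_apply, X.colp_of_mem d hv]
  split_ifs with h
  · rw [← h]
    push_cast
    rfl
  · rw [smul_zero, smul_zero]

theorem sum_colp : ∑ d ∈ Finset.Icc (-(n : ℤ)) n, X.colp d = 1 := by
  refine PolyvectorAction.ext_H X fun p q v hv => ?_
  rw [LinearMap.sum_apply, Module.End.one_apply]
  by_cases hb : n < p ∨ n < q
  · rw [X.bounded p q hb, Submodule.mem_bot] at hv
    rw [hv]
    exact Finset.sum_eq_zero fun d _ => map_zero _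
  · rw [Finset.sum_eq_single ((p : ℤ) - q)]
    · rw [X.colp_of_mem _ hv, if_pos rfl]
    · intro d _ hd
      rw [X.colp_of_mem _ hv, if_neg (Ne.symm hd)]
    · intro h
      rw [Finset.mem_Icc] at h
      omega

/-- a vector with eigenvalue `d` lies in the column of index `d` -/
theorem mem_column_of_cop {d : ℤ} {v : A} (hv : X.cop v = (d : ℂ) • v) : v ∈ X.column d := by
  have h1 : X.colp d v = v := by
    have h2 : v = ∑ e ∈ Finset.Icc (-(n : ℤ)) n, X.colp e v := by
      rw [← LinearMap.sum_apply, X.sum_colp, Module.End.one_apply]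
    have h3 : ∀ e : ℤ, e ≠ d → X.colp e v = 0 := by
      intro e he
      have h4 : X.colp e (X.cop v) = (e : ℂ) • X.colp e v := by
        rw [← Module.End.mul_apply, X.colp_cop, LinearMap.smul_apply]
      rw [hv, map_smul, ← sub_eq_zero, ← sub_smul, smul_eq_zero] at h4
      rcases h4 with h4 | h4
      · rw [sub_eq_zero] at h4
        exact absurd (by exact_mod_cast h4.symm) he
      · exact h4
    by_cases hd : d ∈ Finset.Icc (-(n : ℤ)) n
    · nth_rewrite 2 [h2]
      rw [Finset.sum_eq_single d (fun e _ he => h3 e he) (fun h => absurd hd h)]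
    · have h5 : v = 0 := by
        rw [h2]
        refine Finset.sum_eq_zero fun e he => h3 e ?_
        rintro rfl
        exact hd he
      rw [h5, map_zero]
  rw [← h1]
  exact X.colp_mem d v

/-! ### Conjugates of operators -/

theorem bar_mul (f g : Module.End ℂ A) : X.bar (f * g) = X.bar f * X.bar g := by
  ext v
  rw [bar_apply, Module.End.mul_apply, Module.End.mul_apply, bar_apply, bar_apply, X.conj_conj]

theorem bar_bar (f : Module.End ℂ A) : X.bar (X.bar f) = f := by
  ext v
  rw [bar_apply, bar_apply, X.conj_conj, X.conj_conj]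

theorem bar_one : X.bar 1 = 1 := by
  ext v
  rw [bar_apply, Module.End.one_apply, X.conj_conj, Module.End.one_apply]

theorem bar_smul (z : ℂ) (f : Module.End ℂ A) :
    X.bar (z • f) = (starRingEnd ℂ) z • X.bar f := by
  ext v
  rw [bar_apply, LinearMap.smul_apply, X.conj_smul, LinearMap.smul_apply, bar_apply]

theorem bar_neg (f : Module.End ℂ A) : X.bar (-f) = -X.bar f := by
  ext v
  rw [bar_apply, LinearMap.neg_apply, map_neg, LinearMap.neg_apply, bar_apply]

theorem bar_sub (f g : Module.End ℂ A) : X.bar (f - g) = X.bar f - X.bar g := by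
  rw [sub_eq_add_neg, sub_eq_add_neg, bar_add, bar_neg]

theorem bar_ad (f g : Module.End ℂ A) : X.bar (ad f g) = ad (X.bar f) (X.bar g) := by
  rw [ad_apply, ad_apply, bar_sub, bar_mul, bar_mul]

theorem bar_eq_zero {f : Module.End ℂ A} (h : X.bar f = 0) : f = 0 := by
  rw [← X.bar_bar f, h, bar_zero]

theorem bar_cop : X.bar X.cop = -X.cop := by
  refine PolyvectorAction.ext_H X fun p q v hv => ?_
  rw [bar_apply, X.cop_of_mem (X.conj_mem _ _ _ hv), X.conj_smul, X.conj_conj,
    LinearMap.neg_apply, X.cop_of_mem hv, ← neg_smul]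
  congr 1
  simp

/-! ### Signs -/

theorem sgn_conj (v : A) : X.sgn (X.conj v) = X.conj (X.sgn v) := by
  have h1 : X.bar X.sgn = X.sgn := by
    refine PolyvectorAction.ext_H X fun p q v hv => ?_
    rw [bar_apply, X.sgn_of_mem (X.conj_mem _ _ _ hv), X.conj_smul, X.conj_conj,
      X.sgn_of_mem hv, add_comm]
    simp
  have h2 := LinearMap.congr_fun h1 (X.conj v)
  rw [bar_apply, X.conj_conj] at h2
  exact h2.symm

theorem bar_sgn : X.bar X.sgn = X.sgn := by
  ext v
  rw [bar_apply, X.sgn_conj, X.conj_conj]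

/-- operators of parity `k` -/
def Par (k : ℕ) (f : Module.End ℂ A) : Prop := X.sgn * f = (-1 : ℂ) ^ k • (f * X.sgn)

theorem sgn_mul_sgn : X.sgn * X.sgn = 1 := by
  ext v
  rw [Module.End.mul_apply, X.sgn_sgn, Module.End.one_apply]

theorem par_total (P : PolyvectorAction X) {k : ℕ} {f : Module.End ℂ A} (hf : f ∈ P.total k) :
    X.Par k f := by
  refine P.total_induct (Q := X.Par k) (fun a b hab f hf => ?_)
    (by rw [Par, mul_zero, zero_mul, smul_zero])
    (fun f g hf hg => by rw [Par, mul_add, add_mul, hf, hg, smul_add]) hf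
  refine PolyvectorAction.ext_H X fun p q v hv => ?_
  change X.sgn (f v) = (-1 : ℂ) ^ k • f (X.sgn v)
  rcases Nat.lt_or_ge p b with h | h
  · rw [X.sgn_of_mem hv, map_smul, P.vanish a b p q f v hf h hv, map_zero, smul_zero, smul_zero]
  · obtain ⟨p', rfl⟩ : ∃ p', p = p' + b := ⟨p - b, by omega⟩
    rw [X.sgn_of_mem hv, X.sgn_of_mem (P.degree a b p' q f v hf hv), map_smul, smul_smul]
    congr 1
    rw [← pow_add]
    have e : k + (p' + b + q) = (p' + (q + a)) + 2 * b := by omega
    rw [e, pow_add _ (p' + (q + a)) (2 * b), pow_mul _ 2 b]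
    norm_num

theorem par_bar {k : ℕ} {f : Module.End ℂ A} (hf : X.Par k f) : X.Par k (X.bar f) := by
  have h1 := congrArg X.bar hf
  rw [X.bar_mul, X.bar_smul, X.bar_mul, X.bar_sgn] at h1
  rw [Par, h1]
  congr 1
  simp

theorem par_diag (w : ℕ × ℕ → ℂ) : X.Par 0 (X.diag w) := by
  refine PolyvectorAction.ext_H X fun p q v hv => ?_
  rw [pow_zero, one_smul, Module.End.mul_apply, Module.End.mul_apply, X.diag_of_mem w hv,
    map_smul, X.sgn_of_mem hv, map_smul, X.diag_of_mem w hv, smul_comm]

/-- the column operator is a derivation -/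
theorem cop_mul (v w : A) : X.cop (v * w) = X.cop v * w + v * X.cop w := by
  refine X.induct (P := fun v => X.cop (v * w) = X.cop v * w + v * X.cop w) (fun p q v hv => ?_)
    (by simp) (fun a b ha hb => by rw [add_mul, map_add, ha, hb, map_add]; noncomm_ring) v
  refine X.induct (P := fun w => X.cop (v * w) = X.cop v * w + v * X.cop w) (fun p' q' w hw => ?_)
    (by simp) (fun a b ha hb => by rw [mul_add, map_add, ha, hb, map_add]; noncomm_ring) w
  rw [X.cop_of_mem hv, X.cop_of_mem hw, X.cop_of_mem (X.mul_mem _ _ _ _ _ _ hv hw),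
    smul_mul_assoc, mul_smul_comm, ← add_smul]
  congr 1
  push_cast
  ring

/-- contractions of degree `k` lower the column by `k` -/
theorem ad_cop (P : PolyvectorAction X) {k : ℕ} {f : Module.End ℂ A} (hf : f ∈ P.total k) :
    ad X.cop f = (-(k : ℂ)) • f := by
  refine PolyvectorAction.ext_H X fun p q v hv => ?_
  rw [ad_apply, LinearMap.sub_apply, Module.End.mul_apply, Module.End.mul_apply,
    X.cop_column (P.total_column hf (X.mem_column rfl hv)), X.cop_of_mem hv, map_smul,
    LinearMap.smul_apply, ← sub_smul]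
  congr 1
  push_cast
  ring

end HodgeRing

namespace Product

open scoped TensorProduct

variable {n a b : ℕ} {A C D : Type*} [Ring A] [Algebra ℂ A] [Ring C] [Algebra ℂ C]
  [Ring D] [Algebra ℂ D] {X : HodgeRing n A} {W : HodgeRing a C} {Z : HodgeRing b D}
  (U : Product X W Z)

/-- the operator `f ⊠ g` for `g` of degree `k` -/
noncomputable def bx (k : ℕ) (f : Module.End ℂ C) (g : Module.End ℂ D) : Module.End ℂ A :=
  U.ku.toLinearMap ∘ₗ TensorProduct.map (f * W.sgn ^ k) g ∘ₗ U.ku.symm.toLinearMap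

theorem bx_apply (k : ℕ) (f : Module.End ℂ C) (g : Module.End ℂ D) (w : C) (z : D) :
    U.bx k f g (U.fst w * U.snd z) = U.fst (f ((W.sgn ^ k) w)) * U.snd (g z) := by
  change U.ku (TensorProduct.map (f * W.sgn ^ k) g (U.ku.symm (U.fst w * U.snd z))) = _
  rw [ku_symm, TensorProduct.map_tmul, ku_tmul]
  rfl

theorem sgn_pow_of_mem (k : ℕ) {p q : ℕ} {w : C} (hw : w ∈ W.H p q) :
    (W.sgn ^ k) w = (-1 : ℂ) ^ (k * (p + q)) • w := by
  induction k with
  | zero => simp
  | succ k ih =>
    rw [pow_succ, Module.End.mul_apply, W.sgn_of_mem hw, map_smul, ih, smul_smul, ← pow_add]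
    congr 2
    ring

theorem isBox_bx (k : ℕ) (f : Module.End ℂ C) (g : Module.End ℂ D) :
    U.IsBox k f g (U.bx k f g) := by
  intro p q w z hw
  rw [bx_apply, sgn_pow_of_mem k hw, map_smul, map_smul, smul_mul_assoc]

theorem isBox_iff (k : ℕ) (f : Module.End ℂ C) (g : Module.End ℂ D) (F : Module.End ℂ A) :
    U.IsBox k f g F ↔ F = U.bx k f g :=
  ⟨fun h => U.isBox_uniq h (U.isBox_bx k f g), fun h => h ▸ U.isBox_bx k f g⟩

theorem bx_add_left (k : ℕ) (f f' : Module.End ℂ C) (g : Module.End ℂ D) :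
    U.bx k (f + f') g = U.bx k f g + U.bx k f' g := by
  refine U.ext_ku fun w z => ?_
  rw [LinearMap.add_apply, bx_apply, bx_apply, bx_apply, LinearMap.add_apply, map_add, add_mul]

theorem bx_add_right (k : ℕ) (f : Module.End ℂ C) (g g' : Module.End ℂ D) :
    U.bx k f (g + g') = U.bx k f g + U.bx k f g' := by
  refine U.ext_ku fun w z => ?_
  rw [LinearMap.add_apply, bx_apply, bx_apply, bx_apply, LinearMap.add_apply, map_add, mul_add]

theorem bx_smul_left (k : ℕ) (c : ℂ) (f : Module.End ℂ C) (g : Module.End ℂ D) :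
    U.bx k (c • f) g = c • U.bx k f g := by
  refine U.ext_ku fun w z => ?_
  rw [LinearMap.smul_apply, bx_apply, bx_apply, LinearMap.smul_apply, map_smul, smul_mul_assoc]

theorem bx_smul_right (k : ℕ) (c : ℂ) (f : Module.End ℂ C) (g : Module.End ℂ D) :
    U.bx k f (c • g) = c • U.bx k f g := by
  refine U.ext_ku fun w z => ?_
  rw [LinearMap.smul_apply, bx_apply, bx_apply, LinearMap.smul_apply, map_smul, mul_smul_comm]

theorem bx_sub_left (k : ℕ) (f f' : Module.End ℂ C) (g : Module.End ℂ D) :
    U.bx k (f - f') g = U.bx k f g - U.bx k f' g := by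
  refine U.ext_ku fun w z => ?_
  rw [LinearMap.sub_apply, bx_apply, bx_apply, bx_apply, LinearMap.sub_apply, map_sub, sub_mul]

theorem bx_sub_right (k : ℕ) (f : Module.End ℂ C) (g g' : Module.End ℂ D) :
    U.bx k f (g - g') = U.bx k f g - U.bx k f g' := by
  refine U.ext_ku fun w z => ?_
  rw [LinearMap.sub_apply, bx_apply, bx_apply, bx_apply, LinearMap.sub_apply, map_sub, mul_sub]

theorem bx_zero_left (k : ℕ) (g : Module.End ℂ D) : U.bx k 0 g = 0 := by
  refine U.ext_ku fun w z => ?_
  rw [bx_apply, LinearMap.zero_apply, map_zero, zero_mul, LinearMap.zero_apply]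

theorem bx_zero_right (k : ℕ) (f : Module.End ℂ C) : U.bx k f 0 = 0 := by
  refine U.ext_ku fun w z => ?_
  rw [bx_apply, LinearMap.zero_apply, map_zero, mul_zero, LinearMap.zero_apply]

theorem bx_zero_one (f : Module.End ℂ C) : U.bx 0 f 1 = U.inl f := by
  refine U.ext_ku fun w z => ?_
  rw [bx_apply, inl_apply, pow_zero, Module.End.one_apply, Module.End.one_apply]

theorem bx_one : U.bx 0 1 1 = 1 := by
  refine U.ext_ku fun w z => ?_
  rw [bx_apply, pow_zero, Module.End.one_apply, Module.End.one_apply, Module.End.one_apply,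
    Module.End.one_apply]

theorem par_pow {k : ℕ} {f : Module.End ℂ C} (hf : W.Par k f) (l : ℕ) :
    W.sgn ^ l * f = (-1 : ℂ) ^ (l * k) • (f * W.sgn ^ l) := by
  induction l with
  | zero => simp
  | succ l ih =>
    rw [pow_succ, mul_assoc, hf, mul_smul_comm, ← mul_assoc, ih, smul_mul_assoc, smul_smul,
      mul_assoc]
    congr 1
    rw [← pow_add]
    congr 1
    ring

/-- products of operators on a product -/
theorem bx_mul {i j l : ℕ} {f f' : Module.End ℂ C} {g g' : Module.End ℂ D}
    (hf' : W.Par i f') : U.bx j f g * U.bx l f' g' =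
      (-1 : ℂ) ^ (j * i) • U.bx (j + l) (f * f') (g * g') := by
  refine U.ext_ku fun w z => ?_
  rw [Module.End.mul_apply, bx_apply, bx_apply, LinearMap.smul_apply, bx_apply]
  have h1 := LinearMap.congr_fun (par_pow hf' j) ((W.sgn ^ l) w)
  rw [Module.End.mul_apply, LinearMap.smul_apply, Module.End.mul_apply] at h1
  rw [h1, map_smul, map_smul, smul_mul_assoc, pow_add, Module.End.mul_apply,
    Module.End.mul_apply, Module.End.mul_apply]

end Product

end Pool.Agent.Hodge81
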