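import Pool.Agent.KT.Ops
import Pool.Agent.KT.SymP
import Pool.Agent.Helper51.SY.Sl2
import Pool.Agent.Helper28.HT.Compare

/-!
# The column operator of a symplectic factor of `Y` and the Calabi-Yau factors of `X`
-/

set_option autoImplicit false

namespace Pool.Agent.Hodge81

open Complex Module
open Pool.Agent.KT

universe u

namespace HodgeRing

variable {n : ℕ} {A : Type*} [Ring A] [Algebra ℂ A] (X : HodgeRing n A)

/-- conjugation of operators as a ring homomorphism -/
noncomputable def barHom : Module.End ℂ A →+* Module.End ℂ A where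
  toFun := X.bar
  map_one' := X.bar_one
  map_mul' := X.bar_mul
  map_zero' := X.bar_zero
  map_add' := X.bar_add

theorem barHom_apply (f : Module.End ℂ A) : X.barHom f = X.bar f := rfl

end HodgeRing

namespace IsHochschildIso

variable {n : ℕ} {A B : Type*} [Ring A] [Algebra ℂ A] [Ring B] [Algebra ℂ B]

theorem transport_mul (phi : A ≃ₗ[ℂ] B) (f g : Module.End ℂ A) :
    transport phi (f * g) = transport phi f * transport phi g := by
  ext b
  rw [transport_apply, Module.End.mul_apply, Module.End.mul_apply, transport_apply,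
    transport_apply, LinearEquiv.symm_apply_apply]

theorem transport_sub (phi : A ≃ₗ[ℂ] B) (f g : Module.End ℂ A) :
    transport phi (f - g) = transport phi f - transport phi g := by
  ext b
  rw [transport_apply, LinearMap.sub_apply, LinearMap.sub_apply, map_sub, transport_apply,
    transport_apply]

theorem transport_pow (phi : A ≃ₗ[ℂ] B) (f : Module.End ℂ A) (k : ℕ) :
    transport phi (f ^ k) = transport phi f ^ k := by
  induction k with
  | zero =>
    ext b
    rw [transport_apply, pow_zero, pow_zero, Module.End.one_apply, LinearEquiv.apply_symm_apply,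
      Module.End.one_apply]
  | succ k ih => rw [pow_succ, transport_mul, ih, pow_succ]

theorem transport_symm_transport (phi : A ≃ₗ[ℂ] B) (f : Module.End ℂ A) :
    transport phi.symm (transport phi f) = f := by
  ext b
  rw [transport_apply, transport_apply, LinearEquiv.symm_symm, LinearEquiv.symm_apply_apply,
    LinearEquiv.symm_apply_apply]

end IsHochschildIso

section main

variable {n r b : ℕ} {A B C' D' : Type u}
  [Ring A] [Algebra ℂ A] [FiniteDimensional ℂ A] [Ring B] [Algebra ℂ B] [FiniteDimensional ℂ B]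
  [Ring C'] [Algebra ℂ C'] [FiniteDimensional ℂ C'] [Ring D'] [Algebra ℂ D']
  {X : HodgeRing n A} {Y : HodgeRing n B} {P : PolyvectorAction X} {Q : PolyvectorAction Y}
  {phi : A ≃ₗ[ℂ] B}

open IsHochschildIso in
omit [FiniteDimensional ℂ C'] in
/-- Let `Y = S' × Z'` with `S'` symplectic. The column operator of `S'`, transported to `X`,
commutes with the polyvector fields of every strict Calabi-Yau factor of `X`. -/
theorem symp_ad_eq_zero (h : IsHochschildIso P Q phi) {S' : HodgeRing (2 * r) C'}
    {Z' : HodgeRing b D'} (U' : Product Y S' Z') {PS' : PolyvectorAction S'}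
    {PZ' : PolyvectorAction Z'} (K' : U'.Kuenneth Q PS' PZ')
    (hc1 : ∀ v, Y.conj (U'.fst v) = U'.fst (S'.conj v))
    (hc2 : ∀ v, Y.conj (U'.snd v) = U'.snd (Z'.conj v))
    (hex : ∃ s ∈ S'.H 2 0, s ^ r ≠ 0)
    (hinv : ∀ s ∈ S'.H 2 0, s ^ r ≠ 0 → ∃ t ∈ PS'.T 0 2, S'.IsInverse s t)
    {e e' w : Module.End ℂ A} {m : ℕ}
    (hG : Grad P.total X.cop) (hS : Split P.total X.cop e e') (hC : CYData P.total e' m w)
    (h1 : pt P.total e' 1 = ⊥)
    (super : ∀ g ∈ pt P.total e 2, ∀ k, ∀ a ∈ pt P.total e' k, X.bar g * a = a * X.bar g)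
    (hx : ∀ f ∈ pt P.total e' 2, f (X.expo I) = 0) {k : ℕ} {a : Module.End ℂ A}
    (ha : a ∈ pt P.total e' k) :
    ad (transport phi.symm (U'.inl S'.cop)) a = 0 := by
  obtain ⟨s, hs, hsr⟩ := hex
  obtain ⟨t, ht, hst⟩ := hinv s hs hsr
  set y := S'.conj s with hy
  have hyH : y ∈ S'.H 0 2 := S'.conj_mem _ _ _ hs
  have hsy : S'.conj y = s := S'.conj_conj s
  have hyr : y ^ r ≠ 0 := by
    rw [hy, ← map_pow]
    intro h0
    apply hsr
    rw [← S'.conj_conj (s ^ r), h0, map_zero]
  have hYy : U'.fst y ∈ Y.H 0 2 := U'.fst_mem _ _ _ hyH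
  -- the operators on `Y`
  set F := LinearMap.mulLeft ℂ (U'.fst y) with hF
  set T := U'.inl t with hT
  have hFQ : F ∈ Q.total 2 := Q.mem_total (a := 2) (b := 0) rfl
    ((Q.functions 2 _).2 ⟨_, hYy, rfl⟩)
  have hTQ : T ∈ Q.total 2 := by
    refine Q.mem_total (a := 0) (b := 2) rfl ?_
    rw [K'.span]
    refine Submodule.subset_span ⟨0, 2, 0, 0, t, 1, rfl, rfl, ht, PZ'.one_mem_T, ?_⟩
    intro p q w z _
    rw [hT, Product.inl_apply, Module.End.one_apply]
    simp
  have hbF : Y.bar F = LinearMap.mulLeft ℂ (U'.fst s) := by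
    rw [hF, IsHochschildIso.bar_mulLeft, hc1, hsy]
  -- the commutator
  have hcomm : ∀ p q w z, w ∈ S'.H p q → (T * Y.bar F - Y.bar F * T) (U'.fst w * U'.snd z) =
      ((r : ℂ) - p) • (U'.fst w * U'.snd z) := by
    intro p q w z hw
    rw [LinearMap.sub_apply, Module.End.mul_apply, Module.End.mul_apply, hbF,
      LinearMap.mulLeft_apply, ← mul_assoc, ← map_mul, hT, Product.inl_apply,
      Product.inl_apply, LinearMap.mulLeft_apply, ← mul_assoc, ← map_mul, ← sub_mul, ← map_sub,
      hst.comm p q w hw, add_sub_cancel_left, map_smul, smul_mul_assoc]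
  have hdiff : (T * Y.bar F - Y.bar F * T) - Y.bar (T * Y.bar F - Y.bar F * T) =
      -(U'.inl S'.cop) := by
    have e1 : ∀ p q w, w ∈ S'.H p q → ∀ z, ((T * Y.bar F - Y.bar F * T) -
        Y.bar (T * Y.bar F - Y.bar F * T)) (U'.fst w * U'.snd z) =
        (-(U'.inl S'.cop)) (U'.fst w * U'.snd z) := by
      intro p q w hw z
      rw [LinearMap.sub_apply, hcomm p q w z hw, HodgeRing.bar_apply, map_mul, hc1, hc2,
        hcomm q p _ _ (S'.conj_mem _ _ _ hw), Y.conj_smul, map_mul, hc1, hc2, S'.conj_conj,
        Z'.conj_conj, LinearMap.neg_apply, Product.inl_apply, S'.cop_of_mem hw, map_smul,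
        smul_mul_assoc, ← sub_smul, ← neg_smul]
      congr 1
      simp
    refine U'.ext_ku fun w z => ?_
    refine S'.induct (P := fun w => ((T * Y.bar F - Y.bar F * T) -
        Y.bar (T * Y.bar F - Y.bar F * T)) (U'.fst w * U'.snd z) =
        (-(U'.inl S'.cop)) (U'.fst w * U'.snd z)) (fun p q w hw => e1 p q w hw z) ?_ ?_ w
    · rw [map_zero, zero_mul, map_zero, map_zero]
    · intro w1 w2 h1 h2
      rw [map_add, add_mul, map_add, map_add, h1, h2]
  -- transport to `X`
  have hf : transport phi.symm F ∈ P.total 2 := (h.symm.total 2 _).1 hFQ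
  have ht' : transport phi.symm T ∈ P.total 2 := (h.symm.total 2 _).1 hTQ
  have hbar : ∀ G, X.bar (transport phi.symm G) = transport phi.symm (Y.bar G) :=
    fun G => h.symm.bar_transport G
  have hF0 : F ^ (r + 1) = 0 := by
    have e1 : ∀ k, F ^ k = LinearMap.mulLeft ℂ (U'.fst (y ^ k)) := by
      intro k
      induction k with
      | zero => rw [pow_zero, pow_zero, map_one]; ext v; simp
      | succ k ih =>
        rw [pow_succ, ih, pow_succ, map_mul, hF]
        ext v
        simp
    have e2 : y ^ (r + 1) = 0 := by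
      have e3 := S'.pow_mem_H hyH (r + 1)
      rw [S'.bounded _ _ (Or.inr (by omega)), Submodule.mem_bot] at e3
      exact e3
    rw [e1, e2, map_zero]
    ext v
    simp
  have hYr : U'.fst y ^ r ≠ 0 := by
    rw [← map_pow]
    intro h0
    exact hyr (U'.fst_inj _ h0)
  have hEr := evalE_pow_ne (P := P) (X := X) h hYy hYr
  have hval : ((transport phi.symm F) ^ r) (X.expo I) ≠ 0 := by
    intro h0
    apply hEr
    have k5 := (evalE_spec (P := P) h P.eval (Y.pow_mem_H hYy r)).2
    have e1 : ∀ k, F ^ k = LinearMap.mulLeft ℂ (U'.fst y ^ k) := by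
      intro k
      induction k with
      | zero => rw [pow_zero, pow_zero]; ext v; simp
      | succ k ih =>
        rw [pow_succ, ih, pow_succ, hF]
        ext v
        simp
    rw [← transport_pow, e1, transport_apply, LinearEquiv.symm_symm,
      LinearMap.mulLeft_apply] at h0
    rw [k5, LinearEquiv.symm_apply_apply] at h0
    have := congrArg (fun a => a * X.expo (-I)) h0
    simp only [zero_mul] at this
    rw [expo_cancel] at this
    rwa [evalE_pow h hYy] at this
  have key := symp_comm hG hS hC h1 X.barHom X.bar_bar super hx hf ht'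
    (by rw [← transport_pow, hF0]; ext v; simp [transport_apply]) hval ha
  simp only [X.barHom_apply] at key
  rw [hbar, ← transport_mul, ← transport_mul, ← transport_sub, hbar, ← transport_sub, hdiff] at key
  have e2 : transport phi.symm (-(U'.inl S'.cop)) = -transport phi.symm (U'.inl S'.cop) := by
    ext v
    simp [transport_apply]
  rw [e2] at key
  have e3 : ad (-transport phi.symm (U'.inl S'.cop)) a =
      -ad (transport phi.symm (U'.inl S'.cop)) a := by
    ext v
    simp only [ad_apply, LinearMap.sub_apply, Module.End.mul_apply, LinearMap.neg_apply, map_neg]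
    abel
  rw [e3, neg_eq_zero] at key
  exact key

end main

end Pool.Agent.Hodge81
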