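import Pool.Agent.KT.Main

/-!
# Products with a fixed variety
-/

set_option autoImplicit false

namespace Pool.Agent.Hodge81

open Complex Module LaurentPolynomial
open Pool.Agent.KT
open Pool.Agent.CY94
open IsHochschildIso

universe u

section times

variable {n ν ε : ℕ} {A B C AE BE : Type*} [Ring A] [Algebra ℂ A] [Ring B] [Algebra ℂ B]
  [Ring C] [Algebra ℂ C] [Ring AE] [Algebra ℂ AE] [Ring BE] [Algebra ℂ BE]
  {X : HodgeRing n A} {Y : HodgeRing n B} {E : HodgeRing ε C} {XE : HodgeRing ν AE}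
  {YE : HodgeRing ν BE}

/-- the map `phi × id` -/
noncomputable def times (U : Product XE X E) (U' : Product YE Y E) (phi : A ≃ₗ[ℂ] B) :
    AE ≃ₗ[ℂ] BE :=
  U.ku.symm ≪≫ₗ TensorProduct.congr phi (LinearEquiv.refl ℂ C) ≪≫ₗ U'.ku

theorem times_apply (U : Product XE X E) (U' : Product YE Y E) (phi : A ≃ₗ[ℂ] B) (v : A)
    (w : C) : times U U' phi (U.fst v * U.snd w) = U'.fst (phi v) * U'.snd w := by
  change U'.ku (TensorProduct.congr phi (LinearEquiv.refl ℂ C) (U.ku.symm (U.fst v * U.snd w))) = _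
  rw [U.ku_symm, TensorProduct.congr_tmul, U'.ku_tmul]
  rfl

theorem times_symm (U : Product XE X E) (U' : Product YE Y E) (phi : A ≃ₗ[ℂ] B) :
    (times U U' phi).symm = times U' U phi.symm := by
  have h1 : (times U' U phi.symm).toLinearMap ∘ₗ (times U U' phi).toLinearMap =
      LinearMap.id := by
    refine U.ext_ku fun v w => ?_
    rw [LinearMap.comp_apply, LinearEquiv.coe_coe, LinearEquiv.coe_coe, times_apply, times_apply,
      phi.symm_apply_apply, LinearMap.id_apply]
  ext b
  rw [LinearEquiv.symm_apply_eq]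
  have h2 : (times U U' phi).toLinearMap ∘ₗ (times U' U phi.symm).toLinearMap =
      LinearMap.id := by
    refine U'.ext_ku fun v w => ?_
    rw [LinearMap.comp_apply, LinearEquiv.coe_coe, LinearEquiv.coe_coe, times_apply, times_apply,
      phi.apply_symm_apply, LinearMap.id_apply]
  exact (LinearMap.congr_fun h2 b).symm

theorem times_conj {U : Product XE X E} {U' : Product YE Y E} (hU : U.Real) (hU' : U'.Real)
    {phi : A ≃ₗ[ℂ] B} (h : ∀ a, phi (X.conj a) = Y.conj (phi a)) (a : AE) :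
    times U U' phi (XE.conj a) = YE.conj (times U U' phi a) := by
  refine U.induct_ku (P := fun a => times U U' phi (XE.conj a) = YE.conj (times U U' phi a))
    (fun v w => ?_) (by simp) (fun x y hx hy => by rw [map_add, map_add, map_add, map_add, hx,
      hy]) a
  rw [map_mul, ← hU.fst_conj, ← hU.snd_conj, times_apply, times_apply, map_mul, ← hU'.fst_conj,
    ← hU'.snd_conj, h]

theorem times_cop {U : Product XE X E} {U' : Product YE Y E} {phi : A ≃ₗ[ℂ] B}
    (h : ∀ v, phi (X.cop v) = Y.cop (phi v)) (a : AE) :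
    times U U' phi (XE.cop a) = YE.cop (times U U' phi a) := by
  refine U.induct_ku (P := fun a => times U U' phi (XE.cop a) = YE.cop (times U U' phi a))
    (fun v w => ?_) (by simp) (fun x y hx hy => by rw [map_add, map_add, map_add, map_add, hx,
      hy]) a
  rw [XE.cop_mul, U.cop_fst, U.cop_snd, map_add, times_apply, times_apply, times_apply,
    YE.cop_mul, U'.cop_fst, U'.cop_snd, h]

theorem column_of_cop {X : HodgeRing n A} {Y : HodgeRing n B} {phi : A ≃ₗ[ℂ] B}
    (h : ∀ v, phi (X.cop v) = Y.cop (phi v)) (i : ℤ) :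
    (X.column i).map phi.toLinearMap = Y.column i := by
  apply le_antisymm
  · rintro _ ⟨v, hv, rfl⟩
    refine Y.mem_column_of_cop ?_
    change Y.cop (phi v) = _ • phi v
    rw [← h, X.cop_column hv, map_smul]
  · intro w hw
    refine ⟨phi.symm w, X.mem_column_of_cop ?_, phi.apply_symm_apply w⟩
    apply phi.injective
    rw [h, phi.apply_symm_apply, Y.cop_column hw, map_smul, phi.apply_symm_apply]

/-- isomorphisms which preserve the columns commute with the sign operator -/
theorem sgn_of_cop {X : HodgeRing n A} {Y : HodgeRing n B} {phi : A ≃ₗ[ℂ] B}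
    (h : ∀ v, phi (X.cop v) = Y.cop (phi v)) (v : A) : phi (X.sgn v) = Y.sgn (phi v) := by
  refine X.induct (P := fun v => phi (X.sgn v) = Y.sgn (phi v)) (fun p q v hv => ?_) (by simp)
    (fun x y hx hy => by rw [map_add, map_add, map_add, map_add, hx, hy]) v
  have h1 := X.mem_column (i := (p : ℤ) - q) rfl hv
  have h2 : phi v ∈ Y.column ((p : ℤ) - q) := by
    rw [← column_of_cop h]
    exact ⟨v, h1, rfl⟩
  rw [X.sgn_column h1, Y.sgn_column h2, map_smul]

theorem sgn_pow_of_cop {X : HodgeRing n A} {Y : HodgeRing n B} {phi : A ≃ₗ[ℂ] B}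
    (h : ∀ v, phi (X.cop v) = Y.cop (phi v)) (j : ℕ) (v : A) :
    phi ((X.sgn ^ j) v) = (Y.sgn ^ j) (phi v) := by
  induction j with
  | zero => rfl
  | succ j ih => rw [pow_succ', Module.End.mul_apply, sgn_of_cop h, ih, pow_succ',
      Module.End.mul_apply]

theorem times_bx {U : Product XE X E} {U' : Product YE Y E} {phi : A ≃ₗ[ℂ] B}
    (h : ∀ v, phi (X.cop v) = Y.cop (phi v)) (j : ℕ) (f : Module.End ℂ A)
    (g : Module.End ℂ C) :
    (times U U' phi).toLinearMap ∘ₗ U.bx j f g ∘ₗ (times U U' phi).symm.toLinearMap =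
      U'.bx j (phi.toLinearMap ∘ₗ f ∘ₗ phi.symm.toLinearMap) g := by
  refine U'.ext_ku fun v w => ?_
  have hs : ∀ v, phi.symm (Y.cop v) = X.cop (phi.symm v) := fun v => by
    apply phi.injective
    rw [h, phi.apply_symm_apply, phi.apply_symm_apply]
  rw [LinearMap.comp_apply, LinearMap.comp_apply, LinearEquiv.coe_coe, LinearEquiv.coe_coe,
    times_symm, times_apply, U.bx_apply, times_apply, U'.bx_apply, ← sgn_pow_of_cop hs]
  rfl

theorem times_total {P : PolyvectorAction X} {Q : PolyvectorAction Y}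
    {PE : PolyvectorAction E} {PX : PolyvectorAction XE} {PY : PolyvectorAction YE}
    {U : Product XE X E} {U' : Product YE Y E} (K : U.Kuenneth PX P PE) (K' : U'.Kuenneth PY Q PE)
    {phi : A ≃ₗ[ℂ] B} (hc : ∀ v, phi (X.cop v) = Y.cop (phi v))
    (h : ∀ k f, f ∈ P.total k → phi.toLinearMap ∘ₗ f ∘ₗ phi.symm.toLinearMap ∈ Q.total k)
    (k : ℕ) (F : Module.End ℂ AE) (hF : F ∈ PX.total k) :
    (times U U' phi).toLinearMap ∘ₗ F ∘ₗ (times U U' phi).symm.toLinearMap ∈ PY.total k := by
  refine K.total_induct (Q := fun F => (times U U' phi).toLinearMap ∘ₗ F ∘ₗ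
    (times U U' phi).symm.toLinearMap ∈ PY.total k) (fun i j f g F hij hf hg hb => ?_) ?_
    (fun x y hx hy => ?_) (fun c x hx => ?_) hF
  · rw [(U.isBox_iff _ f g F).1 hb, times_bx hc, ← hij]
    exact K'.bx_mem (h i f hf) hg
  · rw [LinearMap.zero_comp, LinearMap.comp_zero]
    exact Submodule.zero_mem _
  · rw [LinearMap.add_comp, LinearMap.comp_add]
    exact Submodule.add_mem _ hx hy
  · rw [LinearMap.smul_comp, LinearMap.comp_smul]
    exact Submodule.smul_mem _ _ hx

theorem times_hochschild {P : PolyvectorAction X} {Q : PolyvectorAction Y}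
    {PE : PolyvectorAction E} {PX : PolyvectorAction XE} {PY : PolyvectorAction YE}
    {U : Product XE X E} {U' : Product YE Y E} (F : U.Full PX P PE) (F' : U'.Full PY Q PE)
    {phi : A ≃ₗ[ℂ] B} (h : IsHochschildIso P Q phi) (hM : IsMukaiIsometry X Y phi) :
    IsHochschildIso PX PY (times U U' phi) where
  conj := times_conj F.real F'.real h.conj
  total k f := by
    refine ⟨times_total F.polyvector F'.polyvector hM.cop_eq (fun k f hf => (h.total k f).1 hf)
      k f, fun h1 => ?_⟩
    have h2 := times_total F'.polyvector F.polyvector hM.symm.cop_eq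
      (fun k f hf => (h.symm.total k f).1 hf) k _ h1
    have e : (times U' U phi.symm).toLinearMap ∘ₗ
        ((times U U' phi).toLinearMap ∘ₗ f ∘ₗ (times U U' phi).symm.toLinearMap) ∘ₗ
        (times U' U phi.symm).symm.toLinearMap = f := by
      rw [← times_symm]
      ext v
      simp
    rwa [e] at h2

/-! ### The Mukai pairing of a product -/

theorem dual_prod (U : Product XE X E) (v : A) (w : C) :
    XE.dual (U.fst v * U.snd w) = U.fst (X.dual v) * U.snd (E.dual w) := by
  refine X.induct (P := fun v => XE.dual (U.fst v * U.snd w) =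
    U.fst (X.dual v) * U.snd (E.dual w)) (fun p q v hv => ?_) (by simp)
    (fun x y hx hy => by rw [map_add, add_mul, map_add, hx, hy, map_add, map_add, add_mul]) v
  refine E.induct (P := fun w => XE.dual (U.fst v * U.snd w) =
    U.fst (X.dual v) * U.snd (E.dual w)) (fun p' q' w hw => ?_) (by simp)
    (fun x y hx hy => by rw [map_add, mul_add, map_add, hx, hy, map_add, map_add, mul_add]) w
  rw [XE.dual_of_mem (XE.mul_mem _ _ _ _ _ _ (U.fst_mem _ _ _ hv) (U.snd_mem _ _ _ hw)),
    X.dual_of_mem hv, E.dual_of_mem hw, map_smul, map_smul, smul_mul_assoc, mul_smul_comm,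
    smul_smul, ← pow_add]
  congr 2
  ring

theorem exp_prod {U : Product XE X E} (hc : XE.c1 = U.fst X.c1 + U.snd E.c1) :
    XE.expHalfC1 = U.fst X.expHalfC1 * U.snd E.expHalfC1 := by
  let _inst : Module ℚ AE := Module.compHom AE (algebraMap ℚ ℂ)
  have hq : ∀ (r : ℚ) (a : AE), r • a = (r : ℂ) • a := fun r a => rfl
  have hX : ((1 / 2 : ℂ) • U.fst X.c1) ^ (n + 1) = 0 := by
    rw [_root_.smul_pow, ← map_pow, X.pow_succ_eq_zero X.c1_mem, map_zero, smul_zero]
  have hE : ((1 / 2 : ℂ) • U.snd E.c1) ^ (ε + 1) = 0 := by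
    rw [_root_.smul_pow, ← map_pow, E.pow_succ_eq_zero E.c1_mem, map_zero, smul_zero]
  have hXE : ((1 / 2 : ℂ) • XE.c1) ^ (ν + 1) = 0 := by
    rw [_root_.smul_pow, XE.pow_succ_eq_zero XE.c1_mem, smul_zero]
  have k1 : U.fst X.expHalfC1 = IsNilpotent.exp ((1 / 2 : ℂ) • U.fst X.c1) := by
    rw [IsNilpotent.exp_eq_sum hX, X.expHalfC1_eq]
    unfold HodgeRing.expC
    rw [map_sum]
    refine Finset.sum_congr rfl fun j _ => ?_
    rw [hq, _root_.smul_pow, smul_smul, map_smul, map_pow]
    congr 1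
    push_cast
    ring
  have k2 : U.snd E.expHalfC1 = IsNilpotent.exp ((1 / 2 : ℂ) • U.snd E.c1) := by
    rw [IsNilpotent.exp_eq_sum hE, E.expHalfC1_eq]
    unfold HodgeRing.expC
    rw [map_sum]
    refine Finset.sum_congr rfl fun j _ => ?_
    rw [hq, _root_.smul_pow, smul_smul, map_smul, map_pow]
    congr 1
    push_cast
    ring
  have k3 : XE.expHalfC1 = IsNilpotent.exp ((1 / 2 : ℂ) • XE.c1) := by
    rw [IsNilpotent.exp_eq_sum hXE, XE.expHalfC1_eq]
    unfold HodgeRing.expC
    refine Finset.sum_congr rfl fun j _ => ?_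
    rw [hq, _root_.smul_pow, smul_smul]
    congr 1
    push_cast
    ring
  rw [k1, k2, k3, hc, smul_add]
  refine IsNilpotent.exp_add_of_commute ?_ ⟨n + 1, hX⟩ ⟨ε + 1, hE⟩
  have h1 : Commute (U.fst X.c1) (U.snd E.c1) :=
    (HodgeRing.central_one_one (X := XE) (U.fst_mem _ _ _ X.c1_mem))
  exact (h1.smul_left _).smul_right _

/-- the Mukai pairing on a product -/
theorem mukai_prod {P : PolyvectorAction X} {PE : PolyvectorAction E}
    {PX : PolyvectorAction XE} {U : Product XE X E} (F : U.Full PX P PE) (v v' : A) (w w' : C) :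
    2 * XE.mukai (U.fst v * U.snd w) (U.fst v' * U.snd w') =
      X.mukai v v' * E.mukai w w' + X.mukai v (X.sgn v') * E.mukai w w' +
      X.mukai v v' * E.int (E.sgn (E.expHalfC1 * E.dual w) * w') -
      X.mukai v (X.sgn v') * E.int (E.sgn (E.expHalfC1 * E.dual w) * w') := by
  have hcent : ∀ x : AE, U.snd E.expHalfC1 * x = x * U.snd E.expHalfC1 := by
    intro x
    rw [E.expHalfC1_eq]
    unfold HodgeRing.expC
    rw [map_sum, Finset.sum_mul, Finset.mul_sum]
    refine Finset.sum_congr rfl fun j _ => ?_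
    rw [map_smul, map_pow, smul_mul_assoc, mul_smul_comm]
    congr 1
    have h1 : Commute (U.snd E.c1) x :=
      (HodgeRing.central_one_one (X := XE) (U.snd_mem _ _ _ E.c1_mem))
    exact h1.pow_left j
  have e1 : XE.expHalfC1 * XE.dual (U.fst v * U.snd w) * (U.fst v' * U.snd w') =
      U.fst (X.expHalfC1 * X.dual v) * ((U.snd (E.expHalfC1 * E.dual w) * U.fst v') *
        U.snd w') := by
    rw [exp_prod F.chern, dual_prod, map_mul, map_mul]
    calc U.fst X.expHalfC1 * U.snd E.expHalfC1 * (U.fst (X.dual v) * U.snd (E.dual w)) *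
          (U.fst v' * U.snd w')
        = U.fst X.expHalfC1 * (U.snd E.expHalfC1 * U.fst (X.dual v)) * U.snd (E.dual w) *
          (U.fst v' * U.snd w') := by noncomm_ring
      _ = U.fst X.expHalfC1 * (U.fst (X.dual v) * U.snd E.expHalfC1) * U.snd (E.dual w) *
          (U.fst v' * U.snd w') := by rw [hcent]
      _ = _ := by noncomm_ring
  have e2 : (2 : ℂ) • (XE.expHalfC1 * XE.dual (U.fst v * U.snd w) * (U.fst v' * U.snd w')) =
      U.fst (X.expHalfC1 * X.dual v * v') * U.snd (E.expHalfC1 * E.dual w * w') +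
      U.fst (X.expHalfC1 * X.dual v * X.sgn v') * U.snd (E.expHalfC1 * E.dual w * w') +
      U.fst (X.expHalfC1 * X.dual v * v') * U.snd (E.sgn (E.expHalfC1 * E.dual w) * w') -
      U.fst (X.expHalfC1 * X.dual v * X.sgn v') *
        U.snd (E.sgn (E.expHalfC1 * E.dual w) * w') := by
    rw [e1, ← mul_smul_comm, ← smul_mul_assoc, U.snd_mul_fst']
    simp only [map_mul]
    noncomm_ring
  have e3 := congrArg XE.int e2
  rw [map_smul, smul_eq_mul, map_sub, map_add, map_add, F.fubini, F.fubini, F.fubini,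
    F.fubini] at e3
  exact e3

theorem times_mukai {P : PolyvectorAction X} {Q : PolyvectorAction Y}
    {PE : PolyvectorAction E} {PX : PolyvectorAction XE} {PY : PolyvectorAction YE}
    {U : Product XE X E} {U' : Product YE Y E} (F : U.Full PX P PE) (F' : U'.Full PY Q PE)
    {phi : A ≃ₗ[ℂ] B} (hM : IsMukaiIsometry X Y phi) :
    IsMukaiIsometry XE YE (times U U' phi) where
  conj := times_conj F.real F'.real hM.conj
  column := column_of_cop (times_cop hM.cop_eq)
  mukai a b := by
    refine U.induct_ku (P := fun a => YE.mukai (times U U' phi a) (times U U' phi b) =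
      XE.mukai a b) (fun v w => ?_) (by simp [HodgeRing.mukai]) (fun x y hx hy => by
        rw [map_add, YE.mukai_add_left, XE.mukai_add_left, hx, hy]) a
    refine U.induct_ku (P := fun b => YE.mukai (times U U' phi (U.fst v * U.snd w))
      (times U U' phi b) = XE.mukai (U.fst v * U.snd w) b) (fun v' w' => ?_)
      (by simp [HodgeRing.mukai]) (fun x y hx hy => by
        rw [map_add, YE.mukai_add_right, XE.mukai_add_right, hx, hy]) b
    have h1 := mukai_prod F v v' w w'
    have h2 := mukai_prod F' (phi v) (phi v') w w'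
    rw [← sgn_of_cop hM.cop_eq, hM.mukai, hM.mukai] at h2
    rw [times_apply, times_apply]
    have h3 : (2 : ℂ) * YE.mukai (U'.fst (phi v) * U'.snd w) (U'.fst (phi v') * U'.snd w') =
        2 * XE.mukai (U.fst v * U.snd w) (U.fst v' * U.snd w') := h2.trans h1.symm
    exact mul_left_cancel₀ (by norm_num) h3

end times

theorem coeff_gen_uw {n : ℕ} {A : Type*} [Ring A] [Algebra ℂ A] (X : HodgeRing n A) :
    (X.gen uw).coeff (0, 0) = X.h 0 0 := by
  have coef : ∀ f : ℕ → ℕ → ℕ, (∑ x ∈ Finset.range (n + 1) ×ˢ Finset.range (n + 1),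
      ((f x.1 x.2 : AddMonoidAlgebra ℤ (ℕ × ℕ)) * uw x)).coeff (0, 0) = f 0 0 := by
    intro f
    rw [AddMonoidAlgebra.coeff_sum, Finsupp.finsetSum_apply,
      Finset.sum_eq_single (0, 0)]
    · rw [← nsmul_eq_mul, AddMonoidAlgebra.coeff_smul, Finsupp.smul_apply, uw,
        AddMonoidAlgebra.coeff_single, Finsupp.single_eq_same]
      simp
    · intro x _ hx
      rw [← nsmul_eq_mul, AddMonoidAlgebra.coeff_smul, Finsupp.smul_apply, uw,
        AddMonoidAlgebra.coeff_single, Finsupp.single_eq_of_ne' hx, smul_zero]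
    · intro h
      exfalso
      apply h
      simp
  exact coef X.h

section cancel

variable {n ν ε : ℕ} {A B C AE BE : Type*} [Ring A] [Algebra ℂ A] [FiniteDimensional ℂ A]
  [Ring B] [Algebra ℂ B] [FiniteDimensional ℂ B] [Ring C] [Algebra ℂ C] [FiniteDimensional ℂ C]
  [Ring AE] [Algebra ℂ AE] [FiniteDimensional ℂ AE] [Ring BE] [Algebra ℂ BE]
  [FiniteDimensional ℂ BE]
  {X : HodgeRing n A} {Y : HodgeRing n B} {E : HodgeRing ε C} {XE : HodgeRing ν AE}
  {YE : HodgeRing ν BE}

omit [FiniteDimensional ℂ AE] [FiniteDimensional ℂ BE] in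
/-- the Hodge numbers cancel -/
theorem h_cancel (U : Product XE X E) (U' : Product YE Y E)
    (h : ∀ p q, XE.h p q = YE.h p q) (p q : ℕ) : X.h p q = Y.h p q := by
  refine h_eq_of_gen X Y ?_ p q
  have h1 := gen_congr XE YE uw h
  rw [U.gen_mul _ uw_add, U'.gen_mul _ uw_add] at h1
  refine mul_right_cancel₀ ?_ h1
  intro h0
  have h2 := coeff_gen_uw E
  rw [h0] at h2
  have h3 : E.h 0 0 = 1 := E.connected
  rw [h3] at h2
  simp at h2

omit [FiniteDimensional ℂ AE] [FiniteDimensional ℂ BE] in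
/-- the numbers of holomorphic forms cancel -/
theorem h_zero_cancel (U : Product XE X E) (U' : Product YE Y E)
    (h : ∀ q, XE.h 0 q = YE.h 0 q) (q : ℕ) : X.h 0 q = Y.h 0 q := by
  have h1 : XE.gen fw = YE.gen fw := by
    ext q
    rw [coeff_gen_fw, coeff_gen_fw, h]
  rw [U.gen_mul _ fw_add, U'.gen_mul _ fw_add] at h1
  have h2 : E.gen fw ≠ 0 := by
    intro h0
    have h3 := coeff_gen_fw E 0
    rw [h0, Polynomial.coeff_zero, show E.h 0 0 = 1 from E.connected] at h3
    simp at h3
  have h4 := congrArg (fun f => f.coeff q) (mul_right_cancel₀ h2 h1)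
  simp only [coeff_gen_fw] at h4
  exact_mod_cast h4

end cancel

section main

variable {n ν ε r r' b b' : ℕ} {A B A₁ B₁ K C D C' D' : Type u}
  [Ring A] [Algebra ℂ A] [FiniteDimensional ℂ A] [Ring B] [Algebra ℂ B] [FiniteDimensional ℂ B]
  [Ring A₁] [Algebra ℂ A₁] [FiniteDimensional ℂ A₁] [Ring B₁] [Algebra ℂ B₁]
  [FiniteDimensional ℂ B₁] [Ring K] [Algebra ℂ K] [FiniteDimensional ℂ K]
  [Ring C] [Algebra ℂ C] [FiniteDimensional ℂ C] [Ring D] [Algebra ℂ D] [FiniteDimensional ℂ D]
  [Ring C'] [Algebra ℂ C'] [FiniteDimensional ℂ C']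
  [Ring D'] [Algebra ℂ D'] [FiniteDimensional ℂ D']
  {X : HodgeRing n A} {Y : HodgeRing n B} {P : PolyvectorAction X} {Q : PolyvectorAction Y}
  {phi : A ≃ₗ[ℂ] B} {E : HodgeRing ε K} {PE : PolyvectorAction E} {XE : HodgeRing ν A₁}
  {YE : HodgeRing ν B₁} {PX : PolyvectorAction XE} {PY : PolyvectorAction YE}
  {S : HodgeRing (2 * r) C} {Z : HodgeRing b D} {S' : HodgeRing (2 * r') C'}
  {Z' : HodgeRing b' D'} {PS : PolyvectorAction S} {PZ : PolyvectorAction Z}
  {PS' : PolyvectorAction S'} {PZ' : PolyvectorAction Z'} {L L' : Multiset Diamond}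

/-- The same for varieties `X`, `Y` such that `X × E`, `Y × E` have such decompositions. -/
theorem times_main (h : IsHochschildIso P Q phi) (hM : IsMukaiIsometry X Y phi)
    {V : Product XE X E} {V' : Product YE Y E} (F : V.Full PX P PE) (F' : V'.Full PY Q PE)
    (U : Decomposition PX PS PZ L) (U' : Decomposition PY PS' PZ' L') :
    r = r' ∧ b = b' ∧ (∀ p q, S.h p q = S'.h p q) ∧ Multiset.Rel Diamond.Matches L L' ∧
      (∀ q, X.h 0 q = Y.h 0 q) ∧
      ((∀ d ∈ L, d.1 ≤ 5) → L = L' ∧ ∀ p q, X.h p q = Y.h p q) := by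
  obtain ⟨h1, h2, h3, h4, h5, h6⟩ := decomposition_main (times_hochschild F F' h hM)
    (times_mukai F F' hM) U U'
  exact ⟨h1, h2, h3, h4, h_zero_cancel V V' h5, fun hL => ⟨(h6 hL).1,
    h_cancel V V' (h6 hL).2⟩⟩

end main

end Pool.Agent.Hodge81
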