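import Pool.Agent.KT.NoMix
import Pool.Agent.KT.SympG

/-!
# Transport of the factors of `Y` to `X`
-/

set_option autoImplicit false

namespace Pool.Agent.KT

open Module

section map

variable {E E' : Type*} [Ring E] [Algebra ℂ E] [Ring E'] [Algebra ℂ E']
  {R : ℕ → Submodule ℂ E} {R' : ℕ → Submodule ℂ E'} (σ : E ≃ₐ[ℂ] E')

theorem map_ad (x f : E) : σ (ad x f) = ad (σ x) (σ f) := by
  rw [ad_apply, ad_apply, map_sub, map_mul, map_mul]

theorem pt_map (hR : ∀ k f, f ∈ R k ↔ σ f ∈ R' k) {x f : E} {k : ℕ} :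
    f ∈ pt R x k ↔ σ f ∈ pt R' (σ x) k := by
  rw [mem_pt, mem_pt, hR, ← map_ad, map_eq_zero_iff σ σ.injective]

theorem pt_map_symm (hR : ∀ k f, f ∈ R k ↔ σ f ∈ R' k) {x : E} {f : E'} {k : ℕ} :
    f ∈ pt R' (σ x) k ↔ σ.symm f ∈ pt R x k := by
  rw [pt_map σ hR, AlgEquiv.apply_symm_apply]

theorem pt_map_eq (hR : ∀ k f, f ∈ R k ↔ σ f ∈ R' k) {x : E} {k : ℕ} :
    pt R' (σ x) k = (pt R x k).map σ.toLinearMap := by
  ext f
  constructor
  · intro hf
    exact ⟨σ.symm f, (pt_map_symm σ hR).1 hf, AlgEquiv.apply_symm_apply _ _⟩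
  · rintro ⟨x, hx, rfl⟩
    exact (pt_map σ hR).1 hx

theorem Split.map (hR : ∀ k f, f ∈ R k ↔ σ f ∈ R' k) {c e e' : E} (h : Split R c e e') :
    Split R' (σ c) (σ e) (σ e') where
  add := by rw [← map_add, h.add]
  comm := by rw [← map_mul, ← map_mul, h.comm]
  span k := by
    intro f hf
    have h1 : σ.symm f ∈ R k := by rw [hR, AlgEquiv.apply_symm_apply]; exact hf
    have h2 : (⨆ i : Fin (k + 1),
        Submodule.span ℂ {f | ∃ a ∈ pt R e' i, ∃ b ∈ pt R e (k - i), f = a * b}) ≤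
        (⨆ i : Fin (k + 1), Submodule.span ℂ {f | ∃ a ∈ pt R' (σ e') i,
          ∃ b ∈ pt R' (σ e) (k - i), f = a * b}).comap σ.toLinearMap := by
      refine iSup_le fun i => Submodule.span_le.2 ?_
      rintro _ ⟨a, ha, b, hb, rfl⟩
      refine Submodule.mem_iSup_of_mem i (Submodule.subset_span
        ⟨σ a, (pt_map σ hR).1 ha, σ b, (pt_map σ hR).1 hb, ?_⟩)
      exact map_mul σ a b
    have h3 := Submodule.mem_comap.1 (h2 (h.span k h1))
    rwa [AlgEquiv.toLinearMap_apply, AlgEquiv.apply_symm_apply] at h3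
  cross i j a ha b hb h0 := by
    rw [pt_map_symm σ hR] at ha hb
    have h1 : σ.symm a * σ.symm b = 0 := by rw [← map_mul, h0, map_zero]
    rcases h.cross i j _ ha _ hb h1 with h2 | h2
    · exact Or.inl ((map_eq_zero_iff σ.symm σ.symm.injective).1 h2)
    · exact Or.inr ((map_eq_zero_iff σ.symm σ.symm.injective).1 h2)

theorem CYData.map (hR : ∀ k f, f ∈ R k ↔ σ f ∈ R' k) {e' w : E} {m : ℕ}
    (hC : CYData R e' m w) : CYData R' (σ e') m (σ w) where
  three := hC.three
  ne := fun h => hC.ne ((map_eq_zero_iff σ σ.injective).1 h)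
  mem := (pt_map σ hR).1 hC.mem
  pair := by
    obtain ⟨u, hu, u', hu', huu, hk⟩ := hC.pair
    refine ⟨σ u, (pt_map σ hR).1 hu, σ u', (pt_map σ hR).1 hu', by rw [← map_mul, huu], ?_⟩
    intro k h1 h2 f hf
    have h3 := hk k h1 h2 _ ((pt_map_symm σ hR).1 hf)
    constructor
    · have h4 := congrArg σ h3.1
      rwa [map_mul, AlgEquiv.apply_symm_apply, map_zero] at h4
    · have h4 := congrArg σ h3.2
      rwa [map_mul, AlgEquiv.apply_symm_apply, map_zero] at h4
  top := by
    intro f hf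
    obtain ⟨z, hz⟩ := hC.top _ ((pt_map_symm σ hR).1 hf)
    refine ⟨z, ?_⟩
    rw [← map_smul, ← hz, AlgEquiv.apply_symm_apply]
  pd := by
    intro k f hf h0
    obtain ⟨h1, f', hf', h2⟩ := hC.pd k _ ((pt_map_symm σ hR).1 hf)
      fun h => h0 ((map_eq_zero_iff σ.symm σ.symm.injective).1 h)
    refine ⟨h1, σ f', (pt_map σ hR).1 hf', ?_⟩
    have h4 := congrArg σ h2
    rwa [map_mul, AlgEquiv.apply_symm_apply] at h4
  dim := by
    rw [pt_map_eq σ hR]
    have h1 := LinearEquiv.finrank_eq (Submodule.equivMapOfInjective σ.toLinearMap σ.injective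
      (pt R e' m))
    rw [← h1]
    exact hC.dim

end map

end Pool.Agent.KT

namespace Pool.Agent.Hodge81

open Complex Module
open Pool.Agent.KT

variable {n : ℕ} {A B : Type*} [Ring A] [Algebra ℂ A] [Ring B] [Algebra ℂ B]
  {X : HodgeRing n A} {Y : HodgeRing n B} {P : PolyvectorAction X} {Q : PolyvectorAction Y}
  {phi : A ≃ₗ[ℂ] B}

namespace IsHochschildIso

/-- the transport of operators as an isomorphism of algebras -/
noncomputable def opEquiv (phi : A ≃ₗ[ℂ] B) : Module.End ℂ A ≃ₐ[ℂ] Module.End ℂ B :=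
  phi.conjAlgEquiv ℂ

theorem opEquiv_eq (phi : A ≃ₗ[ℂ] B) (f : Module.End ℂ A) : opEquiv phi f = transport phi f := rfl

theorem opEquiv_apply (phi : A ≃ₗ[ℂ] B) (f : Module.End ℂ A) (b : B) :
    opEquiv phi f b = phi (f (phi.symm b)) := rfl

theorem opEquiv_mem (h : IsHochschildIso P Q phi) (k : ℕ) (f : Module.End ℂ A) :
    f ∈ P.total k ↔ opEquiv phi f ∈ Q.total k := h.total k f

theorem bar_opEquiv (h : IsHochschildIso P Q phi) (f : Module.End ℂ A) :
    Y.bar (opEquiv phi f) = opEquiv phi (X.bar f) := h.bar_transport f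

end IsHochschildIso

theorem HodgeRing.mem_column_top (X : HodgeRing n A) {v : A} (hv : v ∈ X.column (n : ℤ)) :
    v ∈ X.H n 0 := by
  refine X.column_induct (P := fun v => v ∈ X.H n 0) (fun p q hpq v hv => ?_)
    (Submodule.zero_mem _) (fun a b ha hb => Submodule.add_mem _ ha hb) hv
  by_cases hp : n < p
  · rw [X.bounded p q (Or.inl hp), Submodule.mem_bot] at hv
    rw [hv]
    exact Submodule.zero_mem _
  · obtain ⟨rfl, rfl⟩ : p = n ∧ q = 0 := by omega
    exact hv

open IsHochschildIso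

/-- the column operators correspond -/
theorem opEquiv_cop (hM : IsMukaiIsometry X Y phi) : opEquiv phi X.cop = Y.cop := by
  refine PolyvectorAction.ext_H Y fun p q v hv => ?_
  have h1 : v ∈ (X.column ((p : ℤ) - q)).map phi.toLinearMap := by
    rw [hM.column]
    exact Y.mem_column rfl hv
  obtain ⟨x, hx, rfl⟩ := h1
  rw [Y.cop_of_mem hv, LinearEquiv.coe_coe, opEquiv_apply, LinearEquiv.symm_apply_apply,
    X.cop_column hx, map_smul]
  push_cast
  rfl

/-- transport of a factor -/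
theorem Fac.map (h : IsHochschildIso P Q phi) (hM : IsMukaiIsometry X Y phi)
    {e : Module.End ℂ A} {m : ℕ} (F : Fac P e m) : Fac Q (opEquiv phi e) m := by
  have hc := opEquiv_cop hM
  have hce : Y.cop - opEquiv phi e = opEquiv phi (X.cop - e) := by rw [map_sub, hc]
  have hR := opEquiv_mem h
  refine ⟨?_, ?_, ?_, ?_, ?_, ?_⟩
  · rw [hce, ← hc]
    exact F.split.map (opEquiv phi) hR
  · rw [h.bar_opEquiv, F.real, map_neg]
  · intro s hs
    have h1 : s ∈ (X.column (n : ℤ)).map phi.toLinearMap := by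
      rw [hM.column]
      exact Y.mem_column (by simp) hs
    obtain ⟨x, hx, rfl⟩ := h1
    rw [LinearEquiv.coe_coe, opEquiv_apply, LinearEquiv.symm_apply_apply,
      F.gen x (X.mem_column_top hx), map_smul]
  · obtain ⟨w, hw⟩ := F.data
    exact ⟨opEquiv phi w, by rw [hce]; exact hw.map (opEquiv phi) hR⟩
  · rw [hce, pt_map_eq (opEquiv phi) hR, F.one, Submodule.map_bot]
  · intro i g hg k a ha
    rw [hce] at ha
    have hg' := (pt_map_symm (opEquiv phi) hR).1 hg
    have ha' := (pt_map_symm (opEquiv phi) hR).1 ha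
    have h1 := congrArg (opEquiv phi) (F.super i _ hg' k _ ha')
    rw [map_mul, map_smul, map_mul, ← h.bar_opEquiv, AlgEquiv.apply_symm_apply, AlgEquiv.apply_symm_apply] at h1
    exact h1

/-- the polyvector fields of degree two of a factor of `X` kill the exponential -/
theorem FacX.expo {e : Module.End ℂ A} {m : ℕ} (F : FacX P e m) {f : Module.End ℂ A}
    (hf : f ∈ pt P.total (X.cop - e) 2) (z : ℂ) : f (X.expo z) = 0 := by
  obtain ⟨h1, h2⟩ := F.kill f hf
  have h3 : ∀ j : ℕ, f (X.omega ^ j) = 0 := by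
    intro j
    induction j with
    | zero => rw [pow_zero, h1]
    | succ j ih => rw [pow_succ', h2 _ X.omega_mem, ih, mul_zero]
  unfold HodgeRing.expo
  rw [map_sum]
  exact Finset.sum_eq_zero fun j _ => by rw [map_smul, h3, smul_zero]

universe u

/-- K6 for a factor: the column operator of the symplectic factor of `Y` commutes with the
polyvector fields of the strict Calabi-Yau factors of `X`. -/
theorem FacX.symp {n r b : ℕ} {A B C' D' : Type u}
    [Ring A] [Algebra ℂ A] [FiniteDimensional ℂ A] [Ring B] [Algebra ℂ B] [FiniteDimensional ℂ B]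
    [Ring C'] [Algebra ℂ C'] [FiniteDimensional ℂ C'] [Ring D'] [Algebra ℂ D']
    {X : HodgeRing n A} {Y : HodgeRing n B} {P : PolyvectorAction X} {Q : PolyvectorAction Y}
    {phi : A ≃ₗ[ℂ] B} (h : IsHochschildIso P Q phi) {S' : HodgeRing (2 * r) C'}
    {Z' : HodgeRing b D'} (U' : Product Y S' Z') {PS' : PolyvectorAction S'}
    {PZ' : PolyvectorAction Z'} (K' : U'.Kuenneth Q PS' PZ') (hU' : U'.Real)
    (hS' : SymplecticP PS') {e : Module.End ℂ A} {m : ℕ} (F : FacX P e m) {k : ℕ}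
    {a : Module.End ℂ A} (ha : a ∈ pt P.total (X.cop - e) k) :
    ad (opEquiv phi.symm U'.cl) a = 0 := by
  obtain ⟨w, hw⟩ := F.data
  have h1 := symp_ad_eq_zero h U' K' (fun v => (hU'.fst_conj v).symm)
    (fun v => (hU'.snd_conj v).symm) hS'.exists_form hS'.inverse P.grad F.split hw F.one
    (fun g hg k a ha => by
      rw [F.super 2 g hg k a ha, pow_mul]
      norm_num) (fun f hf => F.expo hf I) ha
  rw [Product.cl, Product.bx_zero_one]
  exact h1

end Pool.Agent.Hodge81
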